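import Pool.Agent.H625R3.PC1

set_option autoImplicit false

/-!
# Dimension `n - 2`, even order: the uncovered pairs

For a word `v` the pair `{i, j}` of cubes is covered if some point agrees with `v` on all but one
of the other cubes.
-/

namespace Pool.Agent.H625R3.PC

open Pool.Agent.H430R2.PermCubes

variable {m n k : ℕ} {C : Fin k → (Fin m → Fin n) → Fin n}

/-- the pair `{i, j}` is covered by the word `v` -/
def Cov (C : Fin k → (Fin m → Fin n) → Fin n) (v : Fin k → Fin n) (i j : Fin k) : Prop :=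
  ∃ x, (dis C x v \ {i, j}).card ≤ 1

theorem uniq2 (h : IsArray m n k C) (hk : k = m + 4) {v : Fin k → Fin n} {i j : Fin k}
    {x y : Fin m → Fin n} (hx : (dis C x v \ {i, j}).card ≤ 1)
    (hy : (dis C y v \ {i, j}).card ≤ 1) : x = y := by
  classical
  refine near_unique h ({i, j} : Finset (Fin k))ᶜ ?_ v ?_ ?_
  · have : ({i, j} : Finset (Fin k)).card ≤ 2 := Finset.card_le_two
    rw [Finset.card_compl, Fintype.card_fin]; omega
  · rwa [← Finset.sdiff_eq_inter_compl]
  · rwa [← Finset.sdiff_eq_inter_compl]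

theorem union_ge (h : IsArray m n k C) (hk : k = m + 4) (v : Fin k → Fin n)
    {x y : Fin m → Fin n} (hxy : x ≠ y) : 5 ≤ (dis C x v ∪ dis C y v).card := by
  classical
  have h1 := card_diff h hxy
  have h2 : Finset.univ.filter (fun j => C j x ≠ C j y) ⊆ dis C x v ∪ dis C y v := by
    intro j hj
    rw [Finset.mem_filter] at hj
    rw [Finset.mem_union, mem_dis, mem_dis]
    by_contra hcon
    push Not at hcon
    exact hj.2 (hcon.1.trans hcon.2.symm)
  have h3 := Finset.card_le_card h2
  omega

/-- the block through `i` and `j`, off `i` -/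
theorem pair_block (h : IsArray m n k C) (hk : k = m + 4) {v : Fin k → Fin n}
    {x₀ x : Fin m → Fin n} {a b i j : Fin k} (hab : a ≠ b) (hia : i ≠ a) (hib : i ≠ b)
    (hd : ∀ c, c ≠ a → c ≠ b → c ≠ i → v c = C c x₀) (ha : v a ≠ C a x₀) (hb : v b ≠ C b x₀)
    (hja : j ≠ a) (hjb : j ≠ b) (hji : j ≠ i) (hx : (dis C x v \ {i, j}).card ≤ 1) :
    ∃ l, l ≠ a ∧ l ≠ b ∧ l ≠ i ∧ l ≠ j ∧ dis C x v \ {i} = {j, l} := by
  classical
  have hxx : x ≠ x₀ := by
    rintro rfl
    have h1 : ({a, b} : Finset (Fin k)) ⊆ dis C x v \ {i, j} := by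
      intro c hc
      rw [Finset.mem_sdiff, mem_dis]
      rcases Finset.mem_insert.1 hc with rfl | hc
      · exact ⟨ha.symm, by simp [hia.symm, hja.symm]⟩
      · rw [Finset.mem_singleton.1 hc]
        exact ⟨hb.symm, by simp [hib.symm, hjb.symm]⟩
    have h2 := Finset.card_le_card h1
    rw [Finset.card_pair hab] at h2
    omega
  have h5 := union_ge h hk v hxx
  set A := dis C x v \ {i} with hA
  have h6 : dis C x v ∪ dis C x₀ v ⊆ A ∪ {a, b, i} := by
    intro c hc
    rw [Finset.mem_union] at hc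
    simp only [hA, Finset.mem_union, Finset.mem_sdiff, Finset.mem_insert, Finset.mem_singleton]
    by_cases hci : c = i
    · tauto
    rcases hc with hc | hc
    · exact Or.inl ⟨hc, hci⟩
    · right
      by_contra hcon
      push Not at hcon
      exact mem_dis.1 hc (hd c hcon.1 hcon.2.1 hcon.2.2).symm
  have h7 := Finset.card_le_card h6
  have h8 := Finset.card_union_add_card_inter A ({a, b, i} : Finset (Fin k))
  have h9 : ({a, b, i} : Finset (Fin k)).card = 3 := by
    rw [Finset.card_insert_of_notMem (by simp [hab, hia.symm]), Finset.card_pair hib.symm]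
  have h10 : A \ {j} = dis C x v \ {i, j} := by
    ext c; simp only [hA, Finset.mem_sdiff, Finset.mem_insert, Finset.mem_singleton]; tauto
  rw [← h10] at hx
  have h11 := Finset.card_sdiff_add_card_inter A {j}
  have h12 : (A ∩ {j}).card ≤ 1 := by
    exact (Finset.card_le_card Finset.inter_subset_right).trans (by simp)
  have hAc : A.card = 2 := by omega
  have hdis : A ∩ {a, b, i} = ∅ := by
    rw [← Finset.card_eq_zero]; omega
  have hjA : j ∈ A := by
    by_contra hj
    have : A ∩ {j} = ∅ := by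
      ext c
      simp only [Finset.mem_inter, Finset.mem_singleton, Finset.notMem_empty, iff_false]
      rintro ⟨h1, rfl⟩
      exact hj h1
    rw [this, Finset.card_empty] at h11
    omega
  obtain ⟨l, hl⟩ := Finset.card_eq_one.1 (show (A.erase j).card = 1 by
    rw [Finset.card_erase_of_mem hjA, hAc])
  have hlA : l ∈ A.erase j := by rw [hl]; simp
  have hlj := Finset.ne_of_mem_erase hlA
  have hlA' := Finset.mem_of_mem_erase hlA
  have hl3 : l ∉ ({a, b, i} : Finset (Fin k)) := by
    intro h'
    have : l ∈ A ∩ {a, b, i} := Finset.mem_inter.2 ⟨hlA', h'⟩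
    rw [hdis] at this
    simp at this
  simp only [Finset.mem_insert, Finset.mem_singleton, not_or] at hl3
  refine ⟨l, hl3.1, hl3.2.1, hl3.2.2, hlj, ?_⟩
  rw [← Finset.insert_erase hjA, hl]

open Classical in
/-- parity: the number of uncovered pairs at `i` is odd -/
theorem odd_unc (h : IsArray m n k C) (hk : k = m + 4) (hodd : (k - 3) % 2 = 1)
    {v : Fin k → Fin n} {x₀ : Fin m → Fin n} {a b i : Fin k} (hab : a ≠ b) (hia : i ≠ a)
    (hib : i ≠ b) (hd : ∀ c, c ≠ a → c ≠ b → c ≠ i → v c = C c x₀) (ha : v a ≠ C a x₀)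
    (hb : v b ≠ C b x₀) :
    ((({a, b, i} : Finset (Fin k))ᶜ).filter (fun j => ¬ Cov C v i j)).card % 2 = 1 := by
  set R := (({a, b, i} : Finset (Fin k))ᶜ) with hR
  have hmemR : ∀ j, j ∈ R ↔ j ≠ a ∧ j ≠ b ∧ j ≠ i := by
    intro j; simp [hR]
  have h9 : ({a, b, i} : Finset (Fin k)).card = 3 := by
    rw [Finset.card_insert_of_notMem (by simp [hab, hia.symm]), Finset.card_pair hib.symm]
  have hRc : R.card = k - 3 := by
    rw [hR, Finset.card_compl, Fintype.card_fin, h9]
  set Rc := R.filter (fun j => Cov C v i j) with hRcdef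
  have hex : ∀ j ∈ Rc, ∃ x, (dis C x v \ {i, j}).card ≤ 1 := by
    intro j hj
    exact (Finset.mem_filter.1 hj).2
  have : Nonempty (Fin m → Fin n) := ⟨x₀⟩
  choose! f hf using hex
  have hfib : ∀ y ∈ Rc.image f, (Rc.filter (fun j => f j = y)).card = 2 := by
    intro y hy
    obtain ⟨j₀, hj₀, rfl⟩ := Finset.mem_image.1 hy
    obtain ⟨hja, hjb, hji⟩ := (hmemR j₀).1 (Finset.mem_filter.1 hj₀).1
    obtain ⟨l, hla, hlb, hli, hlj, hA⟩ := pair_block h hk hab hia hib hd ha hb hja hjb hji
      (hf j₀ hj₀)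
    have heq : Rc.filter (fun j => f j = f j₀) = {j₀, l} := by
      ext j
      rw [Finset.mem_filter]
      constructor
      · rintro ⟨hj, hjf⟩
        obtain ⟨hja', hjb', hji'⟩ := (hmemR j).1 (Finset.mem_filter.1 hj).1
        obtain ⟨l', -, -, -, -, hA'⟩ := pair_block h hk hab hia hib hd ha hb hja' hjb' hji'
          (hf j hj)
        rw [← hA, ← hjf, hA']
        simp
      · intro hj
        rcases Finset.mem_insert.1 hj with rfl | hj
        · exact ⟨hj₀, rfl⟩
        · rw [Finset.mem_singleton.1 hj]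
          have hc : (dis C (f j₀) v \ {i, l}).card ≤ 1 := by
            have : dis C (f j₀) v \ {i, l} ⊆ {j₀} := by
              intro c hc
              rw [Finset.mem_sdiff] at hc
              have hci : c ≠ i := fun h' => hc.2 (by simp [h'])
              have hcl : c ≠ l := fun h' => hc.2 (by simp [h'])
              have : c ∈ dis C (f j₀) v \ {i} := by
                rw [Finset.mem_sdiff]; exact ⟨hc.1, by simpa using hci⟩
              rw [hA] at this
              simpa [hcl] using this
            exact (Finset.card_le_card this).trans (by simp)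
          have hlRc : l ∈ Rc := Finset.mem_filter.2 ⟨(hmemR l).2 ⟨hla, hlb, hli⟩, _, hc⟩
          exact ⟨hlRc, uniq2 h hk (hf l hlRc) hc⟩
    rw [heq, Finset.card_pair hlj.symm]
  have hsum := Finset.card_eq_sum_card_image f Rc
  rw [Finset.sum_congr rfl hfib, Finset.sum_const, smul_eq_mul] at hsum
  have htot : Rc.card + (R.filter (fun j => ¬ Cov C v i j)).card = R.card := by
    rw [hRcdef]
    exact Finset.card_filter_add_card_filter_not (s := R) (fun j => Cov C v i j)
  rw [hRc] at htot
  omega

open Classical in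
/-- at most `n - 1` of the words differing from `x₀` at `a` and `b` leave `{i, j}` uncovered -/
theorem unc_le (h : IsArray m n k C) (hk : k = m + 4) (hn : m + 2 = n)
    {v : Fin k → Fin n} {x₀ : Fin m → Fin n} {a b i j : Fin k} (hab : a ≠ b) (hia : i ≠ a)
    (hib : i ≠ b) (hd : ∀ c, c ≠ a → c ≠ b → c ≠ i → v c = C c x₀)
    (hja : j ≠ a) (hjb : j ≠ b) (hji : j ≠ i) :
    (((Finset.univ.erase (C a x₀)) ×ˢ (Finset.univ.erase (C b x₀))).filter
      (fun p : Fin n × Fin n => ¬ Cov C (Function.update (Function.update v a p.1) b p.2) i j)).card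
      ≤ n - 1 := by
  set S := Finset.univ.erase (C a x₀) with hS
  set T := Finset.univ.erase (C b x₀) with hT
  have hSc : S.card = n - 1 := by
    rw [hS, Finset.card_erase_of_mem (Finset.mem_univ _), Finset.card_univ, Fintype.card_fin]
  have hTc : T.card = n - 1 := by
    rw [hT, Finset.card_erase_of_mem (Finset.mem_univ _), Finset.card_univ, Fintype.card_fin]
  set R' := (({a, b, i, j} : Finset (Fin k))ᶜ) with hR'
  have hmemR : ∀ l, l ∈ R' ↔ l ≠ a ∧ l ≠ b ∧ l ≠ i ∧ l ≠ j := by
    intro l; simp [hR']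
  have h4 : ({a, b, i, j} : Finset (Fin k)).card = 4 := by
    rw [Finset.card_insert_of_notMem (by simp [hab, hia.symm, hja.symm]),
      Finset.card_insert_of_notMem (by simp [hib.symm, hjb.symm]), Finset.card_pair hji.symm]
  have hR'c : R'.card = m := by
    rw [hR', Finset.card_compl, Fintype.card_fin, h4]; omega
  -- the points
  have hex : ∀ q ∈ R' ×ˢ S, ∃ x, C a x = q.2 ∧ ∀ c ∈ R', c ≠ q.1 → C c x = C c x₀ := by
    rintro ⟨l, σ⟩ hq
    obtain ⟨hl, hσ⟩ := Finset.mem_product.1 hq
    have hcard : (insert a (R'.erase l)).card = m := by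
      have haR : a ∉ R'.erase l := by
        intro h'
        exact ((hmemR a).1 (Finset.mem_of_mem_erase h')).1 rfl
      rw [Finset.card_insert_of_notMem haR, Finset.card_erase_of_mem hl]
      have : 0 < R'.card := Finset.card_pos.2 ⟨l, hl⟩
      omega
    obtain ⟨x, hx⟩ := h.exists_point _ hcard (fun c => if c = a then σ else C c x₀)
    refine ⟨x, by simpa using hx a (by simp), fun c hc hcl => ?_⟩
    have hca : c ≠ a := ((hmemR c).1 hc).1
    simpa [hca] using hx c (by simp [hc, hcl])
  have : Nonempty (Fin m → Fin n) := ⟨x₀⟩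
  choose! p hp1 hp2 using hex
  have hne : ∀ q ∈ R' ×ˢ S, p q ≠ x₀ := by
    rintro ⟨l, σ⟩ hq h'
    have := hp1 _ hq
    rw [h'] at this
    exact Finset.ne_of_mem_erase (Finset.mem_product.1 hq).2 this.symm
  have hcov : ∀ q ∈ R' ×ˢ S,
      (q.2, C b (p q)) ∈ (S ×ˢ T).filter (fun r : Fin n × Fin n =>
        Cov C (Function.update (Function.update v a r.1) b r.2) i j) := by
    rintro ⟨l, σ⟩ hq
    obtain ⟨hl, hσ⟩ := Finset.mem_product.1 hq
    obtain ⟨hla, hlb, hli, hlj⟩ := (hmemR l).1 hl
    rw [Finset.mem_filter, Finset.mem_product]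
    refine ⟨⟨hσ, ?_⟩, p (l, σ), ?_⟩
    · rw [hT]
      refine Finset.mem_erase.2 ⟨?_, Finset.mem_univ _⟩
      intro h'
      apply hne _ hq
      refine h.eq_of_agree (insert b (R'.erase l)) ?_ ?_
      · have hbR : b ∉ R'.erase l := by
          intro h'
          exact ((hmemR b).1 (Finset.mem_of_mem_erase h')).2.1 rfl
        rw [Finset.card_insert_of_notMem hbR, Finset.card_erase_of_mem hl]
        have : 0 < R'.card := Finset.card_pos.2 ⟨l, hl⟩
        omega
      · intro c hc
        rcases Finset.mem_insert.1 hc with rfl | hc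
        · exact h'
        · exact hp2 _ hq c (Finset.mem_of_mem_erase hc) (Finset.ne_of_mem_erase hc)
    · have hsub : dis C (p (l, σ)) (Function.update (Function.update v a σ) b (C b (p (l, σ)))) \
          {i, j} ⊆ {l} := by
        intro c hc
        rw [Finset.mem_sdiff, mem_dis] at hc
        simp only [Finset.mem_insert, Finset.mem_singleton, not_or] at hc
        rw [Finset.mem_singleton]
        by_contra hcl
        apply hc.1
        by_cases hcb : c = b
        · subst hcb; rw [Function.update_self]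
        · rw [Function.update_of_ne hcb]
          by_cases hca : c = a
          · subst hca
            rw [Function.update_self]
            exact hp1 _ hq
          · rw [Function.update_of_ne hca, hd c hca hcb hc.2.1]
            exact hp2 _ hq c ((hmemR c).2 ⟨hca, hcb, hc.2.1, hc.2.2⟩) hcl
      exact (Finset.card_le_card hsub).trans (by simp)
  have hinj : Set.InjOn (fun q : Fin k × Fin n => (q.2, C b (p q))) (R' ×ˢ S : Finset _) := by
    rintro ⟨l, σ⟩ hq ⟨l', σ'⟩ hq' heq
    have hq := Finset.mem_coe.1 hq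
    have hq' := Finset.mem_coe.1 hq'
    simp only [Prod.mk.injEq] at heq
    obtain ⟨rfl, hb'⟩ := heq
    by_contra hll
    have hll' : l ≠ l' := fun h' => hll (by rw [h'])
    obtain ⟨hl, -⟩ := Finset.mem_product.1 hq
    obtain ⟨hl', -⟩ := Finset.mem_product.1 hq'
    have hpp : p (l, σ) = p (l', σ) := by
      refine h.eq_of_agree (insert a (insert b ((R'.erase l).erase l'))) ?_ ?_
      · have hb1 : b ∉ (R'.erase l).erase l' := by
          intro h'
          exact ((hmemR b).1 (Finset.mem_of_mem_erase (Finset.mem_of_mem_erase h'))).2.1 rfl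
        have ha1 : a ∉ insert b ((R'.erase l).erase l') := by
          intro h'
          rcases Finset.mem_insert.1 h' with h' | h'
          · exact hab h'
          · exact ((hmemR a).1 (Finset.mem_of_mem_erase (Finset.mem_of_mem_erase h'))).1 rfl
        rw [Finset.card_insert_of_notMem ha1, Finset.card_insert_of_notMem hb1,
          Finset.card_erase_of_mem (Finset.mem_erase.2 ⟨hll'.symm, hl'⟩),
          Finset.card_erase_of_mem hl]
        have : 1 < R'.card := Finset.one_lt_card.2 ⟨l, hl, l', hl', hll'⟩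
        omega
      · intro c hc
        rcases Finset.mem_insert.1 hc with rfl | hc
        · rw [hp1 _ hq, hp1 _ hq']
        rcases Finset.mem_insert.1 hc with rfl | hc
        · exact hb'
        · have h1 := Finset.mem_of_mem_erase hc
          rw [hp2 _ hq c (Finset.mem_of_mem_erase h1) (Finset.ne_of_mem_erase h1),
            hp2 _ hq' c (Finset.mem_of_mem_erase h1) (Finset.ne_of_mem_erase hc)]
    apply hne _ hq
    refine h.eq_of_agree R' hR'c.ge ?_
    intro c hc
    by_cases hcl : c = l
    · rw [hpp]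
      exact hp2 _ hq' c hc (by rw [hcl]; exact hll')
    · exact hp2 _ hq c hc hcl
  have hle : (R' ×ˢ S).card ≤ ((S ×ˢ T).filter (fun r : Fin n × Fin n =>
        Cov C (Function.update (Function.update v a r.1) b r.2) i j)).card :=
    Finset.card_le_card_of_injOn _ (fun q hq => hcov q hq) hinj
  have htot := Finset.card_filter_add_card_filter_not (s := S ×ˢ T) (fun r : Fin n × Fin n =>
        Cov C (Function.update (Function.update v a r.1) b r.2) i j)
  rw [Finset.card_product, hR'c, hSc] at hle
  rw [Finset.card_product, hSc, hTc] at htot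
  obtain ⟨d, rfl⟩ : ∃ d, n = d + 2 := ⟨m, hn.symm⟩
  have hmd : m = d := by omega
  subst hmd
  have e : m + 2 - 1 = m + 1 := by omega
  rw [e] at hle htot ⊢
  nlinarith

open Classical in
/-- **The degree theorem**: exactly one uncovered pair at `i`. -/
theorem one_unc (h : IsArray m n k C) (hk : k = m + 4) (hn : m + 2 = n) (heven : n % 2 = 0)
    {v : Fin k → Fin n} {x₀ : Fin m → Fin n} {a b i : Fin k} (hab : a ≠ b) (hia : i ≠ a)
    (hib : i ≠ b) (hd : ∀ c, c ≠ a → c ≠ b → c ≠ i → v c = C c x₀) (ha : v a ≠ C a x₀)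
    (hb : v b ≠ C b x₀) :
    ((({a, b, i} : Finset (Fin k))ᶜ).filter (fun j => ¬ Cov C v i j)).card = 1 := by
  set R := (({a, b, i} : Finset (Fin k))ᶜ) with hR
  have hmemR : ∀ j, j ∈ R ↔ j ≠ a ∧ j ≠ b ∧ j ≠ i := by
    intro j; simp [hR]
  have h9 : ({a, b, i} : Finset (Fin k)).card = 3 := by
    rw [Finset.card_insert_of_notMem (by simp [hab, hia.symm]), Finset.card_pair hib.symm]
  have hRc : R.card = n - 1 := by
    rw [hR, Finset.card_compl, Fintype.card_fin, h9]; omega
  set S := Finset.univ.erase (C a x₀) with hS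
  set T := Finset.univ.erase (C b x₀) with hT
  have hSc : S.card = n - 1 := by
    rw [hS, Finset.card_erase_of_mem (Finset.mem_univ _), Finset.card_univ, Fintype.card_fin]
  have hTc : T.card = n - 1 := by
    rw [hT, Finset.card_erase_of_mem (Finset.mem_univ _), Finset.card_univ, Fintype.card_fin]
  let w : Fin n × Fin n → Fin k → Fin n := fun p =>
    Function.update (Function.update v a p.1) b p.2
  have hodd : ∀ p ∈ S ×ˢ T, (R.filter (fun j => ¬ Cov C (w p) i j)).card % 2 = 1 := by
    rintro ⟨s, t⟩ hp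
    obtain ⟨hs, ht⟩ := Finset.mem_product.1 hp
    refine odd_unc h hk (by omega) hab hia hib (x₀ := x₀) ?_ ?_ ?_
    · intro c hca hcb hci
      simp only [w]
      rw [Function.update_of_ne hcb, Function.update_of_ne hca]
      exact hd c hca hcb hci
    · simp only [w]
      rw [Function.update_of_ne hab, Function.update_self]
      exact Finset.ne_of_mem_erase hs
    · simp only [w]
      rw [Function.update_self]
      exact Finset.ne_of_mem_erase ht
  have hswap : ∑ p ∈ S ×ˢ T, (R.filter (fun j => ¬ Cov C (w p) i j)).card =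
      ∑ j ∈ R, ((S ×ˢ T).filter (fun p => ¬ Cov C (w p) i j)).card := by
    simp only [Finset.card_filter]
    exact Finset.sum_comm
  have hle : ∑ j ∈ R, ((S ×ˢ T).filter (fun p => ¬ Cov C (w p) i j)).card ≤ (n - 1) * (n - 1) := by
    have := Finset.sum_le_card_nsmul R
      (fun j => ((S ×ˢ T).filter (fun p => ¬ Cov C (w p) i j)).card) (n - 1) (by
        intro j hj
        obtain ⟨hja, hjb, hji⟩ := (hmemR j).1 hj
        exact unc_le h hk hn hab hia hib hd hja hjb hji)
    rwa [smul_eq_mul, hRc] at this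
  have hp0 : (v a, v b) ∈ S ×ˢ T := by
    rw [Finset.mem_product]
    exact ⟨Finset.mem_erase.2 ⟨ha, Finset.mem_univ _⟩, Finset.mem_erase.2 ⟨hb, Finset.mem_univ _⟩⟩
  have hw0 : w (v a, v b) = v := by
    simp only [w]
    rw [Function.update_eq_self, Function.update_eq_self]
  have ho := hodd _ hp0
  rw [hw0] at ho
  by_contra hcon
  have h2 : 2 ≤ (R.filter (fun j => ¬ Cov C v i j)).card := by omega
  have hlt : ∑ p ∈ S ×ˢ T, 1 < ∑ p ∈ S ×ˢ T, (R.filter (fun j => ¬ Cov C (w p) i j)).card := by
    apply Finset.sum_lt_sum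
    · intro p hp
      have := hodd p hp
      omega
    · exact ⟨_, hp0, by rw [hw0]; omega⟩
  rw [hswap, Finset.sum_const, smul_eq_mul, mul_one, Finset.card_product, hSc, hTc] at hlt
  omega

open Classical in
/-- a packing by triples with exactly one uncovered pair at every point -/
theorem six_dvd {α : Type*} (V : Finset α) (cov : α → α → Prop)
    (B : α → α → Finset α)
    (h1 : ∀ i ∈ V, ∀ j ∈ V, i ≠ j → cov i j → B i j ⊆ V ∧ (B i j).card = 3 ∧ i ∈ B i j ∧ j ∈ B i j)
    (h2 : ∀ i ∈ V, ∀ j ∈ V, i ≠ j → cov i j → ∀ i' ∈ B i j, ∀ j' ∈ B i j, i' ≠ j' →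
      cov i' j' ∧ B i' j' = B i j)
    (h3 : ∀ i ∈ V, (V.filter (fun j => i ≠ j ∧ ¬ cov i j)).card = 1) :
    6 ∣ V.card * (V.card - 2) := by
  set P := (V ×ˢ V).filter (fun p => p.1 ≠ p.2 ∧ cov p.1 p.2) with hP
  have hPc : P.card = V.card * (V.card - 2) := by
    have e1 : P.card = ∑ i ∈ V, (V.filter (fun j => i ≠ j ∧ cov i j)).card := by
      rw [hP, Finset.card_filter, Finset.sum_product]
      simp only [Finset.card_filter]
    rw [e1, Finset.sum_congr rfl (g := fun _ => V.card - 2), Finset.sum_const, smul_eq_mul]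
    intro i hi
    have e2 := Finset.card_filter_add_card_filter_not (s := V.erase i) (fun j => cov i j)
    have e3 : (V.erase i).filter (fun j => cov i j) = V.filter (fun j => i ≠ j ∧ cov i j) := by
      ext j
      simp only [Finset.mem_filter, Finset.mem_erase]
      constructor
      · rintro ⟨⟨h1, h2⟩, h3⟩; exact ⟨h2, h1.symm, h3⟩
      · rintro ⟨h1, h2, h3⟩; exact ⟨⟨h2.symm, h1⟩, h3⟩
    have e4 : (V.erase i).filter (fun j => ¬ cov i j) = V.filter (fun j => i ≠ j ∧ ¬ cov i j) := by
      ext j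
      simp only [Finset.mem_filter, Finset.mem_erase]
      constructor
      · rintro ⟨⟨h1, h2⟩, h3⟩; exact ⟨h2, h1.symm, h3⟩
      · rintro ⟨h1, h2, h3⟩; exact ⟨⟨h2.symm, h1⟩, h3⟩
    rw [e3, e4, h3 i hi, Finset.card_erase_of_mem hi] at e2
    omega
  have hfib : ∀ X ∈ P.image (fun p => B p.1 p.2),
      (P.filter (fun p => B p.1 p.2 = X)).card = 6 := by
    intro X hX
    obtain ⟨⟨i, j⟩, hp, rfl⟩ := Finset.mem_image.1 hX
    rw [hP, Finset.mem_filter, Finset.mem_product] at hp
    obtain ⟨⟨hi, hj⟩, hij, hc⟩ := hp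
    simp only at hi hj hij hc ⊢
    obtain ⟨b1, b2, b3, b4⟩ := h1 i hi j hj hij hc
    have heq : P.filter (fun p => B p.1 p.2 = B i j) = (B i j).offDiag := by
      ext ⟨i', j'⟩
      rw [Finset.mem_filter, Finset.mem_offDiag, hP, Finset.mem_filter, Finset.mem_product]
      simp only
      constructor
      · rintro ⟨⟨⟨hi', hj'⟩, hij', hc'⟩, he⟩
        obtain ⟨-, -, c3, c4⟩ := h1 i' hi' j' hj' hij' hc'
        rw [he] at c3 c4
        exact ⟨c3, c4, hij'⟩
      · rintro ⟨hi', hj', hij'⟩
        obtain ⟨c1, c2⟩ := h2 i hi j hj hij hc i' hi' j' hj' hij'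
        exact ⟨⟨⟨b1 hi', b1 hj'⟩, hij', c1⟩, c2⟩
    rw [heq, Finset.offDiag_card, b2]
  have hsum := Finset.card_eq_sum_card_image (fun p => B p.1 p.2) P
  rw [Finset.sum_congr rfl hfib, Finset.sum_const, smul_eq_mul, hPc] at hsum
  exact ⟨_, by rw [hsum, mul_comm]⟩

end Pool.Agent.H625R3.PC
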