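import Pool.Agent.H625R3.PC3
import Pool.Agent.H625R3.PC4

set_option autoImplicit false

/-!
# Dimension `n - 2`, even order: at most `n + 1` cubes if `3` does not divide `n`
-/

namespace Pool.Agent.H625R3.PC

open Pool.Agent.H430R2.PermCubes

variable {m n k : ℕ} {C : Fin k → (Fin m → Fin n) → Fin n}

theorem three_of_cov {v : Fin k → Fin n} {i j : Fin k} {x : Fin m → Fin n} (hij : i ≠ j)
    (hx : (dis C x v \ {i, j}).card ≤ 1) (h3 : 3 ≤ (dis C x v).card) :
    (dis C x v).card = 3 ∧ i ∈ dis C x v ∧ j ∈ dis C x v := by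
  classical
  have h1 := Finset.card_sdiff_add_card_inter (dis C x v) {i, j}
  have h2 : (dis C x v ∩ {i, j}).card ≤ 2 := by
    exact (Finset.card_le_card Finset.inter_subset_right).trans Finset.card_le_two
  have h4 : dis C x v ∩ {i, j} = {i, j} := by
    apply Finset.eq_of_subset_of_card_le Finset.inter_subset_right
    rw [Finset.card_pair hij]; omega
  have h5 : ({i, j} : Finset (Fin k)) ⊆ dis C x v := by
    rw [← h4]; exact Finset.inter_subset_left
  exact ⟨by omega, h5 (by simp), h5 (by simp)⟩

open Classical in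
theorem six_of (h : IsArray m n k C) (hk : k = m + 4) (v : Fin k → Fin n) (V : Finset (Fin k))
    (H : ∀ i ∈ V, ∀ j ∈ V, i ≠ j → ∀ x, (dis C x v \ {i, j}).card ≤ 1 →
      3 ≤ (dis C x v).card ∧ dis C x v ⊆ V)
    (h3 : ∀ i ∈ V, (V.filter (fun j => i ≠ j ∧ ¬ Cov C v i j)).card = 1) :
    6 ∣ V.card * (V.card - 2) := by
  let B : Fin k → Fin k → Finset (Fin k) := fun i j =>
    if hc : Cov C v i j then dis C (Classical.choose hc) v else ∅
  have hB : ∀ i j, Cov C v i j → ∃ x, (dis C x v \ {i, j}).card ≤ 1 ∧ B i j = dis C x v := by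
    intro i j hc
    refine ⟨Classical.choose hc, Classical.choose_spec hc, ?_⟩
    simp only [B, dif_pos hc]
  apply six_dvd V (Cov C v) B
  · intro i hi j hj hij hc
    obtain ⟨x, hx, hxB⟩ := hB i j hc
    obtain ⟨g1, g2⟩ := H i hi j hj hij x hx
    obtain ⟨g3, g4, g5⟩ := three_of_cov hij hx g1
    rw [hxB]
    exact ⟨g2, g3, g4, g5⟩
  · intro i hi j hj hij hc i' hi' j' hj' hij'
    obtain ⟨x, hx, hxB⟩ := hB i j hc
    obtain ⟨g1, g2⟩ := H i hi j hj hij x hx
    obtain ⟨g3, g4, g5⟩ := three_of_cov hij hx g1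
    rw [hxB] at hi' hj' ⊢
    have hx' : (dis C x v \ {i', j'}).card ≤ 1 := by
      have hs : ({i', j'} : Finset (Fin k)) ⊆ dis C x v := by
        intro c hc
        rcases Finset.mem_insert.1 hc with rfl | hc
        · exact hi'
        · rw [Finset.mem_singleton.1 hc]; exact hj'
      rw [Finset.card_sdiff_of_subset hs, Finset.card_pair hij', g3]
    have hc' : Cov C v i' j' := ⟨x, hx'⟩
    obtain ⟨y, hy, hyB⟩ := hB i' j' hc'
    refine ⟨hc', ?_⟩
    rw [hyB, uniq2 h hk hy hx']
  · intro i hi
    have h3' := h3 i hi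
    convert h3'

/-- a word at distance two from a point -/
theorem word_two (h0 : 2 ≤ n) (hk : 2 ≤ k) (C : Fin k → (Fin m → Fin n) → Fin n)
    (x₀ : Fin m → Fin n) (a b : Fin k) (hab : a ≠ b) :
    ∃ v : Fin k → Fin n, v a ≠ C a x₀ ∧ v b ≠ C b x₀ ∧ ∀ j, j ≠ a → j ≠ b → v j = C j x₀ := by
  classical
  have : Nontrivial (Fin n) := Fin.nontrivial_iff_two_le.2 h0
  obtain ⟨s, hs⟩ := exists_ne (C a x₀)
  obtain ⟨t, ht⟩ := exists_ne (C b x₀)
  refine ⟨fun j => if j = a then s else if j = b then t else C j x₀, ?_, ?_, ?_⟩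
  · simpa using hs
  · simpa [hab.symm] using ht
  · intro j h1 h2; simp [h1, h2]

theorem dis_two {v : Fin k → Fin n} {x₀ : Fin m → Fin n} {a b : Fin k}
    (ha : v a ≠ C a x₀) (hb : v b ≠ C b x₀) (hd : ∀ j, j ≠ a → j ≠ b → v j = C j x₀) :
    dis C x₀ v = {a, b} := by
  ext j
  rw [mem_dis, Finset.mem_insert, Finset.mem_singleton]
  constructor
  · intro h1
    by_contra h2
    push Not at h2
    exact h1 (hd j h2.1 h2.2).symm
  · rintro (rfl | rfl)
    · exact ha.symm
    · exact hb.symm

/-- **First case**: `n` even, `n ≡ 1 mod 3`. -/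
theorem no_case_a (h : IsArray m n k C) (hk : k = m + 4) (hn : m + 2 = n) (heven : n % 2 = 0)
    (h4 : 4 ≤ n) (h3 : n % 3 = 1) : False := by
  classical
  let x₀ : Fin m → Fin n := fun _ => ⟨0, by omega⟩
  let a : Fin k := ⟨0, by omega⟩
  let b : Fin k := ⟨1, by omega⟩
  have hab : a ≠ b := by
    intro h'
    have := congrArg Fin.val h'
    simp [a, b] at this
  obtain ⟨v, ha, hb, hd⟩ := word_two (by omega) (by omega) C x₀ a b hab
  have hdis := dis_two ha hb hd
  have hVc : (({a, b} : Finset (Fin k))ᶜ).card = n := by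
    rw [Finset.card_compl, Fintype.card_fin, Finset.card_pair hab]; omega
  have hmain := six_of h hk v (({a, b} : Finset (Fin k))ᶜ) ?_ ?_
  · rw [hVc] at hmain
    have h6 : 3 ∣ n * (n - 2) := (by norm_num : (3:ℕ) ∣ 6).trans hmain
    rcases (Nat.Prime.dvd_mul Nat.prime_three).1 h6 with h' | h' <;> omega
  · intro i hi j hj hij x hx
    simp only [Finset.mem_compl, Finset.mem_insert, Finset.mem_singleton, not_or] at hi hj
    have hxx : x ≠ x₀ := by
      rintro rfl
      rw [hdis] at hx
      have : ({a, b} : Finset (Fin k)) \ {i, j} = {a, b} := by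
        apply Finset.sdiff_eq_self_of_disjoint
        rw [Finset.disjoint_left]
        intro c hc hc'
        simp only [Finset.mem_insert, Finset.mem_singleton] at hc hc'
        rcases hc with rfl | rfl <;> rcases hc' with h' | h' <;> simp_all
      rw [this, Finset.card_pair hab] at hx
      omega
    have h5 := union_ge h hk v hxx
    have h6 := Finset.card_union_add_card_inter (dis C x v) (dis C x₀ v)
    have h7 : (dis C x₀ v).card = 2 := by rw [hdis, Finset.card_pair hab]
    have h8 := Finset.card_sdiff_add_card_inter (dis C x v) {i, j}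
    have h9 : (dis C x v ∩ {i, j}).card ≤ 2 := by
      exact (Finset.card_le_card Finset.inter_subset_right).trans Finset.card_le_two
    refine ⟨by omega, ?_⟩
    have h10 : dis C x v ∩ dis C x₀ v = ∅ := by
      rw [← Finset.card_eq_zero]; omega
    intro c hc
    rw [Finset.mem_compl, ← hdis]
    intro hc'
    have : c ∈ dis C x v ∩ dis C x₀ v := Finset.mem_inter.2 ⟨hc, hc'⟩
    rw [h10] at this
    simp at this
  · intro i hi
    simp only [Finset.mem_compl, Finset.mem_insert, Finset.mem_singleton, not_or] at hi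
    have h5 := one_unc h hk hn heven hab hi.1 hi.2 (fun c h1 h2 _ => hd c h1 h2) ha hb
    rw [← h5]
    congr 1
    ext j
    simp only [Finset.mem_filter, Finset.mem_compl, Finset.mem_insert, Finset.mem_singleton,
      not_or]
    constructor
    · rintro ⟨⟨g1, g2⟩, g3, g4⟩; exact ⟨⟨g1, g2, fun h' => g3 h'.symm⟩, g4⟩
    · rintro ⟨⟨g1, g2, g3⟩, g4⟩; exact ⟨⟨g1, g2⟩, fun h' => g3 h'.symm, g4⟩

open Classical in
/-- on a line at most one word leaves a given pair uncovered -/
theorem line_unc (h : IsArray m n k C) (hk : k = m + 4) (hn : m + 2 = n) {v : Fin k → Fin n}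
    {i u j : Fin k} (hiu : i ≠ u) (hij : i ≠ j) (huj : u ≠ j) :
    ((Finset.univ : Finset (Fin n)).filter
      (fun σ => ¬ Cov C (Function.update v i σ) u j)).card ≤ 1 := by
  by_contra hcon
  push Not at hcon
  obtain ⟨σ₀, hσ₀⟩ : ((Finset.univ : Finset (Fin n)).filter
      (fun σ => ¬ Cov C (Function.update v i σ) u j)).Nonempty := by
    rw [← Finset.card_pos]; omega
  have hσ := (Finset.mem_filter.1 hσ₀).2
  set K := (({i, u, j} : Finset (Fin k))ᶜ) with hK
  have hmemK : ∀ l, l ∈ K ↔ l ≠ i ∧ l ≠ u ∧ l ≠ j := by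
    intro l; simp [hK]
  have h9 : ({i, u, j} : Finset (Fin k)).card = 3 := by
    rw [Finset.card_insert_of_notMem (by simp [hiu, hij]), Finset.card_pair huj]
  have hKc : K.card = m + 1 := by
    rw [hK, Finset.card_compl, Fintype.card_fin, h9]; omega
  have hex : ∀ l ∈ K, ∃ x, ∀ c ∈ K.erase l, C c x = v c := by
    intro l hl
    exact h.exists_point (K.erase l) (by rw [Finset.card_erase_of_mem hl]; omega) v
  have : Nonempty (Fin m → Fin n) := ⟨fun _ => ⟨0, by omega⟩⟩
  choose! p hp using hex
  have h1 : ∀ l ∈ K, C l (p l) ≠ v l := by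
    intro l hl he
    apply hσ
    refine ⟨p l, ?_⟩
    have hsub : dis C (p l) (Function.update v i σ₀) \ {u, j} ⊆ {i} := by
      intro c hc
      rw [Finset.mem_sdiff, mem_dis] at hc
      simp only [Finset.mem_insert, Finset.mem_singleton, not_or] at hc
      rw [Finset.mem_singleton]
      by_contra hci
      apply hc.1
      rw [Function.update_of_ne hci]
      by_cases hcl : c = l
      · rw [hcl]; exact he
      · exact hp l hl c (Finset.mem_erase.2 ⟨hcl, (hmemK c).2 ⟨hci, hc.2.1, hc.2.2⟩⟩)
    exact (Finset.card_le_card hsub).trans (by simp)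
  have hinj : Set.InjOn (fun l => C i (p l)) (K : Set (Fin k)) := by
    intro l hl l' hl' hll
    have hl := Finset.mem_coe.1 hl
    have hl' := Finset.mem_coe.1 hl'
    simp only at hll
    by_contra hne
    have hpp : p l = p l' := by
      refine h.eq_of_agree (insert i ((K.erase l).erase l')) ?_ ?_
      · have hiK : i ∉ (K.erase l).erase l' := by
          intro h'
          exact ((hmemK i).1 (Finset.mem_of_mem_erase (Finset.mem_of_mem_erase h'))).1 rfl
        rw [Finset.card_insert_of_notMem hiK,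
          Finset.card_erase_of_mem (Finset.mem_erase.2 ⟨fun h' => hne h'.symm, hl'⟩),
          Finset.card_erase_of_mem hl]
        have : 1 < K.card := Finset.one_lt_card.2 ⟨l, hl, l', hl', hne⟩
        omega
      · intro c hc
        rcases Finset.mem_insert.1 hc with rfl | hc
        · exact hll
        · have hc1 := Finset.mem_of_mem_erase hc
          rw [hp l hl c hc1, hp l' hl' c
            (Finset.mem_erase.2 ⟨Finset.ne_of_mem_erase hc, Finset.mem_of_mem_erase hc1⟩)]
    apply h1 l hl
    rw [hpp]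
    exact hp l' hl' l (Finset.mem_erase.2 ⟨hne, hl⟩)
  have hcov : ∀ l ∈ K, C i (p l) ∈ (Finset.univ : Finset (Fin n)).filter
      (fun σ => Cov C (Function.update v i σ) u j) := by
    intro l hl
    rw [Finset.mem_filter]
    refine ⟨Finset.mem_univ _, p l, ?_⟩
    have hsub : dis C (p l) (Function.update v i (C i (p l))) \ {u, j} ⊆ {l} := by
      intro c hc
      rw [Finset.mem_sdiff, mem_dis] at hc
      simp only [Finset.mem_insert, Finset.mem_singleton, not_or] at hc
      rw [Finset.mem_singleton]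
      by_contra hcl
      apply hc.1
      by_cases hci : c = i
      · subst hci; rw [Function.update_self]
      · rw [Function.update_of_ne hci]
        exact hp l hl c (Finset.mem_erase.2 ⟨hcl, (hmemK c).2 ⟨hci, hc.2.1, hc.2.2⟩⟩)
    exact (Finset.card_le_card hsub).trans (by simp)
  have hle := Finset.card_le_card_of_injOn (s := K) (fun l => C i (p l)) (fun l hl => hcov l hl) hinj
  have htot := Finset.card_filter_add_card_filter_not (s := (Finset.univ : Finset (Fin n)))
    (fun σ => Cov C (Function.update v i σ) u j)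
  rw [Finset.card_univ, Fintype.card_fin] at htot
  omega

open Classical in
theorem deg_univ (h : IsArray m n k C) (hk : k = m + 4) (hn : m + 2 = n) (heven : n % 2 = 0)
    {v : Fin k → Fin n} (hfar : ∀ x, 3 ≤ (dis C x v).card) {w j₀ : Fin k} (hw : w ≠ j₀)
    (hc : Cov C v w j₀) :
    ((Finset.univ : Finset (Fin k)).filter (fun j => w ≠ j ∧ ¬ Cov C v w j)).card = 1 := by
  obtain ⟨x, hx⟩ := hc
  obtain ⟨g1, g2, g3⟩ := three_of_cov hw hx (hfar x)
  obtain ⟨l, hl⟩ := Finset.card_eq_one.1 (show (((dis C x v).erase w).erase j₀).card = 1 by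
    rw [Finset.card_erase_of_mem (Finset.mem_erase.2 ⟨hw.symm, g3⟩), Finset.card_erase_of_mem g2,
      g1])
  have hlm : l ∈ ((dis C x v).erase w).erase j₀ := by rw [hl]; simp
  have hlj : l ≠ j₀ := Finset.ne_of_mem_erase hlm
  have hlm' := Finset.mem_of_mem_erase hlm
  have hlw : l ≠ w := Finset.ne_of_mem_erase hlm'
  have hld := Finset.mem_of_mem_erase hlm'
  have hd : ∀ c, c ≠ j₀ → c ≠ l → c ≠ w → v c = C c x := by
    intro c hcj hcl hcw
    by_contra hne
    have : c ∈ ((dis C x v).erase w).erase j₀ :=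
      Finset.mem_erase.2 ⟨hcj, Finset.mem_erase.2 ⟨hcw, mem_dis.2 fun h' => hne h'.symm⟩⟩
    rw [hl, Finset.mem_singleton] at this
    exact hcl this
  have h5 := one_unc h hk hn heven hlj.symm hw hlw.symm hd (fun h' => mem_dis.1 g3 h'.symm)
    (fun h' => mem_dis.1 hld h'.symm)
  rw [← h5]
  congr 1
  have hcl : Cov C v w l := by
    refine ⟨x, ?_⟩
    have hs : ({w, l} : Finset (Fin k)) ⊆ dis C x v := by
      intro c hc
      rcases Finset.mem_insert.1 hc with rfl | hc
      · exact g2
      · rw [Finset.mem_singleton.1 hc]; exact hld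
    rw [Finset.card_sdiff_of_subset hs, Finset.card_pair hlw.symm, g1]
  ext j
  simp only [Finset.mem_filter, Finset.mem_univ, true_and, Finset.mem_compl, Finset.mem_insert,
    Finset.mem_singleton, not_or]
  constructor
  · rintro ⟨g3, g4⟩
    refine ⟨⟨?_, ?_, fun h' => g3 h'.symm⟩, g4⟩
    · rintro rfl; exact g4 ⟨x, hx⟩
    · rintro rfl; exact g4 hcl
  · rintro ⟨⟨-, -, g3⟩, g4⟩
    exact ⟨fun h' => g3 h'.symm, g4⟩

theorem cov_comm {v : Fin k → Fin n} {i j : Fin k} (h : Cov C v i j) : Cov C v j i := by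
  obtain ⟨x, hx⟩ := h
  exact ⟨x, by rwa [Finset.pair_comm]⟩

open Classical in
/-- few values lead to a word close to a point -/
theorem few_bad (h : IsArray m n k C) (hk : k = m + 4) (hn : m + 2 = n) (heven : n % 2 = 0)
    {v : Fin k → Fin n} {x₀ : Fin m → Fin n} {a b i : Fin k} (hab : a ≠ b) (hia : i ≠ a)
    (hib : i ≠ b) (hd : ∀ c, c ≠ a → c ≠ b → v c = C c x₀) (ha : v a ≠ C a x₀)
    (hb : v b ≠ C b x₀) :
    2 * ((Finset.univ : Finset (Fin n)).filter
      (fun σ => ¬ ∀ x, 3 ≤ (dis C x (Function.update v i σ)).card)).card ≤ n := by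
  have hdis := dis_two ha hb hd
  set R := (({a, b, i} : Finset (Fin k))ᶜ) with hR
  have h9 : ({a, b, i} : Finset (Fin k)).card = 3 := by
    rw [Finset.card_insert_of_notMem (by simp [hab, hia.symm]), Finset.card_pair hib.symm]
  have hRc : R.card = n - 1 := by
    rw [hR, Finset.card_compl, Fintype.card_fin, h9]; omega
  have hone := one_unc h hk hn heven hab hia hib (fun c h1 h2 _ => hd c h1 h2) ha hb
  have htot := Finset.card_filter_add_card_filter_not (s := R) (fun j => Cov C v i j)
  rw [hRc] at htot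
  -- the bad values different from `v i`
  set Z := ((Finset.univ : Finset (Fin n)).filter
      (fun σ => ¬ ∀ x, 3 ≤ (dis C x (Function.update v i σ)).card)) with hZ
  have hbad : ∀ σ ∈ Z.erase (v i), ∃ x, C i x = σ ∧ (dis C x v \ {i}).card = 2 ∧
      dis C x v \ {i} ⊆ R.filter (fun j => Cov C v i j) := by
    intro σ hσ
    have hσi := Finset.ne_of_mem_erase hσ
    have hσZ := (Finset.mem_filter.1 (Finset.mem_of_mem_erase hσ)).2
    push Not at hσZ
    obtain ⟨x, hx⟩ := hσZ
    -- comparison of the two sets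
    have hc1 : ∀ c, c ≠ i → (c ∈ dis C x (Function.update v i σ) ↔ c ∈ dis C x v) := by
      intro c hci
      rw [mem_dis, mem_dis, Function.update_of_ne hci]
    have hxx : x ≠ x₀ := by
      rintro rfl
      have hs : ({a, b, i} : Finset (Fin k)) ⊆ dis C x (Function.update v i σ) := by
        intro c hc
        simp only [Finset.mem_insert, Finset.mem_singleton] at hc
        rcases hc with rfl | rfl | rfl
        · rw [hc1 _ hia.symm, mem_dis]; exact ha.symm
        · rw [hc1 _ hib.symm, mem_dis]; exact hb.symm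
        · rw [mem_dis, Function.update_self, ← hd c hia hib]
          exact hσi.symm
      have := Finset.card_le_card hs
      omega
    have h5 := union_ge h hk v hxx
    have h6 := Finset.card_union_add_card_inter (dis C x v) (dis C x₀ v)
    have h7 : (dis C x₀ v).card = 2 := by rw [hdis, Finset.card_pair hab]
    have h8 : dis C x v \ {i} ⊆ dis C x (Function.update v i σ) := by
      intro c hc
      rw [Finset.mem_sdiff, Finset.mem_singleton] at hc
      exact (hc1 c hc.2).2 hc.1
    have h8c := Finset.card_le_card h8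
    have h10 := Finset.card_sdiff_add_card_inter (dis C x v) {i}
    have h11 : (dis C x v ∩ {i}).card ≤ 1 := by
      exact (Finset.card_le_card Finset.inter_subset_right).trans (by simp)
    have h12 : dis C x v ∩ dis C x₀ v = ∅ := by
      rw [← Finset.card_eq_zero]; omega
    have h13 : (dis C x v \ {i}).card = 2 := by omega
    have h14 : dis C x v \ {i} = dis C x (Function.update v i σ) :=
      Finset.eq_of_subset_of_card_le h8 (by omega)
    have h15 : C i x = σ := by
      by_contra hne
      have : i ∈ dis C x (Function.update v i σ) := by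
        rw [mem_dis, Function.update_self]; exact hne
      rw [← h14] at this
      simp at this
    refine ⟨x, h15, h13, ?_⟩
    intro c hc
    rw [Finset.mem_filter]
    rw [Finset.mem_sdiff, Finset.mem_singleton] at hc
    refine ⟨?_, x, ?_⟩
    · rw [hR, Finset.mem_compl]
      simp only [Finset.mem_insert, Finset.mem_singleton, not_or]
      have : c ∉ dis C x₀ v := by
        intro h'
        have : c ∈ dis C x v ∩ dis C x₀ v := Finset.mem_inter.2 ⟨hc.1, h'⟩
        rw [h12] at this
        simp at this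
      rw [hdis] at this
      simp only [Finset.mem_insert, Finset.mem_singleton, not_or] at this
      exact ⟨this.1, this.2, hc.2⟩
    · have e : dis C x v \ {i, c} = (dis C x v \ {i}).erase c := by
        ext d
        simp only [Finset.mem_sdiff, Finset.mem_insert, Finset.mem_singleton, Finset.mem_erase]
        tauto
      rw [e, Finset.card_erase_of_mem (by rw [Finset.mem_sdiff, Finset.mem_singleton]; exact hc),
        h13]
  have : Nonempty (Fin m → Fin n) := ⟨x₀⟩
  choose! f hf1 hf2 hf3 using hbad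
  have hdj : ∀ σ ∈ Z.erase (v i), ∀ τ ∈ Z.erase (v i), σ ≠ τ →
      Disjoint (dis C (f σ) v \ {i}) (dis C (f τ) v \ {i}) := by
    intro σ hσ τ hτ hne
    rw [Finset.disjoint_left]
    intro c hc hc'
    apply hne
    rw [← hf1 σ hσ, ← hf1 τ hτ]
    have hh : ∀ σ ∈ Z.erase (v i), c ∈ dis C (f σ) v \ {i} →
        (dis C (f σ) v \ {i, c}).card ≤ 1 := by
      intro σ hσ hc
      have e : dis C (f σ) v \ {i, c} = (dis C (f σ) v \ {i}).erase c := by
        ext d
        simp only [Finset.mem_sdiff, Finset.mem_insert, Finset.mem_singleton, Finset.mem_erase]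
        tauto
      rw [e, Finset.card_erase_of_mem hc, hf2 σ hσ]
    rw [uniq2 h hk (hh σ hσ hc) (hh τ hτ hc')]
  have hU := Finset.card_biUnion (s := Z.erase (v i)) (t := fun σ => dis C (f σ) v \ {i}) hdj
  rw [Finset.sum_congr rfl (fun σ hσ => hf2 σ hσ), Finset.sum_const, smul_eq_mul] at hU
  have hUs : (Z.erase (v i)).biUnion (fun σ => dis C (f σ) v \ {i}) ⊆
      R.filter (fun j => Cov C v i j) := by
    intro c hc
    obtain ⟨σ, hσ, hc⟩ := Finset.mem_biUnion.1 hc
    exact hf3 σ hσ hc
  have hUc := Finset.card_le_card hUs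
  have hZc : Z.card ≤ (Z.erase (v i)).card + 1 := by
    have := Finset.pred_card_le_card_erase (s := Z) (a := v i)
    omega
  omega

/-- **Second case**: `n` even, `n ≡ 2 mod 3`. -/
theorem no_case_b (h : IsArray m n k C) (hk : k = m + 4) (hn : m + 2 = n) (heven : n % 2 = 0)
    (h4 : 4 ≤ n) (h3 : n % 3 = 2) : False := by
  classical
  let x₀ : Fin m → Fin n := fun _ => ⟨0, by omega⟩
  let a : Fin k := ⟨0, by omega⟩
  let b : Fin k := ⟨1, by omega⟩
  let i : Fin k := ⟨2, by omega⟩
  have hab : a ≠ b := by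
    intro h'
    have := congrArg Fin.val h'
    simp [a, b] at this
  have hia : i ≠ a := by
    intro h'
    have := congrArg Fin.val h'
    simp [a, i] at this
  have hib : i ≠ b := by
    intro h'
    have := congrArg Fin.val h'
    simp [b, i] at this
  obtain ⟨v, ha, hb, hd⟩ := word_two (by omega) (by omega) C x₀ a b hab
  have hdis := dis_two ha hb hd
  have hone := one_unc h hk hn heven hab hia hib (fun c h1 h2 _ => hd c h1 h2) ha hb
  obtain ⟨u, hu⟩ := Finset.card_eq_one.1 hone
  have huu : u ∈ (({a, b, i} : Finset (Fin k))ᶜ).filter (fun j => ¬ Cov C v i j) := by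
    rw [hu]; simp
  simp only [Finset.mem_filter, Finset.mem_compl, Finset.mem_insert, Finset.mem_singleton,
    not_or] at huu
  obtain ⟨⟨hua, hub, hui⟩, -⟩ := huu
  have hcovi : ∀ w, w ≠ a → w ≠ b → w ≠ i → w ≠ u → Cov C v i w := by
    intro w h1 h2 h3 h4
    by_contra hc
    have : w ∈ (({a, b, i} : Finset (Fin k))ᶜ).filter (fun j => ¬ Cov C v i j) := by
      simp only [Finset.mem_filter, Finset.mem_compl, Finset.mem_insert, Finset.mem_singleton,
        not_or]
      exact ⟨⟨h1, h2, h3⟩, hc⟩
    rw [hu, Finset.mem_singleton] at this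
    exact h4 this
  -- a further cube
  obtain ⟨j, hj⟩ : (({a, b, i, u} : Finset (Fin k))ᶜ).Nonempty := by
    rw [← Finset.card_pos, Finset.card_compl, Fintype.card_fin]
    have : ({a, b, i, u} : Finset (Fin k)).card ≤ 4 := Finset.card_le_four
    omega
  simp only [Finset.mem_compl, Finset.mem_insert, Finset.mem_singleton, not_or] at hj
  obtain ⟨hja, hjb, hji, hju⟩ := hj
  have hbad := few_bad h hk hn heven hab hia hib hd ha hb
  have hline := line_unc h hk hn (v := v) (Ne.symm hui) (Ne.symm hji) (Ne.symm hju)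
  -- a good value
  obtain ⟨σ, hσ1, hσ2⟩ : ∃ σ : Fin n, (∀ x, 3 ≤ (dis C x (Function.update v i σ)).card) ∧
      Cov C (Function.update v i σ) u j := by
    by_contra hcon
    push Not at hcon
    have hsub : (Finset.univ : Finset (Fin n)) ⊆
        (Finset.univ.filter (fun σ => ¬ ∀ x, 3 ≤ (dis C x (Function.update v i σ)).card)) ∪
        (Finset.univ.filter (fun σ => ¬ Cov C (Function.update v i σ) u j)) := by
      intro σ _
      rw [Finset.mem_union, Finset.mem_filter, Finset.mem_filter]
      by_cases hg : ∀ x, 3 ≤ (dis C x (Function.update v i σ)).card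
      · exact Or.inr ⟨Finset.mem_univ _, hcon σ hg⟩
      · exact Or.inl ⟨Finset.mem_univ _, hg⟩
    have h1 := (Finset.card_le_card hsub).trans (Finset.card_union_le _ _)
    rw [Finset.card_univ, Fintype.card_fin] at h1
    omega
  set v' := Function.update v i σ with hv'
  have hsame : ∀ c, c ≠ i → v' c = v c := by
    intro c hc; rw [hv', Function.update_of_ne hc]
  have hdx : dis C x₀ v' ⊆ {a, b, i} := by
    intro c hc
    simp only [Finset.mem_insert, Finset.mem_singleton]
    by_contra hcon
    push Not at hcon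
    apply mem_dis.1 hc
    rw [hsame c hcon.2.2, hd c hcon.1 hcon.2.1]
  have hcovx : ∀ c d e : Fin k, ({a, b, i} : Finset (Fin k)) ⊆ {c, d, e} → Cov C v' c d := by
    intro c d e hs
    refine ⟨x₀, ?_⟩
    have : dis C x₀ v' \ {c, d} ⊆ {e} := by
      intro f hf
      rw [Finset.mem_sdiff] at hf
      have h1 := hs (hdx hf.1)
      simp only [Finset.mem_insert, Finset.mem_singleton] at h1 hf ⊢
      tauto
    exact (Finset.card_le_card this).trans (by simp)
  have hcovall : ∀ w : Fin k, ∃ j₀, w ≠ j₀ ∧ Cov C v' w j₀ := by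
    intro w
    by_cases hwa : w = a
    · subst hwa
      exact ⟨b, hab, hcovx _ _ i (Finset.Subset.refl _)⟩
    by_cases hwb : w = b
    · subst hwb
      refine ⟨a, hab.symm, hcovx _ _ i ?_⟩
      intro c; simp only [Finset.mem_insert, Finset.mem_singleton]; tauto
    by_cases hwi : w = i
    · subst hwi
      refine ⟨a, hia, hcovx _ _ b ?_⟩
      intro c; simp only [Finset.mem_insert, Finset.mem_singleton]; tauto
    by_cases hwu : w = u
    · subst hwu
      exact ⟨j, Ne.symm hju, hσ2⟩
    refine ⟨i, hwi, ?_⟩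
    obtain ⟨x, hx⟩ := hcovi w hwa hwb hwi hwu
    refine ⟨x, ?_⟩
    have : dis C x v' \ {w, i} = dis C x v \ {i, w} := by
      ext c
      simp only [Finset.mem_sdiff, Finset.mem_insert, Finset.mem_singleton, not_or, mem_dis]
      constructor
      · rintro ⟨g1, g2, g3⟩
        rw [hsame c g3] at g1
        exact ⟨g1, g3, g2⟩
      · rintro ⟨g1, g2, g3⟩
        rw [hsame c g2]
        exact ⟨g1, g3, g2⟩
    rw [this]
    exact hx
  have hmain := six_of h hk v' Finset.univ
    (fun _ _ _ _ _ x _ => ⟨hσ1 x, Finset.subset_univ _⟩)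
    (by
      intro w _
      obtain ⟨j₀, hw, hc⟩ := hcovall w
      exact deg_univ h hk hn heven hσ1 hw hc)
  rw [Finset.card_univ, Fintype.card_fin] at hmain
  have h6 : 3 ∣ k * (k - 2) := (by norm_num : (3:ℕ) ∣ 6).trans hmain
  rcases (Nat.Prime.dvd_mul Nat.prime_three).1 h6 with h' | h' <;> omega

/-- **Upper bound in dimension `n - 2`.** -/
theorem upper_two (h : IsArray m n k C) (hn : m + 2 = n) (h4 : 4 ≤ n) (heven : n % 2 = 0)
    (h3 : n % 3 ≠ 0) : k ≤ n + 1 := by
  by_contra hcon
  have h' := IsArray.restrict h (k' := m + 4) (by omega)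
  have : n % 3 = 1 ∨ n % 3 = 2 := by omega
  rcases this with h1 | h2
  · exact no_case_a h' rfl hn heven h4 h1
  · exact no_case_b h' rfl hn heven h4 h2

end Pool.Agent.H625R3.PC
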