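import Pool.Agent.H625R3.PC4

set_option autoImplicit false

/-!
# Dimension `n - 2`, even order: Steiner systems with a further point
-/

namespace Pool.Agent.H625R3.PC

open Pool.Agent.H430R2.PermCubes

open Classical in
/-- a partial Steiner system in which every `s`-set has exactly one uncovered extension -/
theorem extend_dvd {α : Type*} [DecidableEq α] (V : Finset α) (a : α) (ha : a ∉ V) (s : ℕ)
    (cov : Finset α → Prop) (B : Finset α → Finset α)
    (c1 : ∀ T ∈ V.powersetCard (s + 1), cov T → B T ⊆ V ∧ (B T).card = s + 2 ∧ T ⊆ B T)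
    (c2 : ∀ T ∈ V.powersetCard (s + 1), cov T → ∀ T' ∈ V.powersetCard (s + 1), T' ⊆ B T →
      cov T' ∧ B T' = B T)
    (c3 : ∀ I ∈ V.powersetCard s, ∃ l, l ∈ V ∧ l ∉ I ∧ ¬ cov (insert l I) ∧
      ∀ l' ∈ V, l' ∉ I → ¬ cov (insert l' I) → l' = l) :
    (s + 2) ∣ (V.card + 1).choose (s + 1) := by
  have : Nonempty α := ⟨a⟩
  choose! f hf using c3
  let r : Finset α → Finset α := fun T =>
    if a ∈ T then insert (f (T.erase a)) T else if cov T then B T else insert a T
  have hV : (insert a V).card = V.card + 1 := Finset.card_insert_of_notMem ha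
  have hmem : ∀ T ∈ (insert a V).powersetCard (s + 1), a ∉ T → T ∈ V.powersetCard (s + 1) := by
    intro T hT haT
    obtain ⟨h1, h2⟩ := Finset.mem_powersetCard.1 hT
    refine Finset.mem_powersetCard.2 ⟨?_, h2⟩
    intro c hc
    rcases Finset.mem_insert.1 (h1 hc) with rfl | h3
    · exact absurd hc haT
    · exact h3
  have hmem' : ∀ T ∈ (insert a V).powersetCard (s + 1), a ∈ T → T.erase a ∈ V.powersetCard s := by
    intro T hT haT
    obtain ⟨h1, h2⟩ := Finset.mem_powersetCard.1 hT
    refine Finset.mem_powersetCard.2 ⟨?_, by rw [Finset.card_erase_of_mem haT, h2]; rfl⟩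
    intro c hc
    rcases Finset.mem_insert.1 (h1 (Finset.mem_of_mem_erase hc)) with rfl | h3
    · exact absurd rfl (Finset.ne_of_mem_erase hc)
    · exact h3
  have key : ∀ U ∈ V.powersetCard (s + 1), ¬ cov U → ∀ T ∈ (insert a V).powersetCard (s + 1),
      T ⊆ insert a U → r T = insert a U := by
    intro U hU hcU T hT hTU
    obtain ⟨hU1, hU2⟩ := Finset.mem_powersetCard.1 hU
    obtain ⟨hT1, hT2⟩ := Finset.mem_powersetCard.1 hT
    by_cases haT : a ∈ T
    · have hI := hmem' T hT haT
      obtain ⟨hI1, hI2⟩ := Finset.mem_powersetCard.1 hI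
      have hIU : T.erase a ⊆ U := by
        intro c hc
        rcases Finset.mem_insert.1 (hTU (Finset.mem_of_mem_erase hc)) with rfl | h3
        · exact absurd rfl (Finset.ne_of_mem_erase hc)
        · exact h3
      obtain ⟨y, hy⟩ := Finset.card_eq_one.1 (show (U \ T.erase a).card = 1 by
        rw [Finset.card_sdiff_of_subset hIU, hU2, hI2]; omega)
      have hyU : y ∈ U \ T.erase a := by rw [hy]; simp
      rw [Finset.mem_sdiff] at hyU
      have hUy : insert y (T.erase a) = U := by
        apply Finset.eq_of_subset_of_card_le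
        · intro c hc
          rcases Finset.mem_insert.1 hc with rfl | hc
          · exact hyU.1
          · exact hIU hc
        · rw [Finset.card_insert_of_notMem hyU.2, hI2, hU2]
      obtain ⟨g1, g2, g3, g4⟩ := hf _ hI
      have hyf : y = f (T.erase a) := g4 y (hU1 hyU.1) hyU.2 (by rw [hUy]; exact hcU)
      have hrT : r T = insert (f (T.erase a)) T := by simp only [r, if_pos haT]
      rw [hrT, ← hyf, ← hUy, Finset.insert_comm, Finset.insert_erase haT]
    · have hT' := hmem T hT haT
      have hTU' : T = U := by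
        apply Finset.eq_of_subset_of_card_le
        · intro c hc
          rcases Finset.mem_insert.1 (hTU hc) with rfl | h3
          · exact absurd hc haT
          · exact h3
        · rw [hU2, hT2]
      rw [← hTU']
      have hcT : ¬ cov T := by rw [hTU']; exact hcU
      simp only [r, if_neg haT, if_neg hcT]
  rw [← hV]
  apply steiner_dvd (insert a V) (s + 1) r
  · intro T hT
    obtain ⟨hT1, hT2⟩ := Finset.mem_powersetCard.1 hT
    by_cases haT : a ∈ T
    · have hI := hmem' T hT haT
      obtain ⟨g1, g2, g3, g4⟩ := hf _ hI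
      have hr : r T = insert (f (T.erase a)) T := by simp only [r, if_pos haT]
      have hfT : f (T.erase a) ∉ T := by
        intro h'
        apply g2
        refine Finset.mem_erase.2 ⟨?_, h'⟩
        intro h''
        rw [h''] at g1
        exact ha g1
      rw [hr]
      refine ⟨?_, ?_, Finset.subset_insert _ _⟩
      · intro c hc
        rcases Finset.mem_insert.1 hc with rfl | hc
        · exact Finset.mem_insert_of_mem g1
        · exact hT1 hc
      · rw [Finset.card_insert_of_notMem hfT, hT2]
    · have hT' := hmem T hT haT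
      by_cases hc : cov T
      · have hr : r T = B T := by simp only [r, if_neg haT, if_pos hc]
        rw [hr]
        obtain ⟨b1, b2, b3⟩ := c1 T hT' hc
        exact ⟨b1.trans (Finset.subset_insert _ _), b2, b3⟩
      · have hr : r T = insert a T := by simp only [r, if_neg haT, if_neg hc]
        rw [hr]
        refine ⟨?_, by rw [Finset.card_insert_of_notMem haT, hT2], Finset.subset_insert _ _⟩
        intro c hc
        rcases Finset.mem_insert.1 hc with rfl | hc
        · exact Finset.mem_insert_self _ _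
        · exact hT1 hc
  · intro T hT T' hT' hs
    by_cases haT : a ∈ T
    · have hI := hmem' T hT haT
      obtain ⟨g1, g2, g3, g4⟩ := hf _ hI
      obtain ⟨hI1, hI2⟩ := Finset.mem_powersetCard.1 hI
      have hr : r T = insert a (insert (f (T.erase a)) (T.erase a)) := by
        simp only [r, if_pos haT]
        rw [Finset.insert_comm, Finset.insert_erase haT]
      rw [hr] at hs ⊢
      refine key _ ?_ g3 T' hT' hs
      refine Finset.mem_powersetCard.2 ⟨?_, by rw [Finset.card_insert_of_notMem g2, hI2]⟩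
      intro c hc
      rcases Finset.mem_insert.1 hc with rfl | hc
      · exact g1
      · exact hI1 hc
    · have hT1 := hmem T hT haT
      by_cases hc : cov T
      · have hr : r T = B T := by simp only [r, if_neg haT, if_pos hc]
        rw [hr] at hs ⊢
        have haT' : a ∉ T' := fun h' => ha ((c1 T hT1 hc).1 (hs h'))
        obtain ⟨d1, d2⟩ := c2 T hT1 hc T' (hmem T' hT' haT') hs
        simp only [r, if_neg haT', if_pos d1, d2]
      · have hr : r T = insert a T := by simp only [r, if_neg haT, if_neg hc]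
        rw [hr] at hs ⊢
        exact key T hT1 hc T' hT' hs

variable {m n k : ℕ} {C : Fin k → (Fin m → Fin n) → Fin n}

/-- the set `J` of cubes is covered by the word `v` -/
def CovS (C : Fin k → (Fin m → Fin n) → Fin n) (v : Fin k → Fin n) (J : Finset (Fin k)) : Prop :=
  ∃ x, (dis C x v \ J).card ≤ 1

theorem uniqS (h : IsArray m n k C) {s : ℕ} (hk : k = m + 3 + s) {v : Fin k → Fin n}
    {J : Finset (Fin k)} (hJ : J.card = s + 1) {x y : Fin m → Fin n}
    (hx : (dis C x v \ J).card ≤ 1) (hy : (dis C y v \ J).card ≤ 1) : x = y := by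
  classical
  refine near_unique h Jᶜ ?_ v ?_ ?_
  · rw [Finset.card_compl, Fintype.card_fin, hJ]; omega
  · rwa [← Finset.sdiff_eq_inter_compl]
  · rwa [← Finset.sdiff_eq_inter_compl]

/-- the block through `J` -/
theorem blockS (h : IsArray m n k C) {s : ℕ} (hk : k = m + 3 + s) {v : Fin k → Fin n}
    {x₀ x : Fin m → Fin n} {a b : Fin k} (hab : a ≠ b) (hd : dis C x₀ v = {a, b})
    {J : Finset (Fin k)} (hJ : J.card = s + 1) (hJV : J ⊆ ({a, b} : Finset (Fin k))ᶜ)
    (hx : (dis C x v \ J).card ≤ 1) :
    dis C x v ⊆ ({a, b} : Finset (Fin k))ᶜ ∧ (dis C x v).card = s + 2 ∧ J ⊆ dis C x v := by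
  classical
  have hxx : x ≠ x₀ := by
    rintro rfl
    rw [hd] at hx
    have : ({a, b} : Finset (Fin k)) \ J = {a, b} := by
      apply Finset.sdiff_eq_self_of_disjoint
      rw [Finset.disjoint_left]
      intro c hc hc'
      exact Finset.mem_compl.1 (hJV hc') hc
    rw [this, Finset.card_pair hab] at hx
    omega
  have h1 := card_diff h hxx
  have h2 : Finset.univ.filter (fun j => C j x ≠ C j x₀) ⊆ dis C x v ∪ {a, b} := by
    intro j hj
    rw [Finset.mem_filter] at hj
    rw [Finset.mem_union, mem_dis, ← hd, mem_dis]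
    by_contra hcon
    push Not at hcon
    exact hj.2 (hcon.1.trans hcon.2.symm)
  have h3 := Finset.card_le_card h2
  have h4 : (dis C x v ∩ J).card + (dis C x v \ J).card = (dis C x v).card := by
    rw [Finset.card_inter_add_card_sdiff]
  have h5 : (dis C x v ∩ J).card ≤ J.card := Finset.card_le_card Finset.inter_subset_right
  have h6 := Finset.card_union_add_card_inter (dis C x v) ({a, b} : Finset (Fin k))
  rw [Finset.card_pair hab] at h6
  have h7 : dis C x v ∩ {a, b} = ∅ := by
    rw [← Finset.card_eq_zero]; omega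
  refine ⟨?_, by omega, ?_⟩
  · intro j hj
    rw [Finset.mem_compl]
    intro hj'
    have : j ∈ dis C x v ∩ {a, b} := Finset.mem_inter.2 ⟨hj, hj'⟩
    rw [h7] at this
    simp at this
  · have h8 : dis C x v ∩ J = J :=
      Finset.eq_of_subset_of_card_le Finset.inter_subset_right (by omega)
    intro j hj
    rw [← h8] at hj
    exact (Finset.mem_inter.1 hj).1

open Classical in
/-- parity: the number of uncovered extensions is odd -/
theorem oddS (h : IsArray m n k C) {s : ℕ} (hk : k = m + 3 + s) (hodd : (m + 1) % 2 = 1)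
    {v : Fin k → Fin n} {x₀ : Fin m → Fin n} {a b : Fin k} (hab : a ≠ b)
    (hd : dis C x₀ v = {a, b}) {I : Finset (Fin k)} (hI : I.card = s)
    (hIV : I ⊆ ({a, b} : Finset (Fin k))ᶜ) :
    ((({a, b} : Finset (Fin k))ᶜ \ I).filter (fun j => ¬ CovS C v (insert j I))).card % 2 = 1 := by
  set V := ({a, b} : Finset (Fin k))ᶜ with hV
  have hVc : V.card = m + 1 + s := by
    rw [hV, Finset.card_compl, Fintype.card_fin, Finset.card_pair hab]; omega
  set R := V \ I with hR
  have hRc : R.card = m + 1 := by
    rw [hR, Finset.card_sdiff_of_subset hIV, hVc, hI]; omega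
  have hmemR : ∀ j, j ∈ R ↔ j ∈ V ∧ j ∉ I := fun j => Finset.mem_sdiff
  have hJ : ∀ j ∈ R, (insert j I).card = s + 1 := by
    intro j hj
    rw [Finset.card_insert_of_notMem ((hmemR j).1 hj).2, hI]
  have hJV : ∀ j ∈ R, insert j I ⊆ V := by
    intro j hj c hc
    rcases Finset.mem_insert.1 hc with rfl | hc
    · exact ((hmemR c).1 hj).1
    · exact hIV hc
  set Rc := R.filter (fun j => CovS C v (insert j I)) with hRcdef
  have hex : ∀ j ∈ Rc, ∃ x, (dis C x v \ insert j I).card ≤ 1 := fun j hj =>
    (Finset.mem_filter.1 hj).2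
  have : Nonempty (Fin m → Fin n) := ⟨x₀⟩
  choose! f hf using hex
  have hfib : ∀ y ∈ Rc.image f, (Rc.filter (fun j => f j = y)).card = 2 := by
    intro y hy
    obtain ⟨j₀, hj₀, rfl⟩ := Finset.mem_image.1 hy
    have hj₀R := (Finset.mem_filter.1 hj₀).1
    obtain ⟨b1, b2, b3⟩ := blockS h hk hab hd (hJ j₀ hj₀R) (hJV j₀ hj₀R) (hf j₀ hj₀)
    have hIb : I ⊆ dis C (f j₀) v := (Finset.subset_insert _ _).trans b3
    have heq : Rc.filter (fun j => f j = f j₀) = dis C (f j₀) v \ I := by
      ext j
      rw [Finset.mem_filter, Finset.mem_sdiff]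
      constructor
      · rintro ⟨hj, hjf⟩
        have hjR := (Finset.mem_filter.1 hj).1
        obtain ⟨-, -, d3⟩ := blockS h hk hab hd (hJ j hjR) (hJV j hjR) (hf j hj)
        rw [hjf] at d3
        exact ⟨d3 (Finset.mem_insert_self _ _), ((hmemR j).1 hjR).2⟩
      · rintro ⟨hj1, hj2⟩
        have hjR : j ∈ R := (hmemR j).2 ⟨b1 hj1, hj2⟩
        have hc : (dis C (f j₀) v \ insert j I).card ≤ 1 := by
          have hs : insert j I ⊆ dis C (f j₀) v := by
            intro c hc
            rcases Finset.mem_insert.1 hc with rfl | hc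
            · exact hj1
            · exact hIb hc
          rw [Finset.card_sdiff_of_subset hs, b2, hJ j hjR]; omega
        have hjRc : j ∈ Rc := Finset.mem_filter.2 ⟨hjR, _, hc⟩
        exact ⟨hjRc, uniqS h hk (hJ j hjR) (hf j hjRc) hc⟩
    rw [heq, Finset.card_sdiff_of_subset hIb, b2, hI]; omega
  have hsum := Finset.card_eq_sum_card_image f Rc
  rw [Finset.sum_congr rfl hfib, Finset.sum_const, smul_eq_mul] at hsum
  have htot : Rc.card + (R.filter (fun j => ¬ CovS C v (insert j I))).card = R.card :=
    Finset.card_filter_add_card_filter_not (s := R) (fun j => CovS C v (insert j I))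
  rw [hRc] at htot
  omega

open Classical in
/-- at most `n - 1` of the words differing from `x₀` at `a` and `b` leave `J` uncovered -/
theorem uncS_le (h : IsArray m n k C) {s : ℕ} (hk : k = m + 3 + s) (hn : m + 2 = n)
    {v : Fin k → Fin n} {x₀ : Fin m → Fin n} {a b : Fin k} (hab : a ≠ b)
    (hd : ∀ c, c ≠ a → c ≠ b → v c = C c x₀) {J : Finset (Fin k)} (hJ : J.card = s + 1)
    (hJa : a ∉ J) (hJb : b ∉ J) :
    (((Finset.univ.erase (C a x₀)) ×ˢ (Finset.univ.erase (C b x₀))).filter
      (fun p : Fin n × Fin n => ¬ CovS C (Function.update (Function.update v a p.1) b p.2) J)).card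
      ≤ n - 1 := by
  set S := Finset.univ.erase (C a x₀) with hS
  set T := Finset.univ.erase (C b x₀) with hT
  have hSc : S.card = n - 1 := by
    rw [hS, Finset.card_erase_of_mem (Finset.mem_univ _), Finset.card_univ, Fintype.card_fin]
  have hTc : T.card = n - 1 := by
    rw [hT, Finset.card_erase_of_mem (Finset.mem_univ _), Finset.card_univ, Fintype.card_fin]
  set R' := ((insert a (insert b J))ᶜ : Finset (Fin k)) with hR'
  have hmemR : ∀ l, l ∈ R' ↔ l ≠ a ∧ l ≠ b ∧ l ∉ J := by
    intro l; simp [hR']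
  have h4 : (insert a (insert b J)).card = s + 3 := by
    rw [Finset.card_insert_of_notMem (by simp [hab, hJa]), Finset.card_insert_of_notMem hJb, hJ]
  have hR'c : R'.card = m := by
    rw [hR', Finset.card_compl, Fintype.card_fin, h4]; omega
  -- the points
  have hex : ∀ q ∈ R' ×ˢ S, ∃ x, C a x = q.2 ∧ ∀ c ∈ R', c ≠ q.1 → C c x = C c x₀ := by
    rintro ⟨l, σ⟩ hq
    obtain ⟨hl, hσ⟩ := Finset.mem_product.1 hq
    have hcard : (insert a (R'.erase l)).card = m := by
      have haR : a ∉ R'.erase l := by
        intro h'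
        exact ((hmemR a).1 (Finset.mem_of_mem_erase h')).1 rfl
      rw [Finset.card_insert_of_notMem haR, Finset.card_erase_of_mem hl]
      have : 0 < R'.card := Finset.card_pos.2 ⟨l, hl⟩
      omega
    obtain ⟨x, hx⟩ := h.exists_point _ hcard (fun c => if c = a then σ else C c x₀)
    refine ⟨x, by simpa using hx a (by simp), fun c hc hcl => ?_⟩
    have hca : c ≠ a := ((hmemR c).1 hc).1
    simpa [hca] using hx c (by simp [hc, hcl])
  have : Nonempty (Fin m → Fin n) := ⟨x₀⟩
  choose! p hp1 hp2 using hex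
  have hne : ∀ q ∈ R' ×ˢ S, p q ≠ x₀ := by
    rintro ⟨l, σ⟩ hq h'
    have := hp1 _ hq
    rw [h'] at this
    exact Finset.ne_of_mem_erase (Finset.mem_product.1 hq).2 this.symm
  have hcov : ∀ q ∈ R' ×ˢ S,
      (q.2, C b (p q)) ∈ (S ×ˢ T).filter (fun r : Fin n × Fin n =>
        CovS C (Function.update (Function.update v a r.1) b r.2) J) := by
    rintro ⟨l, σ⟩ hq
    obtain ⟨hl, hσ⟩ := Finset.mem_product.1 hq
    obtain ⟨hla, hlb, hlJ⟩ := (hmemR l).1 hl
    rw [Finset.mem_filter, Finset.mem_product]
    refine ⟨⟨hσ, ?_⟩, p (l, σ), ?_⟩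
    · rw [hT]
      refine Finset.mem_erase.2 ⟨?_, Finset.mem_univ _⟩
      intro h'
      apply hne _ hq
      refine h.eq_of_agree (insert b (R'.erase l)) ?_ ?_
      · have hbR : b ∉ R'.erase l := by
          intro h'
          exact ((hmemR b).1 (Finset.mem_of_mem_erase h')).2.1 rfl
        rw [Finset.card_insert_of_notMem hbR, Finset.card_erase_of_mem hl]
        have : 0 < R'.card := Finset.card_pos.2 ⟨l, hl⟩
        omega
      · intro c hc
        rcases Finset.mem_insert.1 hc with rfl | hc
        · exact h'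
        · exact hp2 _ hq c (Finset.mem_of_mem_erase hc) (Finset.ne_of_mem_erase hc)
    · have hsub : dis C (p (l, σ)) (Function.update (Function.update v a σ) b (C b (p (l, σ)))) \
          J ⊆ {l} := by
        intro c hc
        rw [Finset.mem_sdiff, mem_dis] at hc
        rw [Finset.mem_singleton]
        by_contra hcl
        apply hc.1
        by_cases hcb : c = b
        · subst hcb; rw [Function.update_self]
        · rw [Function.update_of_ne hcb]
          by_cases hca : c = a
          · subst hca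
            rw [Function.update_self]
            exact hp1 _ hq
          · rw [Function.update_of_ne hca, hd c hca hcb]
            exact hp2 _ hq c ((hmemR c).2 ⟨hca, hcb, hc.2⟩) hcl
      exact (Finset.card_le_card hsub).trans (by simp)
  have hinj : Set.InjOn (fun q : Fin k × Fin n => (q.2, C b (p q))) (R' ×ˢ S : Finset _) := by
    rintro ⟨l, σ⟩ hq ⟨l', σ'⟩ hq' heq
    have hq := Finset.mem_coe.1 hq
    have hq' := Finset.mem_coe.1 hq'
    simp only [Prod.mk.injEq] at heq
    obtain ⟨rfl, hb'⟩ := heq
    by_contra hll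
    have hll' : l ≠ l' := fun h' => hll (by rw [h'])
    obtain ⟨hl, -⟩ := Finset.mem_product.1 hq
    obtain ⟨hl', -⟩ := Finset.mem_product.1 hq'
    have hpp : p (l, σ) = p (l', σ) := by
      refine h.eq_of_agree (insert a (insert b ((R'.erase l).erase l'))) ?_ ?_
      · have hb1 : b ∉ (R'.erase l).erase l' := by
          intro h'
          exact ((hmemR b).1 (Finset.mem_of_mem_erase (Finset.mem_of_mem_erase h'))).2.1 rfl
        have ha1 : a ∉ insert b ((R'.erase l).erase l') := by
          intro h'
          rcases Finset.mem_insert.1 h' with h' | h'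
          · exact hab h'
          · exact ((hmemR a).1 (Finset.mem_of_mem_erase (Finset.mem_of_mem_erase h'))).1 rfl
        rw [Finset.card_insert_of_notMem ha1, Finset.card_insert_of_notMem hb1,
          Finset.card_erase_of_mem (Finset.mem_erase.2 ⟨hll'.symm, hl'⟩),
          Finset.card_erase_of_mem hl]
        have : 1 < R'.card := Finset.one_lt_card.2 ⟨l, hl, l', hl', hll'⟩
        omega
      · intro c hc
        rcases Finset.mem_insert.1 hc with rfl | hc
        · rw [hp1 _ hq, hp1 _ hq']
        rcases Finset.mem_insert.1 hc with rfl | hc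
        · exact hb'
        · have h1 := Finset.mem_of_mem_erase hc
          rw [hp2 _ hq c (Finset.mem_of_mem_erase h1) (Finset.ne_of_mem_erase h1),
            hp2 _ hq' c (Finset.mem_of_mem_erase h1) (Finset.ne_of_mem_erase hc)]
    apply hne _ hq
    refine h.eq_of_agree R' hR'c.ge ?_
    intro c hc
    by_cases hcl : c = l
    · rw [hpp]
      exact hp2 _ hq' c hc (by rw [hcl]; exact hll')
    · exact hp2 _ hq c hc hcl
  have hle : (R' ×ˢ S).card ≤ ((S ×ˢ T).filter (fun r : Fin n × Fin n =>
        CovS C (Function.update (Function.update v a r.1) b r.2) J)).card :=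
    Finset.card_le_card_of_injOn _ (fun q hq => hcov q hq) hinj
  have htot := Finset.card_filter_add_card_filter_not (s := S ×ˢ T) (fun r : Fin n × Fin n =>
        CovS C (Function.update (Function.update v a r.1) b r.2) J)
  rw [Finset.card_product, hR'c, hSc] at hle
  rw [Finset.card_product, hSc, hTc] at htot
  obtain ⟨d, rfl⟩ : ∃ d, n = d + 2 := ⟨m, hn.symm⟩
  have hmd : m = d := by omega
  subst hmd
  have e : m + 2 - 1 = m + 1 := by omega
  rw [e] at hle htot ⊢
  nlinarith

theorem dis_pair {v : Fin k → Fin n} {x₀ : Fin m → Fin n} {a b : Fin k}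
    (ha : v a ≠ C a x₀) (hb : v b ≠ C b x₀) (hd : ∀ j, j ≠ a → j ≠ b → v j = C j x₀) :
    dis C x₀ v = {a, b} := by
  ext j
  rw [mem_dis, Finset.mem_insert, Finset.mem_singleton]
  constructor
  · intro h1
    by_contra h2
    push Not at h2
    exact h1 (hd j h2.1 h2.2).symm
  · rintro (rfl | rfl)
    · exact ha.symm
    · exact hb.symm

open Classical in
/-- **The degree theorem**: exactly one uncovered extension of `I`. -/
theorem oneS (h : IsArray m n k C) {s : ℕ} (hk : k = m + 3 + s) (hn : m + 2 = n)
    (heven : n % 2 = 0) {v : Fin k → Fin n} {x₀ : Fin m → Fin n} {a b : Fin k} (hab : a ≠ b)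
    (hd : ∀ c, c ≠ a → c ≠ b → v c = C c x₀) (ha : v a ≠ C a x₀) (hb : v b ≠ C b x₀)
    {I : Finset (Fin k)} (hI : I.card = s) (hIV : I ⊆ ({a, b} : Finset (Fin k))ᶜ) :
    ((({a, b} : Finset (Fin k))ᶜ \ I).filter (fun j => ¬ CovS C v (insert j I))).card = 1 := by
  set R := (({a, b} : Finset (Fin k))ᶜ \ I) with hR
  have hmemR : ∀ j, j ∈ R ↔ (j ≠ a ∧ j ≠ b) ∧ j ∉ I := by
    intro j; simp [hR]
  have hRc : R.card = n - 1 := by
    rw [hR, Finset.card_sdiff_of_subset hIV, Finset.card_compl, Fintype.card_fin,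
      Finset.card_pair hab, hI]
    omega
  have haI : a ∉ I := fun h' => by
    have := hIV h'
    simp at this
  have hbI : b ∉ I := fun h' => by
    have := hIV h'
    simp at this
  set S := Finset.univ.erase (C a x₀) with hS
  set T := Finset.univ.erase (C b x₀) with hT
  have hSc : S.card = n - 1 := by
    rw [hS, Finset.card_erase_of_mem (Finset.mem_univ _), Finset.card_univ, Fintype.card_fin]
  have hTc : T.card = n - 1 := by
    rw [hT, Finset.card_erase_of_mem (Finset.mem_univ _), Finset.card_univ, Fintype.card_fin]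
  let w : Fin n × Fin n → Fin k → Fin n := fun p =>
    Function.update (Function.update v a p.1) b p.2
  have hodd : ∀ p ∈ S ×ˢ T, (R.filter (fun j => ¬ CovS C (w p) (insert j I))).card % 2 = 1 := by
    rintro ⟨y, z⟩ hp
    obtain ⟨hy, hz⟩ := Finset.mem_product.1 hp
    refine oddS h hk (by omega) hab (x₀ := x₀) (dis_pair ?_ ?_ ?_) hI hIV
    · simp only [w]
      rw [Function.update_of_ne hab, Function.update_self]
      exact Finset.ne_of_mem_erase hy
    · simp only [w]
      rw [Function.update_self]
      exact Finset.ne_of_mem_erase hz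
    · intro c hca hcb
      simp only [w]
      rw [Function.update_of_ne hcb, Function.update_of_ne hca]
      exact hd c hca hcb
  have hswap : ∑ p ∈ S ×ˢ T, (R.filter (fun j => ¬ CovS C (w p) (insert j I))).card =
      ∑ j ∈ R, ((S ×ˢ T).filter (fun p => ¬ CovS C (w p) (insert j I))).card := by
    simp only [Finset.card_filter]
    exact Finset.sum_comm
  have hle : ∑ j ∈ R, ((S ×ˢ T).filter (fun p => ¬ CovS C (w p) (insert j I))).card ≤
      (n - 1) * (n - 1) := by
    have := Finset.sum_le_card_nsmul R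
      (fun j => ((S ×ˢ T).filter (fun p => ¬ CovS C (w p) (insert j I))).card) (n - 1) (by
        intro j hj
        obtain ⟨⟨hja, hjb⟩, hjI⟩ := (hmemR j).1 hj
        refine uncS_le h hk hn hab hd (J := insert j I) ?_ ?_ ?_
        · rw [Finset.card_insert_of_notMem hjI, hI]
        · simp [haI, Ne.symm hja]
        · simp [hbI, Ne.symm hjb])
    rwa [smul_eq_mul, hRc] at this
  have hp0 : (v a, v b) ∈ S ×ˢ T := by
    rw [Finset.mem_product]
    exact ⟨Finset.mem_erase.2 ⟨ha, Finset.mem_univ _⟩, Finset.mem_erase.2 ⟨hb, Finset.mem_univ _⟩⟩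
  have hw0 : w (v a, v b) = v := by
    simp only [w]
    rw [Function.update_eq_self, Function.update_eq_self]
  have ho := hodd _ hp0
  rw [hw0] at ho
  by_contra hcon
  have h2 : 2 ≤ (R.filter (fun j => ¬ CovS C v (insert j I))).card := by omega
  have hlt : ∑ p ∈ S ×ˢ T, 1 <
      ∑ p ∈ S ×ˢ T, (R.filter (fun j => ¬ CovS C (w p) (insert j I))).card := by
    apply Finset.sum_lt_sum
    · intro p hp
      have := hodd p hp
      omega
    · exact ⟨_, hp0, by rw [hw0]; omega⟩
  rw [hswap, Finset.sum_const, smul_eq_mul, mul_one, Finset.card_product, hSc, hTc] at hlt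
  omega

/-- **Second obstruction**: `n` even, no `n + p - 1` cubes of dimension `n - 2` if the prime `p`
divides `n - 1`. -/
theorem no_prime_two (h : IsArray m n k C) (hn : m + 2 = n) (heven : n % 2 = 0) (h4 : 4 ≤ n)
    {p : ℕ} (hp : p.Prime) (hpn : p ∣ n - 1) (hk : k = n + p - 1) : False := by
  classical
  have hp2 := hp.two_le
  have hp3 : 3 ≤ p := by
    by_contra h'
    have : p = 2 := by omega
    subst this
    omega
  obtain ⟨s, rfl⟩ : ∃ s, p = s + 2 := ⟨p - 2, by omega⟩
  have h0 : (0 : ℕ) < n := by omega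
  let x₀ : Fin m → Fin n := fun _ => ⟨0, h0⟩
  have : Nontrivial (Fin n) := Fin.nontrivial_iff_two_le.2 (by omega)
  let a : Fin k := ⟨0, by omega⟩
  let b : Fin k := ⟨1, by omega⟩
  have hab : a ≠ b := by
    intro h'
    have := congrArg Fin.val h'
    simp [a, b] at this
  obtain ⟨y, hy⟩ := exists_ne (C a x₀)
  obtain ⟨z, hz⟩ := exists_ne (C b x₀)
  let v : Fin k → Fin n := fun j => if j = a then y else if j = b then z else C j x₀
  have hva : v a ≠ C a x₀ := by simpa [v] using hy
  have hvb : v b ≠ C b x₀ := by simpa [v, hab.symm] using hz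
  have hvo : ∀ j, j ≠ a → j ≠ b → v j = C j x₀ := by
    intro j h1 h2; simp [v, h1, h2]
  have hd := dis_pair hva hvb hvo
  have hk' : k = m + 3 + s := by omega
  set V : Finset (Fin k) := {a, b}ᶜ with hV
  have hVc : V.card = n + s - 1 := by
    rw [hV, Finset.card_compl, Fintype.card_fin, Finset.card_pair hab, hk]; omega
  have hex : ∀ J, CovS C v J → ∃ x, (dis C x v \ J).card ≤ 1 := fun J hJ => hJ
  have : Nonempty (Fin m → Fin n) := ⟨x₀⟩
  choose! g hg using hex
  have hmain : (s + 2) ∣ (V.card + 1).choose (s + 1) := by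
    apply extend_dvd V a (by simp [hV]) s (CovS C v) (fun J => dis C (g J) v)
    · intro J hJ hc
      obtain ⟨hJ1, hJ2⟩ := Finset.mem_powersetCard.1 hJ
      exact blockS h hk' hab hd hJ2 hJ1 (hg J hc)
    · intro J hJ hc J' hJ' hs
      obtain ⟨hJ1, hJ2⟩ := Finset.mem_powersetCard.1 hJ
      obtain ⟨hJ'1, hJ'2⟩ := Finset.mem_powersetCard.1 hJ'
      obtain ⟨b1, b2, b3⟩ := blockS h hk' hab hd hJ2 hJ1 (hg J hc)
      have hc' : (dis C (g J) v \ J').card ≤ 1 := by
        rw [Finset.card_sdiff_of_subset hs, b2, hJ'2]; omega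
      have hcov : CovS C v J' := ⟨_, hc'⟩
      refine ⟨hcov, ?_⟩
      rw [uniqS h hk' hJ'2 (hg J' hcov) hc']
    · intro I hI
      obtain ⟨hI1, hI2⟩ := Finset.mem_powersetCard.1 hI
      obtain ⟨l, hl⟩ := Finset.card_eq_one.1 (oneS h hk' hn heven hab hvo hva hvb hI2 hI1)
      have hmem : ∀ j, j ∈ (({a, b} : Finset (Fin k))ᶜ \ I).filter
          (fun j => ¬ CovS C v (insert j I)) ↔ (j ∈ V ∧ j ∉ I) ∧ ¬ CovS C v (insert j I) := by
        intro j
        rw [Finset.mem_filter, Finset.mem_sdiff]
      have hll : l ∈ (({a, b} : Finset (Fin k))ᶜ \ I).filter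
          (fun j => ¬ CovS C v (insert j I)) := by rw [hl]; simp
      obtain ⟨⟨g1, g2⟩, g3⟩ := (hmem l).1 hll
      refine ⟨l, g1, g2, g3, ?_⟩
      intro l' h1 h2 h3
      have := (hmem l').2 ⟨⟨h1, h2⟩, h3⟩
      rw [hl] at this
      exact Finset.mem_singleton.1 this
  rw [hVc] at hmain
  have e1 : n + s - 1 + 1 = n + (s + 2) - 2 := by omega
  have e2 : s + 1 = s + 2 - 1 := by omega
  rw [e1, e2] at hmain
  exact Pool.Agent.H72R3.VC.choose_not_dvd hp (by omega) hpn hmain

/-- **Upper bound in dimension `n - 2`**, all even orders. -/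
theorem upper_two_prime (h : IsArray m n k C) (hn : m + 2 = n) (h4 : 4 ≤ n) (heven : n % 2 = 0)
    {p : ℕ} (hp : p.Prime) (hpn : p ∣ n - 1) : k ≤ n + p - 2 := by
  by_contra hcon
  have hp2 := hp.two_le
  exact no_prime_two (IsArray.restrict h (k' := n + p - 1) (by omega)) hn heven h4 hp hpn rfl

end Pool.Agent.H625R3.PC
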