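import Pool.Agent.H625R3.PC3
import Pool.Agent.H625R3.PC5
import Pool.Agent.H625R3.PC6

set_option autoImplicit false

/-!
# Orthogonal arrays of index one
-/

namespace Pool.Agent.H625R3.OA

open Pool.Agent.H430R2.PermCubes Pool.Agent.H625R3.PC Function

/-- `A` is an orthogonal array with `M` rows, `n` columns, symbols in `S`, strength `k` and index
`lam`: for every choice of `k` distinct columns each vector in `S ^ k` occurs exactly `lam` times
as a row of the submatrix formed by these columns. -/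
def IsOA {S : Type} (M n k lam : ℕ) (A : Fin M → Fin n → S) : Prop :=
  ∀ e : Fin k → Fin n, Injective e → ∀ w : Fin k → S,
    Nat.card {r : Fin M // ∀ i, A r (e i) = w i} = lam

/-- `N` is the largest number of columns of an orthogonal array of index one and strength `k` with
`q ^ k` rows and `q` symbols: `N(q, k) = N`. -/
def IsN (q k N : ℕ) : Prop :=
  IsGreatest {n : ℕ | ∃ A : Fin (q ^ k) → Fin n → Fin q, IsOA (q ^ k) n k 1 A} N

theorem card_one_iff {α : Type} (P : α → Prop) : Nat.card {r : α // P r} = 1 ↔ ∃! r, P r := by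
  rw [Nat.card_eq_one_iff_unique]
  constructor
  · rintro ⟨h1, ⟨r, hr⟩⟩
    refine ⟨r, hr, fun s hs => ?_⟩
    have := @Subsingleton.elim _ h1 (⟨s, hs⟩ : {r : α // P r}) ⟨r, hr⟩
    exact congrArg Subtype.val this
  · rintro ⟨r, hr, h⟩
    refine ⟨⟨fun s t => Subtype.ext ?_⟩, ⟨⟨r, hr⟩⟩⟩
    rw [h _ s.2, h _ t.2]

theorem oa_iff {q k n : ℕ} : (∃ A : Fin (q ^ k) → Fin n → Fin q, IsOA (q ^ k) n k 1 A) ↔
    ∃ C : Fin n → (Fin k → Fin q) → Fin q, IsArray k q n C := by
  constructor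
  · rintro ⟨A, hA⟩
    refine ⟨fun j x => A (finFunctionFinEquiv x) j, fun e he => ?_⟩
    rw [bijective_iff_existsUnique]
    intro w
    obtain ⟨r, hr, hu⟩ := (card_one_iff _).1 (hA e he w)
    refine ⟨finFunctionFinEquiv.symm r, ?_, ?_⟩
    · funext i
      simpa using hr i
    · intro y hy
      rw [Equiv.eq_symm_apply]
      apply hu
      intro i
      exact congrFun hy i
  · rintro ⟨C, hC⟩
    refine ⟨fun r j => C j (finFunctionFinEquiv.symm r), fun e he w => ?_⟩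
    rw [card_one_iff]
    obtain ⟨x, hx, hu⟩ := (bijective_iff_existsUnique _).1 (hC e he) w
    refine ⟨finFunctionFinEquiv x, ?_, ?_⟩
    · intro i
      simpa using congrFun hx i
    · intro r hr
      rw [← Equiv.symm_apply_eq]
      apply hu
      funext i
      exact hr i

/-- the number of columns as a greatest element -/
theorem isN_iff {q k N : ℕ} : IsN q k N ↔
    IsGreatest {n : ℕ | ∃ C : Fin n → (Fin k → Fin q) → Fin q, IsArray k q n C} N := by
  unfold IsN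
  have : {n : ℕ | ∃ A : Fin (q ^ k) → Fin n → Fin q, IsOA (q ^ k) n k 1 A} =
      {n : ℕ | ∃ C : Fin n → (Fin k → Fin q) → Fin q, IsArray k q n C} := by
    ext n; exact oa_iff
  rw [this]

theorem upper_one {q n : ℕ} (hq : 3 ≤ q) {A : Fin (q ^ (q - 1)) → Fin n → Fin q}
    (hA : IsOA (q ^ (q - 1)) n (q - 1) 1 A) :
    (∀ p : ℕ, p.Prime → p ∣ q - 1 → n ≤ q + p - 1) ∧ (q % 3 = 2 → n ≤ q + 2) := by
  obtain ⟨C, hC⟩ := oa_iff.1 ⟨A, hA⟩
  exact upper hC (by omega) hq

theorem upper_two' {q n : ℕ} (hq : 4 ≤ q) (h2 : q % 2 = 0) {A : Fin (q ^ (q - 2)) → Fin n → Fin q}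
    (hA : IsOA (q ^ (q - 2)) n (q - 2) 1 A) :
    (q % 3 ≠ 0 → n ≤ q + 1) ∧ (∀ p : ℕ, p.Prime → p ∣ q - 1 → n ≤ q + p - 2) := by
  obtain ⟨C, hC⟩ := oa_iff.1 ⟨A, hA⟩
  exact ⟨fun h3 => upper_two hC (by omega) hq h2 h3,
    fun p hp hpn => upper_two_prime hC (by omega) hq h2 hp hpn⟩

/-- `N(q, q - 1)` for prime powers -/
theorem isN_one {q : ℕ} (hq : IsPrimePow q) (h4 : 4 ≤ q) :
    IsN q (q - 1) (if q % 2 = 1 then q + 1 else q + 2) := by
  rw [isN_iff]
  obtain ⟨⟨C, hC⟩, -⟩ := isPi_dual hq h4 (show q - 1 + 1 = q by omega)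
  refine ⟨⟨C, hC.2⟩, ?_⟩
  rintro n ⟨D, hD⟩
  have hu := upper hD (by omega) (by omega)
  by_cases hodd : q % 2 = 1
  · rw [if_pos hodd]
    have := hu.1 2 Nat.prime_two (by omega)
    omega
  · rw [if_neg hodd]
    by_cases h2 : q % 3 = 2
    · exact hu.2 h2
    · have h3 : q % 3 ≠ 0 := by
        intro h3
        obtain ⟨p, e, hp, he, rfl⟩ := hq
        have hp' := hp.nat_prime
        have h2p : 2 ∣ p ^ e := Nat.dvd_of_mod_eq_zero (by omega)
        have h3p : 3 ∣ p ^ e := Nat.dvd_of_mod_eq_zero h3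
        have e2 := (Nat.prime_dvd_prime_iff_eq Nat.prime_two hp').1
          (Nat.prime_two.dvd_of_dvd_pow h2p)
        have e3 := (Nat.prime_dvd_prime_iff_eq Nat.prime_three hp').1
          (Nat.prime_three.dvd_of_dvd_pow h3p)
        omega
      have := hu.1 3 Nat.prime_three (by omega)
      omega

/-- `N(q, q - 2)` for powers of two -/
theorem isN_two {r : ℕ} (hr : 3 ≤ r) : IsN (2 ^ r) (2 ^ r - 2) (2 ^ r + 1) := by
  rw [isN_iff]
  have h8 : 8 ≤ 2 ^ r := by
    calc 8 = 2 ^ 3 := by norm_num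
      _ ≤ 2 ^ r := Nat.pow_le_pow_right (by norm_num) hr
  have hq : IsPrimePow (2 ^ r) := ⟨2, r, Nat.prime_two.prime, by omega, rfl⟩
  have h2 : 2 ^ r % 2 = 0 := Nat.mod_eq_zero_of_dvd (dvd_pow_self 2 (by omega))
  have h3 : 2 ^ r % 3 ≠ 0 := by
    intro h3
    have h3' : 3 ∣ 2 := Nat.prime_three.dvd_of_dvd_pow (Nat.dvd_of_mod_eq_zero h3)
    omega
  obtain ⟨C, -, hC⟩ := varOver_primePow hq (show 3 ≤ 2 ^ r - 2 by omega) (by omega) (by omega)
  refine ⟨⟨C, hC⟩, ?_⟩
  rintro n ⟨D, hD⟩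
  exact upper_two hD (by omega) (by omega) h2 h3

end Pool.Agent.H625R3.OA
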