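import Pool.Agent.H72R3.VC.Prime

set_option autoImplicit false

/-!
# Variational sets of `(n - 1)`-dimensional cubes of order `n`: upper bounds

The restrictions of the array to `n + 1` of the cubes are perfect codes, so that the points at
minimal distance from a suitable word form a Steiner system.
-/

namespace Pool.Agent.H625R3.PC

open Pool.Agent.H430R2.PermCubes

variable {m n k : ℕ} {C : Fin k → (Fin m → Fin n) → Fin n}

/-- the cubes on which the point `x` disagrees with the word `v` -/
def dis (C : Fin k → (Fin m → Fin n) → Fin n) (x : Fin m → Fin n) (v : Fin k → Fin n) :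
    Finset (Fin k) :=
  Finset.univ.filter (fun j => C j x ≠ v j)

theorem mem_dis {x : Fin m → Fin n} {v : Fin k → Fin n} {j : Fin k} :
    j ∈ dis C x v ↔ C j x ≠ v j := by
  simp [dis]

/-- two points that are close to the same word on `m + 2` cubes are equal -/
theorem near_unique (h : IsArray m n k C) (J : Finset (Fin k)) (hJ : m + 2 ≤ J.card)
    (v : Fin k → Fin n) {x y : Fin m → Fin n} (hx : (dis C x v ∩ J).card ≤ 1)
    (hy : (dis C y v ∩ J).card ≤ 1) : x = y := by
  refine h.eq_of_agree (J \ (dis C x v ∪ dis C y v)) ?_ ?_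
  · have h1 : (J ∩ (dis C x v ∪ dis C y v)).card ≤ 2 := by
      have : J ∩ (dis C x v ∪ dis C y v) = (dis C x v ∩ J) ∪ (dis C y v ∩ J) := by
        ext j; simp only [Finset.mem_inter, Finset.mem_union]; tauto
      rw [this]
      exact (Finset.card_union_le _ _).trans (by omega)
    have h2 := Finset.card_sdiff_add_card_inter J (dis C x v ∪ dis C y v)
    omega
  · intro i hi
    rw [Finset.mem_sdiff, Finset.mem_union, mem_dis, mem_dis] at hi
    push Not at hi
    rw [hi.2.1, hi.2.2]

/-- the restriction of the array to `n + 1` cubes is a perfect code if `m = n - 1` -/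
theorem near_exists (h : IsArray m n k C) (hmn : m + 1 = n) (J : Finset (Fin k))
    (hJ : J.card = n + 1) (v : Fin k → Fin n) : ∃ x, (dis C x v ∩ J).card ≤ 1 := by
  classical
  by_contra hcon
  push Not at hcon
  obtain ⟨j₀, hj₀⟩ : J.Nonempty := by rw [← Finset.card_pos]; omega
  set W := J.erase j₀ with hW
  have hWc : W.card = m + 1 := by
    rw [hW, Finset.card_erase_of_mem hj₀]; omega
  have hex : ∀ i ∈ W, ∃ x, ∀ j ∈ W.erase i, C j x = v j := by
    intro i hi
    exact h.exists_point (W.erase i) (by rw [Finset.card_erase_of_mem hi]; omega) v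
  have : Nonempty (Fin m → Fin n) := ⟨fun _ => ⟨0, by omega⟩⟩
  choose! p hp using hex
  -- `p i` disagrees with `v` at `i`
  have h1 : ∀ i ∈ W, C i (p i) ≠ v i := by
    intro i hi he
    have hsub : dis C (p i) v ∩ J ⊆ {j₀} := by
      intro j hj
      rw [Finset.mem_inter, mem_dis] at hj
      rw [Finset.mem_singleton]
      by_contra hne
      apply hj.1
      by_cases hji : j = i
      · rw [hji]; exact he
      · exact hp i hi j (Finset.mem_erase.2 ⟨hji, Finset.mem_erase.2 ⟨hne, hj.2⟩⟩)
    have := Finset.card_le_card hsub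
    rw [Finset.card_singleton] at this
    have := hcon (p i)
    omega
  have h2 : ∀ i ∈ W, C j₀ (p i) ≠ v j₀ := by
    intro i hi he
    have hsub : dis C (p i) v ∩ J ⊆ {i} := by
      intro j hj
      rw [Finset.mem_inter, mem_dis] at hj
      rw [Finset.mem_singleton]
      by_contra hne
      apply hj.1
      by_cases hjj : j = j₀
      · rw [hjj]; exact he
      · exact hp i hi j (Finset.mem_erase.2 ⟨hne, Finset.mem_erase.2 ⟨hjj, hj.2⟩⟩)
    have := Finset.card_le_card hsub
    rw [Finset.card_singleton] at this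
    have := hcon (p i)
    omega
  have hinj : Set.InjOn (fun i => C j₀ (p i)) (W : Set (Fin k)) := by
    intro i hi l hl hil
    have hi := Finset.mem_coe.1 hi
    have hl := Finset.mem_coe.1 hl
    simp only at hil
    by_contra hne
    have hpp : p i = p l := by
      refine h.eq_of_agree (insert j₀ ((W.erase i).erase l)) ?_ ?_
      · rw [Finset.card_insert_of_notMem, Finset.card_erase_of_mem, Finset.card_erase_of_mem hi]
        · have : 1 < W.card := Finset.one_lt_card.2 ⟨i, hi, l, hl, hne⟩
          omega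
        · exact Finset.mem_erase.2 ⟨fun h' => hne h'.symm, hl⟩
        · simp [hW]
      · intro j hj
        rcases Finset.mem_insert.1 hj with rfl | hj
        · exact hil
        · have hj1 := Finset.mem_of_mem_erase hj
          have hjl := Finset.ne_of_mem_erase hj
          rw [hp i hi j hj1, hp l hl j (Finset.mem_erase.2 ⟨hjl, Finset.mem_of_mem_erase hj1⟩)]
    apply h1 i hi
    rw [hpp]
    exact hp l hl i (Finset.mem_erase.2 ⟨hne, hi⟩)
  have hcard : W.card ≤ (Finset.univ.erase (v j₀)).card := by
    refine Finset.card_le_card_of_injOn (fun i => C j₀ (p i)) ?_ hinj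
    intro i hi
    simp only [Finset.coe_erase, Finset.coe_univ]
    exact ⟨trivial, h2 i hi⟩
  rw [Finset.card_erase_of_mem (Finset.mem_univ _), Finset.card_univ, Fintype.card_fin] at hcard
  omega

/-- divisibility condition for Steiner systems `S(t, t + 1, w)` -/
theorem steiner_dvd {α : Type*} [DecidableEq α] (V : Finset α) (t : ℕ) (r : Finset α → Finset α)
    (h1 : ∀ T ∈ V.powersetCard t, r T ⊆ V ∧ (r T).card = t + 1 ∧ T ⊆ r T)
    (h2 : ∀ T ∈ V.powersetCard t, ∀ T' ∈ V.powersetCard t, T' ⊆ r T → r T' = r T) :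
    (t + 1) ∣ V.card.choose t := by
  have hfib : ∀ X ∈ (V.powersetCard t).image r,
      ((V.powersetCard t).filter (fun T => r T = X)).card = t + 1 := by
    intro X hX
    obtain ⟨T, hT, rfl⟩ := Finset.mem_image.1 hX
    have heq : (V.powersetCard t).filter (fun T' => r T' = r T) = (r T).powersetCard t := by
      ext T'
      rw [Finset.mem_filter]
      constructor
      · rintro ⟨hT', he⟩
        refine Finset.mem_powersetCard.2 ⟨?_, (Finset.mem_powersetCard.1 hT').2⟩
        rw [← he]
        exact (h1 T' hT').2.2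
      · intro hh
        obtain ⟨hs, hc⟩ := Finset.mem_powersetCard.1 hh
        have hT' : T' ∈ V.powersetCard t := Finset.mem_powersetCard.2 ⟨hs.trans (h1 T hT).1, hc⟩
        exact ⟨hT', h2 T hT T' hT' hs⟩
    rw [heq, Finset.card_powersetCard, (h1 T hT).2.1, Nat.choose_succ_self_right]
  have hsum := Finset.card_eq_sum_card_image r (V.powersetCard t)
  rw [Finset.sum_congr rfl hfib, Finset.sum_const, smul_eq_mul, Finset.card_powersetCard] at hsum
  exact ⟨_, by rw [hsum, mul_comm]⟩

/-- the Steiner system of the points at distance `t + 1` from a word `v` -/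
theorem steiner (h : IsArray m n k C) (hmn : m + 1 = n) {t : ℕ} (hk : k = n + 1 + t)
    (v : Fin k → Fin n) (V : Finset (Fin k))
    (hV : ∀ x, ∀ T ⊆ V, T.card = t → (dis C x v ∩ Tᶜ).card ≤ 1 →
      t + 1 ≤ (dis C x v).card ∧ dis C x v ⊆ V) : (t + 1) ∣ V.card.choose t := by
  classical
  have hcompl : ∀ T : Finset (Fin k), T.card = t → (Tᶜ).card = n + 1 := by
    intro T hT
    rw [Finset.card_compl, Fintype.card_fin, hT]; omega
  have hex : ∀ T ∈ V.powersetCard t, ∃ x, (dis C x v ∩ Tᶜ).card ≤ 1 := by
    intro T hT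
    exact near_exists h hmn _ (hcompl T (Finset.mem_powersetCard.1 hT).2) v
  have : Nonempty (Fin m → Fin n) := ⟨fun _ => ⟨0, by omega⟩⟩
  choose! p hp using hex
  have key : ∀ T ∈ V.powersetCard t, dis C (p T) v ⊆ V ∧ (dis C (p T) v).card = t + 1 ∧
      T ⊆ dis C (p T) v := by
    intro T hT
    obtain ⟨hTV, hTc⟩ := Finset.mem_powersetCard.1 hT
    obtain ⟨h1, h2⟩ := hV (p T) T hTV hTc (hp T hT)
    have h3 : (dis C (p T) v ∩ T).card + (dis C (p T) v ∩ Tᶜ).card = (dis C (p T) v).card := by
      rw [← Finset.sdiff_eq_inter_compl, Finset.card_inter_add_card_sdiff]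
    have h4 := hp T hT
    have h5 : (dis C (p T) v ∩ T).card ≤ T.card := Finset.card_le_card Finset.inter_subset_right
    refine ⟨h2, by omega, ?_⟩
    have h6 : dis C (p T) v ∩ T = T :=
      Finset.eq_of_subset_of_card_le Finset.inter_subset_right (by omega)
    intro j hj
    rw [← h6] at hj
    exact (Finset.mem_inter.1 hj).1
  apply steiner_dvd V t (fun T => dis C (p T) v) key
  intro T hT T' hT' hs
  obtain ⟨h1, h2, h3⟩ := key T hT
  obtain ⟨hT'V, hT'c⟩ := Finset.mem_powersetCard.1 hT'
  have : p T' = p T := by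
    refine near_unique h T'ᶜ (by rw [hcompl T' hT'c]; omega) v (hp T' hT') ?_
    rw [← Finset.sdiff_eq_inter_compl, Finset.card_sdiff_of_subset hs]
    omega
  simp only [this]

/-- distinct points disagree on at least `k - m + 1` cubes -/
theorem card_diff (h : IsArray m n k C) {x y : Fin m → Fin n} (hxy : x ≠ y) :
    k + 1 ≤ m + (Finset.univ.filter (fun j => C j x ≠ C j y)).card := by
  have h1 := h.card_agree hxy
  have h2 : (agree C x y).card + (Finset.univ.filter (fun j => C j x ≠ C j y)).card = k := by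
    have := Finset.card_filter_add_card_filter_not (s := (Finset.univ : Finset (Fin k)))
      (fun j => C j x = C j y)
    rw [Finset.card_univ, Fintype.card_fin] at this
    exact this
  omega

/-- **First obstruction**: no `n + p` cubes if the prime `p` divides `n - 1`. -/
theorem no_prime (h : IsArray m n k C) (hmn : m + 1 = n) (hn : 2 ≤ n) {p : ℕ} (hp : p.Prime)
    (hpn : p ∣ n - 1) (hk : k = n + p) : False := by
  classical
  have hp2 := hp.two_le
  have h0 : (0 : ℕ) < n := by omega
  let x₀ : Fin m → Fin n := fun _ => ⟨0, h0⟩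
  have : Nontrivial (Fin n) := Fin.nontrivial_iff_two_le.2 hn
  let a : Fin k := ⟨0, by omega⟩
  let b : Fin k := ⟨1, by omega⟩
  have hab : a ≠ b := by
    intro h'
    have := congrArg Fin.val h'
    simp [a, b] at this
  obtain ⟨s, hs⟩ := exists_ne (C a x₀)
  obtain ⟨t, ht⟩ := exists_ne (C b x₀)
  let v : Fin k → Fin n := fun j => if j = a then s else if j = b then t else C j x₀
  have hva : v a = s := by simp [v]
  have hvb : v b = t := by simp [v, hab.symm]
  have hvo : ∀ j, j ≠ a → j ≠ b → v j = C j x₀ := by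
    intro j h1 h2; simp [v, h1, h2]
  have hd : dis C x₀ v = {a, b} := by
    ext j
    rw [mem_dis, Finset.mem_insert, Finset.mem_singleton]
    constructor
    · intro h1
      by_contra h2
      push Not at h2
      exact h1 (hvo j h2.1 h2.2).symm
    · rintro (rfl | rfl)
      · rw [hva]; exact hs.symm
      · rw [hvb]; exact ht.symm
  set V : Finset (Fin k) := {a, b}ᶜ with hV
  have hVc : V.card = n + p - 2 := by
    rw [hV, Finset.card_compl, Fintype.card_fin, Finset.card_pair hab, hk]
  have hmain : (p - 1 + 1) ∣ V.card.choose (p - 1) := by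
    apply steiner h hmn (t := p - 1) (by omega) v V
    intro x T hTV hTc hx
    have hxx : x ≠ x₀ := by
      rintro rfl
      rw [hd] at hx
      have h1 : ({a, b} : Finset (Fin k)) ∩ Tᶜ = {a, b} := by
        apply Finset.inter_eq_left.2
        intro j hj
        rw [Finset.mem_compl]
        intro hjT
        have := hTV hjT
        rw [hV, Finset.mem_compl] at this
        exact this hj
      rw [h1, Finset.card_pair hab] at hx
      omega
    have h1 := card_diff h hxx
    have h2 : Finset.univ.filter (fun j => C j x ≠ C j x₀) ⊆ dis C x v ∪ {a, b} := by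
      intro j hj
      rw [Finset.mem_filter] at hj
      rw [Finset.mem_union, mem_dis, ← hd, mem_dis]
      by_contra hcon
      push Not at hcon
      exact hj.2 (hcon.1.trans hcon.2.symm)
    have h3 := Finset.card_le_card h2
    have h4 : (dis C x v ∩ T).card + (dis C x v ∩ Tᶜ).card = (dis C x v).card := by
      rw [← Finset.sdiff_eq_inter_compl, Finset.card_inter_add_card_sdiff]
    have h5 : (dis C x v ∩ T).card ≤ T.card := Finset.card_le_card Finset.inter_subset_right
    have h6 := Finset.card_union_add_card_inter (dis C x v) ({a, b} : Finset (Fin k))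
    rw [Finset.card_pair hab] at h6
    refine ⟨by omega, ?_⟩
    have h7 : dis C x v ∩ {a, b} = ∅ := by
      rw [← Finset.card_eq_zero]; omega
    intro j hj
    rw [hV, Finset.mem_compl]
    intro hj'
    have : j ∈ dis C x v ∩ {a, b} := Finset.mem_inter.2 ⟨hj, hj'⟩
    rw [h7] at this
    simp at this
  rw [hVc, Nat.sub_add_cancel hp.one_le] at hmain
  exact Pool.Agent.H72R3.VC.choose_not_dvd hp hn hpn hmain

/-- a word at distance at least three from all points -/
theorem far_word (C : Fin k → (Fin m → Fin n) → Fin n) (hk : k = m + 4) (hn : m + 1 = n)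
    (h7 : 7 ≤ n) : ∃ v : Fin k → Fin n, ∀ x, 3 ≤ (dis C x v).card := by
  classical
  by_contra hcon
  push Not at hcon
  let B : (Fin m → Fin n) × Finset (Fin k) → Finset (Fin k → Fin n) := fun q =>
    Fintype.piFinset (fun j => if j ∈ q.2 then Finset.univ else {C j q.1})
  have hcov : (Finset.univ : Finset (Fin k → Fin n)) ⊆
      (Finset.univ ×ˢ (Finset.univ : Finset (Fin k)).powersetCard 2).biUnion B := by
    intro v _
    obtain ⟨x, hx⟩ := hcon v
    obtain ⟨P, hP1, hP2, hP3⟩ := Finset.exists_subsuperset_card_eq (s := dis C x v)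
      (t := Finset.univ) (n := 2) (Finset.subset_univ _) (by omega) (by
        rw [Finset.card_univ, Fintype.card_fin]; omega)
    rw [Finset.mem_biUnion]
    refine ⟨(x, P), ?_, ?_⟩
    · rw [Finset.mem_product]
      exact ⟨Finset.mem_univ _, Finset.mem_powersetCard.2 ⟨Finset.subset_univ _, hP3⟩⟩
    · rw [Fintype.mem_piFinset]
      intro j
      by_cases hj : j ∈ P
      · simp [hj]
      · simp only [hj, if_false, Finset.mem_singleton]
        by_contra hne
        exact hj (hP1 (mem_dis.2 fun h' => hne h'.symm))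
  have hBc : ∀ q ∈ (Finset.univ ×ˢ (Finset.univ : Finset (Fin k)).powersetCard 2 :
      Finset ((Fin m → Fin n) × Finset (Fin k))), (B q).card = n ^ 2 := by
    intro q hq
    rw [Finset.mem_product, Finset.mem_powersetCard] at hq
    simp only [B, Fintype.card_piFinset]
    have : ∀ j : Fin k, (if j ∈ q.2 then (Finset.univ : Finset (Fin n)) else {C j q.1}).card =
        if j ∈ q.2 then n else 1 := by
      intro j; split_ifs <;> simp
    simp only [this]
    rw [Finset.prod_ite_mem, Finset.univ_inter, Finset.prod_const, hq.2.2]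
  have h1 := Finset.card_le_card hcov
  have h2 := Finset.card_biUnion_le (s := (Finset.univ ×ˢ (Finset.univ : Finset (Fin k)).powersetCard 2 :
      Finset ((Fin m → Fin n) × Finset (Fin k)))) (t := B)
  rw [Finset.sum_congr rfl hBc, Finset.sum_const, smul_eq_mul, Finset.card_product,
    Finset.card_powersetCard, Finset.card_univ, Finset.card_univ, Fintype.card_fin] at h2
  rw [Finset.card_univ] at h1
  simp only [Fintype.card_fun, Fintype.card_fin] at h1 h2
  have h3 := h1.trans h2
  rw [hk, pow_add] at h3
  have h4 : 0 < n ^ m := pow_pos (by omega) _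
  have h5 : n ^ 4 ≤ (m + 4).choose 2 * n ^ 2 := by
    have : n ^ m * n ^ 4 ≤ n ^ m * ((m + 4).choose 2 * n ^ 2) := by
      calc _ ≤ _ := h3
        _ = _ := by ring
    exact Nat.le_of_mul_le_mul_left this h4
  have h6 : n ^ 2 ≤ (m + 4).choose 2 := by
    have h7' : 0 < n ^ 2 := by positivity
    have : n ^ 2 * n ^ 2 ≤ (m + 4).choose 2 * n ^ 2 := by
      calc n ^ 2 * n ^ 2 = n ^ 4 := by ring
        _ ≤ _ := h5
    exact Nat.le_of_mul_le_mul_right this h7'
  rw [Nat.choose_two_right] at h6
  obtain ⟨d, rfl⟩ : ∃ d, m = d + 6 := ⟨m - 6, by omega⟩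
  subst hn
  have h8 : 2 * (d + 6 + 1) ^ 2 ≤ (d + 6 + 4) * (d + 6 + 4 - 1) := by
    have := Nat.div_mul_le_self ((d + 6 + 4) * (d + 6 + 4 - 1)) 2
    omega
  rw [show d + 6 + 4 - 1 = d + 9 by omega] at h8
  nlinarith

/-- **Second obstruction**: no `n + 3` cubes if `n ≡ 2 mod 3`, `n ≥ 7`. -/
theorem no_three (h : IsArray m n k C) (hmn : m + 1 = n) (h7 : 7 ≤ n) (h3 : n % 3 = 2)
    (hk : k = n + 3) : False := by
  classical
  obtain ⟨v, hv⟩ := far_word C (by omega) hmn h7
  have hmain := steiner h hmn (t := 2) (by omega) v Finset.univ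
    (fun x T _ _ _ => ⟨hv x, Finset.subset_univ _⟩)
  rw [Finset.card_univ, Fintype.card_fin, Nat.choose_two_right, hk] at hmain
  obtain ⟨d, hd⟩ : ∃ d, n = 3 * d + 2 := ⟨n / 3, by omega⟩
  subst hd
  obtain ⟨c, hc⟩ := hmain
  have he : (3 * d + 2 + 3) * (3 * d + 2 + 3 - 1) % 2 = 0 := by
    rw [show 3 * d + 2 + 3 - 1 = 3 * d + 4 by omega]
    have := Nat.even_mul_succ_self (3 * d + 4)
    rw [Nat.even_iff] at this
    rw [mul_comm]
    exact this
  have h1 : (3 * d + 2 + 3) * (3 * d + 2 + 3 - 1) = 2 * (3 * c) := by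
    omega
  rw [show 3 * d + 2 + 3 - 1 = 3 * d + 4 by omega] at h1
  have h2 : (3 * d + 2 + 3) * (3 * d + 4) % 3 = 2 := by
    have : (3 * d + 2 + 3) * (3 * d + 4) = 3 * (3 * d * d + 9 * d + 6) + 2 := by ring
    rw [this]; omega
  rw [h1] at h2
  omega

/-- fewer cubes -/
theorem IsArray.restrict (h : IsArray m n k C) {k' : ℕ} (hk : k' ≤ k) :
    IsArray m n k' (fun i => C (Fin.castLE hk i)) := by
  intro e he
  exact h (fun i => Fin.castLE hk (e i)) ((Fin.castLE_injective hk).comp he)

/-- **Upper bounds in dimension `n - 1`.** -/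
theorem upper (h : IsArray m n k C) (hmn : m + 1 = n) (hn : 3 ≤ n) :
    (∀ p : ℕ, p.Prime → p ∣ n - 1 → k ≤ n + p - 1) ∧ (n % 3 = 2 → k ≤ n + 2) := by
  have h1 : ∀ p : ℕ, p.Prime → p ∣ n - 1 → k ≤ n + p - 1 := by
    intro p hp hpn
    by_contra hcon
    have hp2 := hp.two_le
    exact no_prime (IsArray.restrict h (k' := n + p) (by omega)) hmn (by omega) hp hpn rfl
  refine ⟨h1, ?_⟩
  intro h3
  by_cases h7 : 7 ≤ n
  · by_contra hcon
    exact no_three (IsArray.restrict h (k' := n + 3) (by omega)) hmn h7 h3 rfl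
  · have h5 : n = 5 := by omega
    have := h1 2 Nat.prime_two (by subst h5; decide)
    omega

end Pool.Agent.H625R3.PC
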