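import Pool.Agent.H430R2.PermCubes.General

set_option autoImplicit false

/-!
# `q + 2` cubes of dimension `q - 1` for even `q ≥ 8`

The array is the dual of the code of a regular hyperoval.
-/

namespace Pool.Agent.H625R3.PC

open Pool.Agent.H430R2.PermCubes Function

variable {F : Type} [Field F] [Fintype F]

/-- the `q + 2` functionals on functions `F → F`: the values and two moments -/
def ev (c : Option (Option F)) : (F → F) →ₗ[F] F :=
  match c with
  | some (some y) => LinearMap.proj y
  | some none => ∑ x : F, (x ^ 2) • LinearMap.proj x
  | none => ∑ x : F, x • LinearMap.proj x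

theorem ev_none (g : F → F) : ev none g = ∑ x, x * g x := by
  simp [ev]

theorem ev_some_none (g : F → F) : ev (some none) g = ∑ x, x ^ 2 * g x := by
  simp [ev]

theorem ev_some_some (y : F) (g : F → F) : ev (some (some y)) g = g y := by
  simp [ev]

/-- the functions with sum zero -/
def V (F : Type) [Field F] [Fintype F] : Submodule F (F → F) :=
  LinearMap.ker (∑ x : F, (LinearMap.proj x : (F → F) →ₗ[F] F))

theorem mem_V {g : F → F} : g ∈ V F ↔ ∑ x, g x = 0 := by
  simp [V]

/-- the words of full weight -/
def full (F : Type) [Field F] [Fintype F] : Set (F → F) :=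
  {g | g ∈ V F ∧ ∀ c, ev c g ≠ 0}

theorem finrank_V : Module.finrank F (V F) = Fintype.card F - 1 := by
  classical
  have h := LinearMap.finrank_range_add_finrank_ker
    (∑ x : F, (LinearMap.proj x : (F → F) →ₗ[F] F))
  have hs : Surjective (∑ x : F, (LinearMap.proj x : (F → F) →ₗ[F] F) :
      (F → F) →ₗ[F] F) := by
    intro y
    refine ⟨Pi.single 0 y, ?_⟩
    simp
  rw [LinearMap.range_eq_top.2 hs, finrank_top, Module.finrank_self,
    Module.finrank_fintype_fun_eq_card] at h
  have : Module.finrank F (V F) =
    Module.finrank F (LinearMap.ker (∑ x : F, (LinearMap.proj x : (F → F) →ₗ[F] F))) := rfl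
  omega

theorem full_exists (h2 : (2 : F) = 0) (hq : 8 ≤ Fintype.card F) : ∃ g, g ∈ full F := by
  classical
  obtain ⟨s, hs⟩ : ∃ s : F, s ∉ ({0, 1} : Finset F) := by
    by_contra hcon
    push Not at hcon
    have := Finset.card_le_card (fun x _ => hcon x : (Finset.univ : Finset F) ⊆ {0, 1})
    have h5 : ({0, 1} : Finset F).card ≤ 2 := Finset.card_le_two
    rw [Finset.card_univ] at this
    omega
  have hs0 : s ≠ 0 := by rintro rfl; simp at hs
  have hs1 : s ≠ 1 := by rintro rfl; simp at hs
  have hcard : (Fintype.card F : F) = 0 := FiniteField.cast_card_eq_zero F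
  have e1 : ∑ x : F, x = 0 := by
    have := FiniteField.sum_pow_lt_card_sub_one F 1 (by omega)
    simpa using this
  have e2 : ∑ x : F, x ^ 2 = 0 := FiniteField.sum_pow_lt_card_sub_one F 2 (by omega)
  have key : ∀ φ : F → F, ∑ x, φ x * (1 + Pi.single (M := fun _ => F) 0 s x +
      Pi.single (M := fun _ => F) 1 s x) = ∑ x, φ x + (φ 0 * s + φ 1 * s) := by
    intro φ
    simp only [mul_add, Finset.sum_add_distrib, mul_one]
    have : ∀ a : F, ∑ x, φ x * Pi.single (M := fun _ => F) a s x = φ a * s := by
      intro a
      rw [Finset.sum_eq_single a]
      · simp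
      · intro b _ hb
        simp [Pi.single_eq_of_ne hb]
      · intro h; exact absurd (Finset.mem_univ a) h
    rw [this, this]; ring
  refine ⟨fun x => 1 + Pi.single (M := fun _ => F) 0 s x + Pi.single (M := fun _ => F) 1 s x,
    ?_, ?_⟩
  · rw [mem_V]
    have := key (fun _ => 1)
    simp only [one_mul, Finset.sum_const, Finset.card_univ, nsmul_eq_mul, mul_one, hcard] at this
    rw [this]
    linear_combination s * h2
  · intro c
    rcases c with _ | c
    · rw [ev_none, key (fun x => x), e1]
      simpa using hs0
    rcases c with _ | y
    · rw [ev_some_none, key (fun x => x ^ 2), e2]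
      simpa using hs0
    · rw [ev_some_some]
      by_cases hy0 : y = 0
      · subst hy0
        rw [Pi.single_eq_same, Pi.single_eq_of_ne zero_ne_one]
        intro h
        apply hs1
        linear_combination h - h2
      · by_cases hy1 : y = 1
        · subst hy1
          rw [Pi.single_eq_same, Pi.single_eq_of_ne one_ne_zero]
          intro h
          apply hs1
          linear_combination h - h2
        · rw [Pi.single_eq_of_ne hy0, Pi.single_eq_of_ne hy1]
          simp

theorem single_sub_mem (h2 : (2 : F) = 0) (hq : 8 ≤ Fintype.card F) [DecidableEq F] {a b : F}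
    (hab : a ≠ b) :
    (Pi.single (M := fun _ => F) a 1 - Pi.single (M := fun _ => F) b 1 : F → F) ∈
      Submodule.span F (full F) := by
  obtain ⟨g, hg⟩ := full_exists h2 hq
  have hg0 := hg.1
  rw [mem_V] at hg0
  have hab' : a - b ≠ 0 := sub_ne_zero.2 hab
  have hab2 : a ^ 2 - b ^ 2 ≠ 0 := by
    intro h
    apply hab'
    have : (a - b) ^ 2 = 0 := by linear_combination h + (b ^ 2 - a * b) * h2
    exact pow_eq_zero_iff (two_ne_zero) |>.1 this
  obtain ⟨s, hs⟩ : ∃ s : F, s ∉ ({0, -(g a), g b, -(ev none g) / (a - b),
      -(ev (some none) g) / (a ^ 2 - b ^ 2)} : Finset F) := by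
    by_contra hcon
    push Not at hcon
    have h1 := Finset.card_le_card (fun x _ => hcon x : (Finset.univ : Finset F) ⊆ _)
    have h5 : ({0, -(g a), g b, -(ev none g) / (a - b),
      -(ev (some none) g) / (a ^ 2 - b ^ 2)} : Finset F).card ≤ 5 := Finset.card_le_five
    rw [Finset.card_univ] at h1
    omega
  simp only [Finset.mem_insert, Finset.mem_singleton, not_or] at hs
  obtain ⟨hs0, hs1, hs2, hs3, hs4⟩ := hs
  set d : F → F := Pi.single (M := fun _ => F) a 1 - Pi.single (M := fun _ => F) b 1 with hd
  have hsum : ∀ φ : F → F, ∑ x, φ x * d x = φ a - φ b := by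
    intro φ
    have : ∀ a : F, ∑ x, φ x * Pi.single (M := fun _ => F) a 1 x = φ a := by
      intro a
      rw [Finset.sum_eq_single a]
      · simp
      · intro b _ hb
        simp [Pi.single_eq_of_ne hb]
      · intro h; exact absurd (Finset.mem_univ a) h
    simp only [hd, Pi.sub_apply, mul_sub, Finset.sum_sub_distrib]
    rw [this, this]
  have hd1 : ev none d = a - b := by rw [ev_none]; exact hsum (fun x => x)
  have hd2 : ev (some none) d = a ^ 2 - b ^ 2 := by
    rw [ev_some_none]; exact hsum (fun x => x ^ 2)
  have hd0 : ∑ x, d x = 0 := by
    have := hsum (fun _ => 1)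
    simpa using this
  have hmem : g + s • d ∈ full F := by
    refine ⟨?_, ?_⟩
    · rw [mem_V]
      simp only [Pi.add_apply, Pi.smul_apply, smul_eq_mul, Finset.sum_add_distrib,
        ← Finset.mul_sum, hd0, hg0]
      ring
    · intro c
      rw [map_add, map_smul, smul_eq_mul]
      rcases c with _ | c
      · rw [hd1]
        intro h
        apply hs3
        field_simp
        linear_combination h
      rcases c with _ | y
      · rw [hd2]
        intro h
        apply hs4
        field_simp
        linear_combination h
      · rw [ev_some_some, ev_some_some]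
        have hgy : g y ≠ 0 := by
          have := hg.2 (some (some y))
          rwa [ev_some_some] at this
        by_cases hya : y = a
        · subst hya
          have : d y = 1 := by simp [hd, Pi.single_eq_of_ne hab]
          rw [this]
          intro h
          apply hs1
          linear_combination h
        · by_cases hyb : y = b
          · subst hyb
            have : d y = -1 := by simp [hd, Pi.single_eq_of_ne hya]
            rw [this]
            intro h
            apply hs2
            linear_combination -h
          · have : d y = 0 := by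
              simp [hd, Pi.single_eq_of_ne hya, Pi.single_eq_of_ne hyb]
            rw [this]
            simpa using hgy
  have h1 : s • d ∈ Submodule.span F (full F) := by
    have : s • d = (g + s • d) - g := by abel
    rw [this]
    exact Submodule.sub_mem _ (Submodule.subset_span hmem) (Submodule.subset_span hg)
  have h3 : d = s⁻¹ • (s • d) := by rw [smul_smul, inv_mul_cancel₀ hs0, one_smul]
  rw [h3]
  exact Submodule.smul_mem _ _ h1

theorem span_full (h2 : (2 : F) = 0) (hq : 8 ≤ Fintype.card F) :
    Submodule.span F (full F) = V F := by
  classical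
  apply le_antisymm
  · exact Submodule.span_le.2 fun g hg => hg.1
  · intro g hg
    rw [mem_V] at hg
    have h : g = ∑ x, g x • (Pi.single (M := fun _ => F) x 1 -
        Pi.single (M := fun _ => F) 0 1 : F → F) := by
      funext y
      rw [Finset.sum_apply]
      simp only [Pi.smul_apply, Pi.sub_apply, smul_eq_mul, mul_sub, Finset.sum_sub_distrib,
        ← Finset.sum_mul, hg, zero_mul, sub_zero]
      rw [Finset.sum_eq_single y]
      · simp
      · intro b _ hb
        simp [Pi.single_eq_of_ne hb.symm]
      · intro h; exact absurd (Finset.mem_univ y) h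
    rw [h]
    apply Submodule.sum_mem
    intro x _
    apply Submodule.smul_mem
    by_cases hx : x = 0
    · subst hx; simp
    · exact single_sub_mem h2 hq hx

theorem sum_supp {g : F → F} (S : Finset F) (hS : ∀ y ∉ S, g y = 0) (φ : F → F) :
    ∑ x, φ x * g x = ∑ x ∈ S, φ x * g x := by
  symm
  apply Finset.sum_subset (Finset.subset_univ _)
  intro x _ hx
  rw [hS x hx, mul_zero]

theorem det (h2 : (2 : F) = 0) {m : ℕ} (hm : m + 1 = Fintype.card F)
    (e : Fin m → Option (Option F)) (he : Injective e) (g : F → F) (hg : g ∈ V F)
    (h : ∀ i, ev (e i) g = 0) : g = 0 := by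
  classical
  rw [mem_V] at hg
  have hgg : ∑ x, (1 : F) * g x = 0 := by simpa using hg
  set I : Finset (Option (Option F)) := Finset.univ.image e with hI
  have hIc : I.card = m := by
    rw [hI, Finset.card_image_of_injective _ he, Finset.card_univ, Fintype.card_fin]
  have hev : ∀ c ∈ I, ev c g = 0 := by
    intro c hc
    obtain ⟨i, -, rfl⟩ := Finset.mem_image.1 hc
    exact h i
  set S : Finset F := Finset.univ.filter (fun y => some (some y) ∉ I) with hSdef
  have hS : ∀ y ∉ S, g y = 0 := by
    intro y hy
    rw [hSdef, Finset.mem_filter] at hy
    push Not at hy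
    have := hev _ (hy (Finset.mem_univ _))
    rwa [ev_some_some] at this
  -- the size of S
  have hSc : S.card + m = Fintype.card F + ((I ∩ {none, some none}).card) := by
    have h1 : (Finset.univ.filter (fun y : F => some (some y) ∈ I)).card + S.card =
        Fintype.card F := by
      rw [hSdef, Finset.card_filter_add_card_filter_not, Finset.card_univ]
    have h3 : (Finset.univ.filter (fun y : F => some (some y) ∈ I)).card +
        (I ∩ {none, some none}).card = I.card := by
      have h4 : (Finset.univ.filter (fun y : F => some (some y) ∈ I)).card =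
          (I \ {none, some none}).card := by
        rw [← Finset.card_image_of_injective (f := fun y : F => some (some y))
          (Finset.univ.filter (fun y : F => some (some y) ∈ I))
          (fun y z hyz => Option.some_injective _ (Option.some_injective _ hyz))]
        congr 1
        ext c
        rw [Finset.mem_image, Finset.mem_sdiff]
        constructor
        · rintro ⟨y, hy, rfl⟩
          rw [Finset.mem_filter] at hy
          exact ⟨hy.2, by simp⟩
        · rintro ⟨hc, hc'⟩
          rcases c with _ | c
          · simp at hc'
          rcases c with _ | y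
          · simp at hc'
          · exact ⟨y, by simpa using hc, rfl⟩
      rw [h4, add_comm]
      exact Finset.card_inter_add_card_sdiff I {none, some none}
    omega
  have hz : ∀ S' : Finset F, S = S' → (∀ y ∈ S', g y = 0) → g = 0 := by
    rintro S' rfl h'
    funext y
    by_cases hy : y ∈ S
    · exact h' y hy
    · exact hS y hy
  by_cases ha : (none : Option (Option F)) ∈ I
  · have hA := hev _ ha
    rw [ev_none, sum_supp S hS] at hA
    rw [sum_supp S hS] at hgg
    by_cases hb : (some none : Option (Option F)) ∈ I
    · have hB := hev _ hb
      rw [ev_some_none, sum_supp S hS] at hB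
      have hc : (I ∩ {none, some none}).card = 2 := by
        rw [Finset.inter_eq_right.2 (by
          intro c hc
          rcases Finset.mem_insert.1 hc with rfl | hc
          · exact ha
          · rw [Finset.mem_singleton.1 hc]; exact hb)]
        rw [Finset.card_pair (by simp)]
      obtain ⟨a, b, c, hab, hac, hbc, hSe⟩ := Finset.card_eq_three.1 (show S.card = 3 by omega)
      rw [hSe, Finset.sum_insert (by simp [hab, hac]), Finset.sum_pair hbc] at hgg hA hB
      have k1 : (a - b) * (a - c) * g a = 0 := by
        linear_combination hB - (b + c) * hA + b * c * hgg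
      have k2 : (b - a) * (b - c) * g b = 0 := by
        linear_combination hB - (a + c) * hA + a * c * hgg
      have k3 : (c - a) * (c - b) * g c = 0 := by
        linear_combination hB - (a + b) * hA + a * b * hgg
      have n1 := (mul_eq_zero.1 k1).resolve_left (mul_ne_zero (sub_ne_zero.2 hab)
        (sub_ne_zero.2 hac))
      have n2 := (mul_eq_zero.1 k2).resolve_left (mul_ne_zero (sub_ne_zero.2 hab.symm)
        (sub_ne_zero.2 hbc))
      have n3 := (mul_eq_zero.1 k3).resolve_left (mul_ne_zero (sub_ne_zero.2 hac.symm)
        (sub_ne_zero.2 hbc.symm))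
      apply hz _ hSe
      intro y hy
      simp only [Finset.mem_insert, Finset.mem_singleton] at hy
      rcases hy with rfl | rfl | rfl
      · exact n1
      · exact n2
      · exact n3
    · have hc : (I ∩ {none, some none}).card = 1 := by
        have : I ∩ {none, some none} = {none} := by
          ext c
          simp only [Finset.mem_inter, Finset.mem_insert, Finset.mem_singleton]
          constructor
          · rintro ⟨h1, rfl | rfl⟩
            · rfl
            · exact absurd h1 hb
          · rintro rfl; exact ⟨ha, Or.inl rfl⟩
        rw [this, Finset.card_singleton]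
      obtain ⟨a, b, hab, hSe⟩ := Finset.card_eq_two.1 (show S.card = 2 by omega)
      rw [hSe, Finset.sum_pair hab] at hgg hA
      have k1 : (a - b) * g a = 0 := by linear_combination hA - b * hgg
      have k2 : (b - a) * g b = 0 := by linear_combination hA - a * hgg
      have n1 := (mul_eq_zero.1 k1).resolve_left (sub_ne_zero.2 hab)
      have n2 := (mul_eq_zero.1 k2).resolve_left (sub_ne_zero.2 hab.symm)
      apply hz _ hSe
      intro y hy
      simp only [Finset.mem_insert, Finset.mem_singleton] at hy
      rcases hy with rfl | rfl
      · exact n1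
      · exact n2
  · rw [sum_supp S hS] at hgg
    by_cases hb : (some none : Option (Option F)) ∈ I
    · have hB := hev _ hb
      rw [ev_some_none, sum_supp S hS] at hB
      have hc : (I ∩ {none, some none}).card = 1 := by
        have : I ∩ {none, some none} = {some none} := by
          ext c
          simp only [Finset.mem_inter, Finset.mem_insert, Finset.mem_singleton]
          constructor
          · rintro ⟨h1, rfl | rfl⟩
            · exact absurd h1 ha
            · rfl
          · rintro rfl; exact ⟨hb, Or.inr rfl⟩
        rw [this, Finset.card_singleton]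
      obtain ⟨a, b, hab, hSe⟩ := Finset.card_eq_two.1 (show S.card = 2 by omega)
      rw [hSe, Finset.sum_pair hab] at hgg hB
      have hne : ∀ {a b : F}, a ≠ b → a ^ 2 - b ^ 2 ≠ 0 := by
        intro a b hab h
        have : (a - b) ^ 2 = 0 := by linear_combination h + (b ^ 2 - a * b) * h2
        exact sub_ne_zero.2 hab (pow_eq_zero_iff (two_ne_zero) |>.1 this)
      have k1 : (a ^ 2 - b ^ 2) * g a = 0 := by linear_combination hB - b ^ 2 * hgg
      have k2 : (b ^ 2 - a ^ 2) * g b = 0 := by linear_combination hB - a ^ 2 * hgg
      have n1 := (mul_eq_zero.1 k1).resolve_left (hne hab)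
      have n2 := (mul_eq_zero.1 k2).resolve_left (hne hab.symm)
      apply hz _ hSe
      intro y hy
      simp only [Finset.mem_insert, Finset.mem_singleton] at hy
      rcases hy with rfl | rfl
      · exact n1
      · exact n2
    · have hc : (I ∩ {none, some none}).card = 0 := by
        rw [Finset.card_eq_zero]
        ext c
        simp only [Finset.mem_inter, Finset.mem_insert, Finset.mem_singleton]
        constructor
        · rintro ⟨h1, rfl | rfl⟩
          · exact absurd h1 ha
          · exact absurd h1 hb
        · intro h; simp at h
      obtain ⟨a, hSe⟩ := Finset.card_eq_one.1 (show S.card = 1 by omega)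
      rw [hSe, Finset.sum_singleton, one_mul] at hgg
      apply hz _ hSe
      intro y hy
      rw [Finset.mem_singleton.1 hy]
      exact hgg

/-- **Characteristic two**: `q + 2` cubes of dimension `q - 1` for `q ≥ 8`. -/
theorem varOver_dual (h2 : (2 : F) = 0) (hq : 8 ≤ Fintype.card F) {m : ℕ}
    (hm : m + 1 = Fintype.card F) : VarOver m F (Option (Option F)) := by
  classical
  obtain ⟨b, hbS, hbspan, hbli⟩ := exists_linearIndependent F (full F)
  have hspan : Submodule.span F b = V F := by rw [hbspan]; exact span_full h2 hq
  have hrank : Module.rank F (Submodule.span F b) = Cardinal.mk b := rank_span_set hbli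
  have hrank2 : Module.rank F (V F) = m := by
    rw [← Module.finrank_eq_rank, finrank_V, ← hm]; simp
  rw [hspan, hrank2] at hrank
  have : Cardinal.mk (Fin m) = Cardinal.mk b := by rw [Cardinal.mk_fin, hrank]
  obtain ⟨eqv⟩ := Cardinal.eq.1 this
  refine VarOver.linear (P := F → F) ev (fun i => (eqv i : F → F)) ?_ ?_ ?_
  · exact hbli.comp eqv eqv.injective
  · intro c j
    exact (hbS (eqv j).2).2 c
  · intro e he v hv hz
    apply det h2 hm e he v _ hz
    rw [← hspan]
    refine Submodule.span_mono ?_ hv
    rintro _ ⟨j, rfl⟩
    exact (eqv j).2

/-- `q + 2` cubes of dimension `q - 1` for even prime powers `q ≥ 4` -/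
theorem dual_even {q m : ℕ} (hq : IsPrimePow q) (heven : q % 2 = 0) (h4 : 4 ≤ q)
    (hm : m + 1 = q) :
    ∃ C : Fin (q + 2) → (Fin m → Fin q) → Fin q, IsVariationalSet m q (q + 2) C := by
  by_cases h44 : q = 4
  · subst h44
    have : m = 3 := by omega
    subst this
    exact three_even hq heven h4
  · have h8 : 8 ≤ q := by
      obtain ⟨p, e, hp, he, rfl⟩ := hq
      have hp' := hp.nat_prime
      have h2p : 2 ∣ p ^ e := Nat.dvd_of_mod_eq_zero heven
      have hp2 : p = 2 := ((Nat.prime_dvd_prime_iff_eq Nat.prime_two hp').1
        (Nat.prime_two.dvd_of_dvd_pow h2p)).symm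
      subst hp2
      have he3 : 3 ≤ e := by
        by_contra hcon
        have : e = 1 ∨ e = 2 := by omega
        rcases this with rfl | rfl
        · norm_num at h4
        · exact h44 (by norm_num)
      calc 8 = 2 ^ 3 := by norm_num
        _ ≤ 2 ^ e := Nat.pow_le_pow_right (by norm_num) he3
    obtain ⟨F, hF, hFt, hc⟩ := exists_field hq
    have h2 : (2 : F) = 0 := by
      rw [two_eq_zero_iff, hc]; omega
    exact (varOver_dual h2 (by omega) (m := m) (by omega)).toFin (Fintype.equivFinOfCardEq hc)
      (Fintype.equivFinOfCardEq (by rw [Fintype.card_option, Fintype.card_option, hc]))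

end Pool.Agent.H625R3.PC
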