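import Pool.Agent.H625R3.PC1
import Pool.Agent.H625R3.PC2
import Pool.Agent.H430R2.PermCubes.Two

set_option autoImplicit false

/-!
# `π_{q-1}(q)` for prime powers, and all values for orders at most five
-/

namespace Pool.Agent.H625R3.PC

open Pool.Agent.H430R2.PermCubes Function

theorem isPi_dual {q m : ℕ} (hq : IsPrimePow q) (h4 : 4 ≤ q) (hm : m + 1 = q) :
    IsPi m q (if q % 2 = 1 then q + 1 else q + 2) := by
  by_cases hodd : q % 2 = 1
  · rw [if_pos hodd]
    refine ⟨varOver_primePow hq (by omega) (by omega) (by omega), ?_⟩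
    rintro k ⟨C, hC⟩
    have := (upper (n := q) hC.2 hm (by omega)).1 2 Nat.prime_two (by omega)
    omega
  · rw [if_neg hodd]
    refine ⟨dual_even hq (by omega) h4 hm, ?_⟩
    rintro k ⟨C, hC⟩
    have hu := upper (n := q) hC.2 hm (by omega)
    by_cases h2 : q % 3 = 2
    · exact hu.2 h2
    · have h3 : q % 3 ≠ 0 := by
        intro h3
        obtain ⟨p, e, hp, he, rfl⟩ := hq
        have hp' := hp.nat_prime
        have h2p : 2 ∣ p ^ e := Nat.dvd_of_mod_eq_zero (by omega)
        have h3p : 3 ∣ p ^ e := Nat.dvd_of_mod_eq_zero h3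
        have e2 := (Nat.prime_dvd_prime_iff_eq Nat.prime_two hp').1
          (Nat.prime_two.dvd_of_dvd_pow h2p)
        have e3 := (Nat.prime_dvd_prime_iff_eq Nat.prime_three hp').1
          (Nat.prime_three.dvd_of_dvd_pow h3p)
        omega
      have := hu.1 3 Nat.prime_three (by omega)
      omega

/-- mutually orthogonal latin squares: the upper bound -/
theorem two_dim_le {n k : ℕ} (hn : 2 ≤ n) {C : Fin k → (Fin 2 → Fin n) → Fin n}
    (h : IsVariationalSet 2 n k C) : k ≤ n - 1 := by
  classical
  by_cases hk : k ≤ 1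
  · omega
  let z : Fin n := ⟨0, by omega⟩
  let w : Fin n := ⟨1, by omega⟩
  have hzw : z ≠ w := by
    intro h'
    have := congrArg Fin.val h'
    simp [z, w] at this
  have hup : ∀ a b t : Fin n, update ![a, b] 1 t = ![a, t] := by
    intro a b t; funext i; fin_cases i <;> simp
  have hup0 : ∀ a b t : Fin n, update ![a, b] 0 t = ![t, b] := by
    intro a b t; funext i; fin_cases i <;> simp
  have hex : ∀ i : Fin k, ∃ y, C i ![w, y] = C i ![z, z] := by
    intro i
    obtain ⟨y, hy⟩ := (h.1 i 1 ![w, z]).2 (C i ![z, z])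
    simp only [hup] at hy
    exact ⟨y, hy⟩
  choose y hy using hex
  have hyz : ∀ i, y i ≠ z := by
    intro i hi
    have h1 := hy i
    rw [hi] at h1
    have h2 := (h.1 i 0 ![z, z]).1
    have h3 : (fun t => C i (update ![z, z] 0 t)) w = (fun t => C i (update ![z, z] 0 t)) z := by
      simp only [hup0]
      exact h1
    exact hzw (h2 h3).symm
  have hinj : Injective y := by
    intro i j hij
    by_contra hne
    let e : Fin 2 → Fin k := ![i, j]
    have he : Injective e := by
      intro a b hab
      fin_cases a <;> fin_cases b <;> simp_all [e]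
    have h1 := (h.2 e he).1
    have h2 : (![w, y i] : Fin 2 → Fin n) = ![z, z] := by
      apply h1
      funext a
      fin_cases a
      · exact hy i
      · show C j ![w, y i] = C j ![z, z]
        rw [hij]; exact hy j
    have := congrFun h2 0
    exact hzw this.symm
  have hcard : (Finset.univ : Finset (Fin k)).card ≤ (Finset.univ.erase z).card := by
    apply Finset.card_le_card_of_injOn y
    · intro i _
      simp only [Finset.coe_erase, Finset.coe_univ]
      exact ⟨trivial, hyz i⟩
    · exact hinj.injOn
  rw [Finset.card_erase_of_mem (Finset.mem_univ _), Finset.card_univ, Finset.card_univ,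
    Fintype.card_fin, Fintype.card_fin] at hcard
  exact hcard

/-- mutually orthogonal latin squares over a field -/
theorem two_dim_field {F : Type} [Field F] [Finite F] : VarOver 2 F {a : F // a ≠ 0} := by
  refine ⟨fun a x => x 0 + a.1 * x 1, ?_, ?_⟩
  · intro a i x
    rw [← Finite.injective_iff_bijective]
    intro s t hst
    fin_cases i
    · simpa using hst
    · simpa [a.2] using hst
  · intro e he
    rw [← Finite.injective_iff_bijective]
    intro x y hxy
    have h0 := congrFun hxy 0
    have h1 := congrFun hxy 1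
    simp only at h0 h1
    have hne : ((e 0 : {a : F // a ≠ 0}) : F) - (e 1 : {a : F // a ≠ 0}) ≠ 0 := by
      rw [sub_ne_zero]
      intro h
      exact absurd (he (Subtype.ext h)) (by decide)
    have h2 : (((e 0 : {a : F // a ≠ 0}) : F) - (e 1 : {a : F // a ≠ 0})) * (x 1 - y 1) = 0 := by
      linear_combination h0 - h1
    have h3 := (mul_eq_zero.1 h2).resolve_left hne
    have h4 : x 1 = y 1 := sub_eq_zero.1 h3
    have h5 : x 0 = y 0 := by
      rw [h4] at h0
      exact add_right_cancel h0
    funext i
    fin_cases i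
    · exact h5
    · exact h4

theorem isPi_two {q : ℕ} (hq : IsPrimePow q) : IsPi 2 q (q - 1) := by
  classical
  refine ⟨?_, ?_⟩
  · obtain ⟨F, hF, hFt, hc⟩ := exists_field hq
    refine (two_dim_field (F := F)).toFin (Fintype.equivFinOfCardEq hc)
      (Fintype.equivFinOfCardEq ?_)
    rw [Fintype.card_subtype_compl, Fintype.card_subtype_eq, hc]
  · rintro k ⟨C, hC⟩
    exact two_dim_le hq.two_le hC

/-- all values for orders at most five -/
theorem isPi_small (m n : ℕ) (hm : 2 ≤ m) (hn : 2 ≤ n) (hn5 : n ≤ 5) :
    IsPi m n (if m = 2 then n - 1 else if n = 2 then m - 1 else if n ≤ m then m + 1 else 6) := by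
  have hpp : IsPrimePow n := by
    have : n = 2 ∨ n = 3 ∨ n = 4 ∨ n = 5 := by omega
    rcases this with rfl | rfl | rfl | rfl
    · exact Nat.prime_two.isPrimePow
    · exact Nat.prime_three.isPrimePow
    · exact ⟨2, 2, Nat.prime_two.prime, by norm_num, by norm_num⟩
    · exact Nat.prime_five.isPrimePow
  by_cases h2 : m = 2
  · subst h2
    rw [if_pos rfl]
    exact isPi_two hpp
  rw [if_neg h2]
  by_cases hn2 : n = 2
  · subst hn2
    rw [if_pos rfl]
    exact ⟨exists_vacuous m 2 (m - 1) (by norm_num) (by omega),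
      fun k ⟨C, hC⟩ => two_le hC hm⟩
  rw [if_neg hn2]
  by_cases hnm : n ≤ m
  · rw [if_pos hnm]
    refine ⟨exists_succ (by omega) (by omega) hn2 (by omega), ?_⟩
    rintro k ⟨C, hC⟩
    exact IsArray.le_add_one hC.2 hn hnm
  rw [if_neg hnm]
  by_cases hmn : m + 1 = n
  · have h := isPi_dual hpp (by omega) hmn
    have : (if n % 2 = 1 then n + 1 else n + 2) = 6 := by
      have : n = 4 ∨ n = 5 := by omega
      rcases this with rfl | rfl <;> simp
    rwa [this] at h
  · have hm3 : m = 3 := by omega
    have hn5' : n = 5 := by omega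
    subst hm3 hn5'
    refine ⟨three_odd hpp (by norm_num), ?_⟩
    rintro k ⟨C, hC⟩
    have := IsArray.le_odd hC.2 le_rfl hn (by norm_num)
    omega

end Pool.Agent.H625R3.PC
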