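import Mathlib

set_option autoImplicit false

/-!
# Steiner systems with the symmetric difference property

If `s = t - k / 2` is a prime power with `2 s ≤ k / 2 + 1`, then `s` does not divide `k / 2`.
-/

namespace Pool.Agent.H625R3.SD

open Finset

/-- `F` is a Steiner system `S(t, k, n)` on the points `0, …, n - 1`: all blocks have `k` points and
every `t`-set lies in exactly one block. -/
def IsSteiner (t k n : ℕ) (F : Finset (Finset (Fin n))) : Prop :=
  (∀ B ∈ F, B.card = k) ∧ ∀ T : Finset (Fin n), T.card = t → ∃! B, B ∈ F ∧ T ⊆ B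

/-- the symmetric difference property: if two blocks meet in `k / 2` points, their symmetric
difference is a block -/
def HasSDP (k n : ℕ) (F : Finset (Finset (Fin n))) : Prop :=
  ∀ B ∈ F, ∀ B' ∈ F, 2 * (B ∩ B').card = k → symmDiff B B' ∈ F

theorem dvd_small {p a i : ℕ} (hp : p.Prime) (hi : 1 ≤ i) (hi' : i < p ^ a) :
    p ∣ (p ^ a - 1 + i).choose (p ^ a - 1) := by
  by_contra hcon
  have hpa : 0 < p ^ a := pow_pos hp.pos a
  have h1 := Nat.choose_succ_right_eq (p ^ a - 1 + i) (p ^ a - 1)
  have e1 : p ^ a - 1 + 1 = p ^ a := by omega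
  have e2 : p ^ a - 1 + i - (p ^ a - 1) = i := by omega
  rw [e1, e2] at h1
  have h2 : p ^ a ∣ (p ^ a - 1 + i).choose (p ^ a - 1) * i := ⟨_, by rw [← h1, mul_comm]⟩
  have h3 : (p ^ a).Coprime ((p ^ a - 1 + i).choose (p ^ a - 1)) :=
    Nat.Coprime.pow_left a ((Nat.Prime.coprime_iff_not_dvd hp).2 hcon)
  have h4 := Nat.le_of_dvd (by omega) (h3.dvd_of_dvd_mul_left h2)
  omega

theorem not_dvd_big {p : ℕ} (hp : p.Prime) (a q : ℕ) :
    ¬ p ∣ (p ^ a * q + (p ^ a - 1)).choose (p ^ a - 1) := by
  have : Fact p.Prime := ⟨hp⟩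
  induction a with
  | zero =>
    simpa using hp.one_lt.ne'
  | succ a ih =>
    have hpa : 0 < p ^ a := pow_pos hp.pos a
    have hp2 := hp.two_le
    have e1 : p ^ (a + 1) * q + (p ^ (a + 1) - 1) = p * (p ^ a * q + (p ^ a - 1)) + (p - 1) := by
      have : p ^ (a + 1) = p * p ^ a := by rw [pow_succ, mul_comm]
      have h2 : p * (p ^ a * q + (p ^ a - 1)) = p * p ^ a * q + (p * p ^ a - p) := by
        rw [mul_add, Nat.mul_sub, mul_one, mul_assoc]
      have h3 : p ≤ p * p ^ a := Nat.le_mul_of_pos_right _ hpa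
      rw [this, h2]
      omega
    have e2 : p ^ (a + 1) - 1 = p * (p ^ a - 1) + (p - 1) := by
      have : p ^ (a + 1) = p * p ^ a := by rw [pow_succ, mul_comm]
      have h3 : p ≤ p * p ^ a := Nat.le_mul_of_pos_right _ hpa
      rw [this, Nat.mul_sub, mul_one]
      omega
    have hmod : ∀ z, (p * z + (p - 1)) % p = p - 1 := by
      intro z
      rw [Nat.mul_add_mod, Nat.mod_eq_of_lt (by omega)]
    have hdiv : ∀ z, (p * z + (p - 1)) / p = z := by
      intro z
      rw [Nat.mul_add_div hp.pos, Nat.div_eq_of_lt (by omega), add_zero]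
    have hL := Choose.choose_modEq_choose_mod_mul_choose_div_nat
      (n := p ^ (a + 1) * q + (p ^ (a + 1) - 1)) (k := p ^ (a + 1) - 1) (p := p)
    intro hdvd
    apply ih
    rw [e1, e2] at hL hdvd
    rw [hmod, hmod, hdiv, hdiv, Nat.choose_self, one_mul] at hL
    exact (Nat.modEq_zero_iff_dvd).1 (hL.symm.trans ((Nat.modEq_zero_iff_dvd).2 hdvd))

theorem inter_le {t k n : ℕ} {F : Finset (Finset (Fin n))} (hF : IsSteiner t k n F)
    {B C : Finset (Fin n)} (hB : B ∈ F) (hC : C ∈ F) (hBC : B ≠ C) : (B ∩ C).card < t := by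
  by_contra hcon
  push Not at hcon
  obtain ⟨T, hT, hTc⟩ := Finset.exists_subset_card_eq hcon
  obtain ⟨D, -, hu⟩ := hF.2 T hTc
  exact hBC ((hu B ⟨hB, hT.trans Finset.inter_subset_left⟩).trans
    (hu C ⟨hC, hT.trans Finset.inter_subset_right⟩).symm)

/-- **Main theorem.** -/
theorem main {m s n : ℕ} {F : Finset (Finset (Fin n))} (hF : IsSteiner (m + s) (2 * m) n F)
    (hS : HasSDP (2 * m) n F) (hn : 2 * m < n) {p a : ℕ} (hp : p.Prime) (ha : a ≠ 0)
    (hs : s = p ^ a) (h2 : 2 * s ≤ m + 1) : ¬ s ∣ m := by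
  classical
  have hs2 : 2 ≤ s := by
    rw [hs]
    calc 2 ≤ p := hp.two_le
      _ = p ^ 1 := (pow_one p).symm
      _ ≤ p ^ a := Nat.pow_le_pow_right hp.pos (by omega)
  choose! g hg hu using hF.2
  -- a block
  obtain ⟨T₀, -, hT₀⟩ := Finset.exists_subset_card_eq
    (show m + s ≤ (Finset.univ : Finset (Fin n)).card by
      rw [Finset.card_univ, Fintype.card_fin]; omega)
  set B := g T₀ with hBdef
  have hB : B ∈ F := (hg T₀ hT₀).1
  have hBc : B.card = 2 * m := hF.1 B hB
  obtain ⟨y, hy⟩ : ∃ y, y ∉ B := by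
    by_contra hcon
    push Not at hcon
    have : B = Finset.univ := Finset.eq_univ_iff_forall.2 hcon
    rw [this, Finset.card_univ, Fintype.card_fin] at hBc
    omega
  obtain ⟨A₀, hA₀, hA₀c⟩ := Finset.exists_subset_card_eq
    (show m + s - 1 ≤ B.card by omega)
  have hyA₀ : y ∉ A₀ := fun h' => hy (hA₀ h')
  have hT₁ : (insert y A₀).card = m + s := by
    rw [Finset.card_insert_of_notMem hyA₀, hA₀c]; omega
  set C := g (insert y A₀) with hCdef
  have hC : C ∈ F := (hg _ hT₁).1
  have hCs := (hg _ hT₁).2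
  have hCc : C.card = 2 * m := hF.1 C hC
  have hyC : y ∈ C := hCs (Finset.mem_insert_self _ _)
  have hBC : B ≠ C := by
    rintro h'
    rw [← h'] at hyC
    exact hy hyC
  set A := B ∩ C with hA
  have hAc : A.card = m + s - 1 := by
    have h1 := inter_le hF hB hC hBC
    rw [← hA] at h1
    have h3 : A₀ ⊆ A := Finset.subset_inter hA₀ ((Finset.subset_insert _ _).trans hCs)
    have h4 := Finset.card_le_card h3
    omega
  have hAB : A ⊆ B := Finset.inter_subset_left
  have hAC : A ⊆ C := Finset.inter_subset_right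
  have hBAc : (B \ A).card = m - s + 1 := by
    rw [Finset.card_sdiff_of_subset hAB, hBc, hAc]; omega
  have hCB : (C \ B).card = m - s + 1 := by
    have h1 : C \ B = C \ A := by
      ext x; simp only [hA, Finset.mem_sdiff, Finset.mem_inter]; tauto
    rw [h1, Finset.card_sdiff_of_subset hAC, hCc, hAc]; omega
  obtain ⟨Y, hY, hYc⟩ := Finset.exists_subset_card_eq (show s ≤ (C \ B).card by omega)
  have hYC : Y ⊆ C := hY.trans Finset.sdiff_subset
  have hYB : ∀ x ∈ Y, x ∉ B := fun x hx => (Finset.mem_sdiff.1 (hY hx)).2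
  -- the `t`-sets
  let T' : Finset (Fin n) → Finset (Fin n) := fun J => Y ∪ ((B \ A) ∪ J)
  have hT' : ∀ J ∈ A.powersetCard (s - 1), (T' J).card = m + s := by
    intro J hJ
    obtain ⟨hJA, hJc⟩ := Finset.mem_powersetCard.1 hJ
    have d1 : Disjoint (B \ A) J := by
      rw [Finset.disjoint_left]
      intro x hx hx'
      exact (Finset.mem_sdiff.1 hx).2 (hJA hx')
    have d2 : Disjoint Y ((B \ A) ∪ J) := by
      rw [Finset.disjoint_left]
      intro x hx hx'
      rcases Finset.mem_union.1 hx' with h' | h'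
      · exact hYB x hx (Finset.mem_sdiff.1 h').1
      · exact hYB x hx (hAB (hJA h'))
    simp only [T']
    rw [Finset.card_union_of_disjoint d2, Finset.card_union_of_disjoint d1, hYc, hBAc, hJc]
    omega
  let r : Finset (Fin n) → Finset (Fin n) := fun J => g (T' J) ∩ A
  -- the key fact
  have key : ∀ J ∈ A.powersetCard (s - 1), ∃ i, 1 ≤ i ∧ i < s ∧ (r J).card = s - 1 + i ∧
      J ⊆ r J ∧ Y ⊆ g (T' J) ∧ B \ A ⊆ g (T' J) := by
    intro J hJ
    obtain ⟨hJA, hJc⟩ := Finset.mem_powersetCard.1 hJ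
    obtain ⟨hD, hDs⟩ := hg _ (hT' J hJ)
    set D := g (T' J) with hDdef
    have hYD : Y ⊆ D := (Finset.subset_union_left).trans hDs
    have hBAD : B \ A ⊆ D := (Finset.subset_union_left.trans Finset.subset_union_right).trans hDs
    have hJD : J ⊆ D := (Finset.subset_union_right.trans Finset.subset_union_right).trans hDs
    have hBD : B ≠ D := by
      rintro h'
      obtain ⟨x, hx⟩ : Y.Nonempty := by rw [← Finset.card_pos]; omega
      apply hYB x hx
      rw [h']
      exact hYD hx
    have h1 := inter_le hF hB hD hBD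
    have h3 : (B ∩ D).card = (D ∩ A).card + (m - s + 1) := by
      have e : B ∩ D = (D ∩ A) ∪ (B \ A) := by
        ext x
        simp only [Finset.mem_inter, Finset.mem_union, Finset.mem_sdiff]
        constructor
        · rintro ⟨h1, h2⟩
          by_cases h3 : x ∈ A
          · exact Or.inl ⟨h2, h3⟩
          · exact Or.inr ⟨h1, h3⟩
        · rintro (⟨h1, h2⟩ | ⟨h1, h2⟩)
          · exact ⟨hAB h2, h1⟩
          · exact ⟨h1, hBAD (Finset.mem_sdiff.2 ⟨h1, h2⟩)⟩
      have d : Disjoint (D ∩ A) (B \ A) := by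
        rw [Finset.disjoint_left]
        intro x hx hx'
        exact (Finset.mem_sdiff.1 hx').2 (Finset.mem_inter.1 hx).2
      rw [e, Finset.card_union_of_disjoint d, hBAc]
    have hJr : J ⊆ D ∩ A := Finset.subset_inter hJD hJA
    have h4 := Finset.card_le_card hJr
    have h5 : (B ∩ D).card ≠ m := by
      intro h5
      have hJe : D ∩ A = J := by
        symm
        apply Finset.eq_of_subset_of_card_le hJr
        omega
      have h6 := hS B hB D hD (by rw [h5])
      have hI : (Y ∪ (A \ J)).card = m + s := by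
        have d : Disjoint Y (A \ J) := by
          rw [Finset.disjoint_left]
          intro x hx hx'
          exact hYB x hx (hAB (Finset.mem_sdiff.1 hx').1)
        rw [Finset.card_union_of_disjoint d, hYc, Finset.card_sdiff_of_subset hJA, hAc, hJc]
        omega
      have e1 : C = g (Y ∪ (A \ J)) := hu _ hI C ⟨hC, by
        intro x hx
        rcases Finset.mem_union.1 hx with h' | h'
        · exact hYC h'
        · exact hAC (Finset.mem_sdiff.1 h').1⟩
      have e2 : symmDiff B D = g (Y ∪ (A \ J)) := hu _ hI _ ⟨h6, by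
        intro x hx
        rw [Finset.mem_symmDiff]
        rcases Finset.mem_union.1 hx with h' | h'
        · exact Or.inr ⟨hYD h', hYB x h'⟩
        · obtain ⟨g1, g2⟩ := Finset.mem_sdiff.1 h'
          refine Or.inl ⟨hAB g1, fun g3 => g2 ?_⟩
          rw [← hJe]
          exact Finset.mem_inter.2 ⟨g3, g1⟩⟩
      obtain ⟨x, hx⟩ : J.Nonempty := by rw [← Finset.card_pos]; omega
      have hxC : x ∈ C := hAC (hJA hx)
      rw [e1, ← e2, Finset.mem_symmDiff] at hxC
      rcases hxC with ⟨-, h'⟩ | ⟨-, h'⟩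
      · exact h' (hJD hx)
      · exact h' (hAB (hJA hx))
    refine ⟨(D ∩ A).card - (s - 1), by omega, by omega, ?_, hJr, hYD, hBAD⟩
    show (D ∩ A).card = _
    omega
  have hfib : ∀ X ∈ (A.powersetCard (s - 1)).image r,
      p ∣ ((A.powersetCard (s - 1)).filter (fun J => r J = X)).card := by
    intro X hX
    obtain ⟨J, hJ, rfl⟩ := Finset.mem_image.1 hX
    obtain ⟨i, hi1, hi2, hi3, hi4, hi5, hi6⟩ := key J hJ
    have heq : (A.powersetCard (s - 1)).filter (fun J' => r J' = r J) =
        (r J).powersetCard (s - 1) := by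
      ext J'
      rw [Finset.mem_filter]
      constructor
      · rintro ⟨hJ', he⟩
        obtain ⟨-, -, -, -, k1, -, -⟩ := key J' hJ'
        rw [he] at k1
        exact Finset.mem_powersetCard.2 ⟨k1, (Finset.mem_powersetCard.1 hJ').2⟩
      · intro hh
        obtain ⟨hs1, hc1⟩ := Finset.mem_powersetCard.1 hh
        have hJ' : J' ∈ A.powersetCard (s - 1) :=
          Finset.mem_powersetCard.2 ⟨hs1.trans Finset.inter_subset_right, hc1⟩
        refine ⟨hJ', ?_⟩
        have e : g (T' J) = g (T' J') := by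
          apply hu _ (hT' J' hJ')
          refine ⟨(hg _ (hT' J hJ)).1, ?_⟩
          intro x hx
          simp only [T'] at hx
          rcases Finset.mem_union.1 hx with h' | h'
          · exact hi5 h'
          · rcases Finset.mem_union.1 h' with h' | h'
            · exact hi6 h'
            · exact Finset.inter_subset_left (hs1 h')
        show g (T' J') ∩ A = g (T' J) ∩ A
        rw [e]
    rw [heq, Finset.card_powersetCard, hi3, hs]
    exact dvd_small hp hi1 (by rw [← hs]; exact hi2)
  have hsum := Finset.card_eq_sum_card_image r (A.powersetCard (s - 1))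
  rw [Finset.card_powersetCard, hAc] at hsum
  have hdvd : p ∣ (m + s - 1).choose (s - 1) := by
    rw [hsum]
    exact Finset.dvd_sum hfib
  rintro ⟨q, hq⟩
  apply not_dvd_big hp a q
  have e : p ^ a * q + (p ^ a - 1) = m + s - 1 := by
    rw [← hs, ← hq]; omega
  rw [e, ← hs]
  exact hdvd

end Pool.Agent.H625R3.SD
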