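import Mathlib

/-! # Thue–Morse along polynomials: block expansions -/

namespace Pool.Agent.H625R3.TM

open Polynomial Finset

/-- The Thue–Morse sequence with values in `ZMod 2`. -/
def tm (n : ℕ) : ZMod 2 := ((Nat.digits 2 n).sum : ℕ)

theorem tm_zero : tm 0 = 0 := by simp [tm]

theorem tm_rec (n : ℕ) : tm n = ((n % 2 : ℕ) : ZMod 2) + tm (n / 2) := by
  rcases Nat.eq_zero_or_pos n with h | h
  · subst h; simp [tm]
  · unfold tm
    rw [Nat.digits_def' (by norm_num) h]
    simp

theorem tm_add_mul_pow (m : ℕ) : ∀ u v : ℕ, u < 2 ^ m → tm (u + 2 ^ m * v) = tm u + tm v := by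
  induction m with
  | zero =>
    intro u v h
    have : u = 0 := by simpa using h
    subst this
    simp [tm_zero]
  | succ m ih =>
    intro u v h
    have e : u + 2 ^ (m + 1) * v = u + 2 * (2 ^ m * v) := by ring
    have h1 : (u + 2 * (2 ^ m * v)) % 2 = u % 2 := by omega
    have h2 : (u + 2 * (2 ^ m * v)) / 2 = u / 2 + 2 ^ m * v := by omega
    have h3 : u / 2 < 2 ^ m := by rw [pow_succ] at h; omega
    rw [e, tm_rec (u + _), h1, h2, ih _ _ h3, tm_rec u]
    ring

theorem tm_pow_mul (m v : ℕ) : tm (2 ^ m * v) = tm v := by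
  have := tm_add_mul_pow m 0 v (by positivity)
  simpa [tm_zero] using this

theorem tm_sum (m : ℕ) : ∀ (r : ℕ) (c : ℕ → ℕ), (∀ j, c j < 2 ^ m) →
    tm (∑ j ∈ range r, c j * 2 ^ (m * j)) = ∑ j ∈ range r, tm (c j) := by
  intro r
  induction r with
  | zero => intro c _; simp [tm_zero]
  | succ r ih =>
    intro c hc
    rw [Finset.sum_range_succ', Finset.sum_range_succ']
    have : ∑ k ∈ range r, c (k + 1) * 2 ^ (m * (k + 1)) + c 0 * 2 ^ (m * 0) =
        c 0 + 2 ^ m * ∑ k ∈ range r, c (k + 1) * 2 ^ (m * k) := by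
      rw [Finset.mul_sum, mul_zero, pow_zero, mul_one, add_comm]
      congr 1
      refine Finset.sum_congr rfl fun k _ => ?_
      rw [mul_add, pow_add, mul_one]; ring
    rw [this, tm_add_mul_pow m _ _ (hc 0), ih (fun k => c (k + 1)) (fun j => hc (j + 1)), add_comm]

/-- The operation `Q ↦ a ^ j • (Hasse derivative of order j of Q)`. -/
noncomputable def fop (a j : ℕ) (Q : ℕ[X]) : ℕ[X] := (a ^ j) • hasseDeriv j Q

theorem fop_comm (a j b l : ℕ) (Q : ℕ[X]) : fop a j (fop b l Q) = fop b l (fop a j Q) := by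
  unfold fop
  rw [map_nsmul, map_nsmul]
  have h1 : hasseDeriv j (hasseDeriv l Q) = ((j + l).choose j) • hasseDeriv (j + l) Q := by
    have := congrArg (fun f => f Q) (hasseDeriv_comp (R := ℕ) j l)
    simpa using this
  have h2 : hasseDeriv l (hasseDeriv j Q) = ((l + j).choose l) • hasseDeriv (l + j) Q := by
    have := congrArg (fun f => f Q) (hasseDeriv_comp (R := ℕ) l j)
    simpa using this
  rw [h1, h2, add_comm l j, Nat.choose_symm_add]
  simp only [smul_smul]
  congr 1
  ring

theorem fop_zero_right (a j : ℕ) : fop a j 0 = 0 := by simp [fop]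

theorem fop_zero_deriv (a : ℕ) (Q : ℕ[X]) : fop a 0 Q = Q := by simp [fop, hasseDeriv_zero']

theorem fop_one (a : ℕ) (Q : ℕ[X]) : fop a 1 Q = a • derivative Q := by
  simp [fop, hasseDeriv_one']

theorem natDegree_fop_le (a j : ℕ) (Q : ℕ[X]) : (fop a j Q).natDegree ≤ Q.natDegree - j :=
  (natDegree_smul_le _ _).trans (natDegree_hasseDeriv_le _ _)

theorem fop_eq_zero (a j : ℕ) (Q : ℕ[X]) (h : Q.natDegree < j) : fop a j Q = 0 := by
  simp [fop, hasseDeriv_eq_zero_of_lt_natDegree Q j h]

theorem fop_iter_zero (a j : ℕ) : ∀ e : ℕ, (fop a j)^[e] 0 = 0 := by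
  intro e
  induction e with
  | zero => rfl
  | succ e ih => rw [Function.iterate_succ_apply', ih, fop_zero_right]

theorem natDegree_iter_le (a j : ℕ) : ∀ (e : ℕ) (Q : ℕ[X]),
    ((fop a j)^[e] Q).natDegree ≤ Q.natDegree - e * j := by
  intro e
  induction e with
  | zero => intro Q; simp
  | succ e ih =>
    intro Q
    rw [Function.iterate_succ_apply']
    refine (natDegree_fop_le _ _ _).trans ?_
    have := ih Q
    rw [Nat.succ_mul]
    omega

theorem iter_eq_zero (a j e : ℕ) (Q : ℕ[X]) (h : Q.natDegree < e * j) : (fop a j)^[e] Q = 0 := by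
  cases e with
  | zero => simp at h
  | succ e =>
    rw [Function.iterate_succ_apply']
    by_cases h0 : (fop a j)^[e] Q = 0
    · rw [h0, fop_zero_right]
    rcases Nat.lt_or_ge (Q.natDegree) (e * j) with h1 | h1
    · exact absurd (iter_eq_zero a j e Q h1) h0
    · apply fop_eq_zero
      have := natDegree_iter_le a j e Q
      rw [Nat.succ_mul] at h
      omega

theorem iter_one (a e : ℕ) (Q : ℕ[X]) : (fop a 1)^[e] Q = (a ^ e) • derivative^[e] Q := by
  induction e with
  | zero => simp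
  | succ e ih =>
    rw [Function.iterate_succ_apply', ih, fop_one, derivative_smul, smul_smul,
      Function.iterate_succ_apply', pow_succ, mul_comm]

/-- The space of functionals on polynomials. -/
abbrev Fn := ℕ[X] → ZMod 2

/-- The evaluation functional. -/
noncomputable def ev (y : ℕ) : Fn := fun Q => tm (Q.eval y)

theorem ev_zero (y : ℕ) : ev y 0 = 0 := by simp [ev, tm_zero]

/-- The block operator. -/
noncomputable def Del (d a : ℕ) : Module.End (ZMod 2) Fn :=
  ∑ j ∈ range (d + 1), LinearMap.funLeft (ZMod 2) (ZMod 2) (fop a j)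

theorem Del_apply (d a : ℕ) (φ : Fn) (Q : ℕ[X]) :
    Del d a φ Q = ∑ j ∈ range (d + 1), φ (fop a j Q) := by
  simp [Del, LinearMap.sum_apply, Finset.sum_apply, LinearMap.funLeft_apply]

theorem two_zero (x : Module.End (ZMod 2) Fn) : x + x = 0 := by
  ext φ Q
  exact CharTwo.add_self_eq_zero _

theorem sq_sum (E : ℕ → Module.End (ZMod 2) Fn) (hE : ∀ i j, E i * E j = E j * E i) (n : ℕ) :
    (∑ j ∈ range n, E j) * (∑ j ∈ range n, E j) = ∑ j ∈ range n, E j * E j := by
  induction n with
  | zero => simp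
  | succ n ih =>
    rw [Finset.sum_range_succ, Finset.sum_range_succ, ← ih]
    have hc : (∑ j ∈ range n, E j) * E n = E n * (∑ j ∈ range n, E j) := by
      rw [Finset.sum_mul, Finset.mul_sum]
      exact Finset.sum_congr rfl fun j _ => hE j n
    have h2 := two_zero (E n * (∑ j ∈ range n, E j))
    rw [add_mul, mul_add, mul_add, hc]
    calc _ = (∑ j ∈ range n, E j) * (∑ j ∈ range n, E j) +
        (E n * (∑ j ∈ range n, E j) + E n * (∑ j ∈ range n, E j)) + E n * E n := by abel
      _ = _ := by rw [h2, add_zero]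

theorem iter_comm (a j l e : ℕ) (Q : ℕ[X]) :
    (fop a j)^[e] ((fop a l)^[e] Q) = (fop a l)^[e] ((fop a j)^[e] Q) := by
  have : Function.Commute (fop a j) (fop a l) := fun Q => fop_comm a j a l Q
  exact (this.iterate_iterate e e) Q

theorem Del_pow (d a s : ℕ) : (Del d a) ^ (2 ^ s) =
    ∑ j ∈ range (d + 1), LinearMap.funLeft (ZMod 2) (ZMod 2) ((fop a j)^[2 ^ s]) := by
  induction s with
  | zero => simp [Del]
  | succ s ih =>
    rw [pow_succ, pow_mul, pow_two, ih, sq_sum]
    · refine Finset.sum_congr rfl fun j _ => ?_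
      ext φ Q
      simp only [Module.End.mul_apply, LinearMap.funLeft_apply]
      rw [mul_two, Function.iterate_add_apply]
    · intro i j
      ext φ Q
      simp only [Module.End.mul_apply, LinearMap.funLeft_apply]
      rw [iter_comm]

theorem Del_pow_apply (d a s : ℕ) (φ : Fn) (Q : ℕ[X]) :
    ((Del d a) ^ (2 ^ s)) φ Q = ∑ j ∈ range (d + 1), φ ((fop a j)^[2 ^ s] Q) := by
  rw [Del_pow]
  simp [LinearMap.sum_apply, Finset.sum_apply, LinearMap.funLeft_apply]

/-- Expansion of `Q (y + a 2^m)`. -/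
theorem eval_block (d : ℕ) (Q : ℕ[X]) (hQ : Q.natDegree ≤ d) (y a m : ℕ) :
    Q.eval (y + a * 2 ^ m) = ∑ j ∈ range (d + 1), (fop a j Q).eval y * 2 ^ (m * j) := by
  have h := taylor_eval y Q (a * 2 ^ m)
  rw [add_comm (a * 2 ^ m) y] at h
  rw [← h, eval_eq_sum_range' (n := d + 1) (by rw [natDegree_taylor]; omega)]
  refine Finset.sum_congr rfl fun j _ => ?_
  rw [taylor_coeff, fop, eval_smul, mul_pow, ← pow_mul, smul_eq_mul]
  ring

theorem tm_block (d : ℕ) (Q : ℕ[X]) (hQ : Q.natDegree ≤ d) (y a m : ℕ)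
    (hm : ∀ j ∈ range (d + 1), (fop a j Q).eval y < 2 ^ m) :
    tm (Q.eval (y + a * 2 ^ m)) = Del d a (ev y) Q := by
  rw [eval_block d Q hQ, Del_apply]
  have h := tm_sum m (d + 1) (fun j => if j ∈ range (d + 1) then (fop a j Q).eval y else 0) (by
    intro j
    by_cases hj : j ∈ range (d + 1)
    · simp only [hj, if_true]; exact hm j hj
    · simp only [hj, if_false]; positivity)
  have e1 : ∑ j ∈ range (d + 1), (if j ∈ range (d + 1) then (fop a j Q).eval y else 0) * 2 ^ (m * j)
      = ∑ j ∈ range (d + 1), (fop a j Q).eval y * 2 ^ (m * j) :=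
    Finset.sum_congr rfl fun j hj => by rw [if_pos hj]
  rw [← e1, h]
  refine Finset.sum_congr rfl fun j hj => ?_
  rw [if_pos hj]; rfl

/-- All products of block operators are realised by shifts. -/
theorem achieve (d k : ℕ) : ∀ (L : List ℕ) (F : Finset ℕ[X]), (∀ Q ∈ F, Q.natDegree ≤ d) →
    ∃ n, ∀ Q ∈ F, ∀ y ∈ range k, tm (Q.eval (y + n)) = ((L.map (Del d)).prod (ev y)) Q := by
  classical
  intro L
  induction L with
  | nil =>
    intro F _
    exact ⟨0, fun Q _ y _ => rfl⟩
  | cons a L ih =>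
    intro F hF
    let F' : Finset ℕ[X] := F.biUnion (fun Q => (range (d + 1)).image (fun j => fop a j Q))
    obtain ⟨n', hn'⟩ := ih F' (by
      intro Q hQ
      simp only [F', Finset.mem_biUnion, Finset.mem_image] at hQ
      obtain ⟨Q0, hQ0, j, _, rfl⟩ := hQ
      have := natDegree_fop_le a j Q0
      have := hF Q0 hQ0
      omega)
    -- choose `m`
    obtain ⟨m, hm⟩ : ∃ m : ℕ, ∀ Q ∈ F, ∀ y ∈ range k, ∀ j ∈ range (d + 1),
        (fop a j Q).eval (y + n') < 2 ^ m := by
      refine ⟨∑ Q ∈ F, ∑ y ∈ range k, ∑ j ∈ range (d + 1), (fop a j Q).eval (y + n'), ?_⟩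
      intro Q hQ y hy j hj
      refine lt_of_le_of_lt ?_ Nat.lt_two_pow_self
      refine le_trans ?_ (Finset.single_le_sum (f := fun Q => ∑ y ∈ range k, ∑ j ∈ range (d + 1),
        (fop a j Q).eval (y + n')) (fun _ _ => Nat.zero_le _) hQ)
      refine le_trans ?_ (Finset.single_le_sum (f := fun y => ∑ j ∈ range (d + 1),
        (fop a j Q).eval (y + n')) (fun _ _ => Nat.zero_le _) hy)
      exact Finset.single_le_sum (f := fun j => (fop a j Q).eval (y + n'))
        (fun _ _ => Nat.zero_le _) hj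
    refine ⟨n' + a * 2 ^ m, fun Q hQ y hy => ?_⟩
    rw [← add_assoc, tm_block d Q (hF Q hQ) (y + n') a m (hm Q hQ y hy)]
    rw [List.map_cons, List.prod_cons, Module.End.mul_apply, Del_apply, Del_apply]
    refine Finset.sum_congr rfl fun j hj => ?_
    exact hn' _ (by
      simp only [F', Finset.mem_biUnion, Finset.mem_image]
      exact ⟨Q, hQ, j, hj, rfl⟩) y hy

end Pool.Agent.H625R3.TM
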