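import Mathlib
import Pool.Agent.H625R3.TM1

namespace Pool.Agent.H625R3.TM

open Polynomial Finset

/-- `φ 0 = 0` is preserved. -/
theorem Phi_zero (d s : ℕ) (L : List ℕ) (y : ℕ) :
    ((L.map (fun a => (Del d a) ^ (2 ^ s))).prod (ev y)) 0 = 0 := by
  induction L with
  | nil => simp [ev_zero]
  | cons a L ih =>
    rw [List.map_cons, List.prod_cons, Module.End.mul_apply, Del_pow_apply]
    simp [fop_iter_zero, ih]

/-- Claim B: on polynomials of degree `< 2e` the group operators are additive. -/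
theorem Phi_small (d s : ℕ) (hd : 1 ≤ d) (y : ℕ) : ∀ (L : List ℕ) (Q : ℕ[X]),
    Q.natDegree < 2 * 2 ^ s →
    ((L.map (fun a => (Del d a) ^ (2 ^ s))).prod (ev y)) Q =
      ev y Q + (L.map (fun a => ev y ((a ^ 2 ^ s) • derivative^[2 ^ s] Q))).sum := by
  intro L
  induction L with
  | nil => intro Q _; simp
  | cons a L ih =>
    intro Q hQ
    rw [List.map_cons, List.prod_cons, Module.End.mul_apply, Del_pow_apply]
    obtain ⟨d', rfl⟩ : ∃ d', d = d' + 1 := ⟨d - 1, by omega⟩
    rw [Finset.sum_range_succ', Finset.sum_range_succ']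
    have h0 : (fop a 0)^[2 ^ s] Q = Q := by
      have : fop a 0 = id := by funext Q; exact fop_zero_deriv a Q
      rw [this, Function.iterate_id]; rfl
    have h2 : ∀ j, (fop a (j + 1 + 1))^[2 ^ s] Q = 0 := by
      intro j
      apply iter_eq_zero
      have : 2 ^ s * (j + 1 + 1) = 2 * 2 ^ s + 2 ^ s * j := by ring
      omega
    rw [Finset.sum_eq_zero (fun j _ => by rw [h2 j]; exact Phi_zero _ _ _ _), zero_add, h0,
      zero_add, iter_one, ih Q hQ, ih _ ?_]
    · have h3 : ∀ b : ℕ, (b ^ 2 ^ s) • derivative^[2 ^ s] ((a ^ 2 ^ s) • derivative^[2 ^ s] Q) = 0 := by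
        intro b
        have h4 : derivative^[2 ^ s] ((a ^ 2 ^ s) • derivative^[2 ^ s] Q) = 0 := by
          apply iterate_derivative_eq_zero
          have h5 := natDegree_smul_le (a ^ 2 ^ s) (derivative^[2 ^ s] Q)
          have h6 := natDegree_iterate_derivative Q (2 ^ s)
          omega
        rw [h4, smul_zero]
      simp only [h3, ev_zero, List.map_const', List.sum_replicate, smul_zero, add_zero,
        List.map_cons, List.sum_cons]
      ring
    · have h5 := natDegree_smul_le (a ^ 2 ^ s) (derivative^[2 ^ s] Q)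
      have h6 := natDegree_iterate_derivative Q (2 ^ s)
      omega

/-- On constants nothing depends on the point. -/
theorem ev_const (y y' : ℕ) (Q : ℕ[X]) (hQ : Q.natDegree = 0) : ev y Q = ev y' Q := by
  rw [eq_C_of_natDegree_eq_zero hQ]
  simp [ev]

/-- Claim A: up to a constant independent of the point the group operators are additive. -/
theorem Phi_big (d s : ℕ) (hd : 1 ≤ d) (hd2 : d ≤ 2 * 2 ^ s) (y y' : ℕ) :
    ∀ (L : List ℕ) (Q : ℕ[X]), Q.natDegree ≤ d →
    ((L.map (fun a => (Del d a) ^ (2 ^ s))).prod (ev y)) Q -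
      (ev y Q + (L.map (fun a => ev y ((a ^ 2 ^ s) • derivative^[2 ^ s] Q))).sum) =
    ((L.map (fun a => (Del d a) ^ (2 ^ s))).prod (ev y')) Q -
      (ev y' Q + (L.map (fun a => ev y' ((a ^ 2 ^ s) • derivative^[2 ^ s] Q))).sum) := by
  intro L
  induction L with
  | nil => intro Q _; simp
  | cons a L ih =>
    intro Q hQ
    rw [List.map_cons, List.prod_cons, Module.End.mul_apply, Module.End.mul_apply, Del_pow_apply,
      Del_pow_apply]
    obtain ⟨d', rfl⟩ : ∃ d', d = d' + 1 := ⟨d - 1, by omega⟩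
    rw [Finset.sum_range_succ', Finset.sum_range_succ', Finset.sum_range_succ',
      Finset.sum_range_succ']
    have h0 : (fop a 0)^[2 ^ s] Q = Q := by
      have : fop a 0 = id := by funext Q; exact fop_zero_deriv a Q
      rw [this, Function.iterate_id]; rfl
    -- on constants `Φ` does not depend on the point
    have hconst : ∀ Q0 : ℕ[X], Q0.natDegree = 0 →
        ((L.map (fun a => (Del (d' + 1) a) ^ (2 ^ s))).prod (ev y)) Q0 =
        ((L.map (fun a => (Del (d' + 1) a) ^ (2 ^ s))).prod (ev y')) Q0 := by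
      intro Q0 hQ0
      have hp : 0 < 2 ^ s := by positivity
      rw [Phi_small _ _ hd y L Q0 (by omega), Phi_small _ _ hd y' L Q0 (by omega),
        ev_const y y' Q0 hQ0]
      congr 2
      apply List.map_congr_left
      intro b _
      apply ev_const
      have h5 := natDegree_smul_le (b ^ 2 ^ s) (derivative^[2 ^ s] Q0)
      have h6 := natDegree_iterate_derivative Q0 (2 ^ s)
      omega
    have h2 : ∀ j, ((L.map (fun a => (Del (d' + 1) a) ^ (2 ^ s))).prod (ev y))
          ((fop a (j + 1 + 1))^[2 ^ s] Q) =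
        ((L.map (fun a => (Del (d' + 1) a) ^ (2 ^ s))).prod (ev y'))
          ((fop a (j + 1 + 1))^[2 ^ s] Q) := by
      intro j
      apply hconst
      have h3 := natDegree_iter_le a (j + 1 + 1) (2 ^ s) Q
      have : 2 ^ s * (j + 1 + 1) = 2 * 2 ^ s + 2 ^ s * j := by ring
      omega
    have hQ1 : ((a ^ 2 ^ s) • derivative^[2 ^ s] Q).natDegree ≤ Q.natDegree - 2 ^ s := by
      have h5 := natDegree_smul_le (a ^ 2 ^ s) (derivative^[2 ^ s] Q)
      have h6 := natDegree_iterate_derivative Q (2 ^ s)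
      omega
    have h1 := ih Q hQ
    have h1' := ih ((a ^ 2 ^ s) • derivative^[2 ^ s] Q) (by omega)
    have h1'' : (L.map (fun b => ev y ((b ^ 2 ^ s) • derivative^[2 ^ s]
          ((a ^ 2 ^ s) • derivative^[2 ^ s] Q)))).sum =
        (L.map (fun b => ev y' ((b ^ 2 ^ s) • derivative^[2 ^ s]
          ((a ^ 2 ^ s) • derivative^[2 ^ s] Q)))).sum := by
      congr 1
      apply List.map_congr_left
      intro b _
      apply ev_const
      have h5 := natDegree_smul_le (b ^ 2 ^ s) (derivative^[2 ^ s]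
        ((a ^ 2 ^ s) • derivative^[2 ^ s] Q))
      have h6 := natDegree_iterate_derivative ((a ^ 2 ^ s) • derivative^[2 ^ s] Q) (2 ^ s)
      omega
    rw [Finset.sum_congr rfl (fun j _ => h2 j)]
    simp only [zero_add, iter_one, h0, List.map_cons, List.sum_cons]
    rw [h1''] at h1'
    linear_combination h1 + h1'

/-- The flipping operator. -/
theorem flip (d s : ℕ) (hd : d = 2 * 2 ^ s) (y b : ℕ) (L : List ℕ) (Q : ℕ[X])
    (hQ : Q.natDegree = d) :
    ((Del d b) ^ (2 ^ (s + 1)) * (L.map (fun a => (Del d a) ^ (2 ^ s))).prod) (ev y) Q =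
    ((L.map (fun a => (Del d a) ^ (2 ^ s))).prod (ev y)) Q +
      tm (b ^ d * (d.factorial * Q.leadingCoeff)) := by
  have hp : 0 < 2 ^ s := by positivity
  rw [Module.End.mul_apply, Del_pow_apply]
  obtain ⟨d', rfl⟩ : ∃ d', d = d' + 1 := ⟨d - 1, by omega⟩
  rw [Finset.sum_range_succ', Finset.sum_range_succ']
  have h0 : (fop b 0)^[2 ^ (s + 1)] Q = Q := by
    have : fop b 0 = id := by funext Q; exact fop_zero_deriv b Q
    rw [this, Function.iterate_id]; rfl
  have h2 : ∀ j, (fop b (j + 1 + 1))^[2 ^ (s + 1)] Q = 0 := by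
    intro j
    apply iter_eq_zero
    have : 2 ^ (s + 1) * (j + 1 + 1) = 4 * 2 ^ s + 2 ^ (s + 1) * j := by ring
    omega
  rw [Finset.sum_eq_zero (fun j _ => by rw [h2 j]; exact Phi_zero _ _ _ _), zero_add, h0,
    zero_add, iter_one, add_comm]
  congr 1
  have hs : 2 ^ (s + 1) = d' + 1 := by rw [hd]; ring
  have hC : derivative^[2 ^ (s + 1)] Q = C ((d' + 1).factorial * Q.leadingCoeff) := by
    rw [hs]
    have h3 : ((d' + 1).factorial • hasseDeriv (d' + 1)) Q = derivative^[d' + 1] Q :=
      congrFun (factorial_smul_hasseDeriv (R := ℕ) (k := d' + 1)) Q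
    rw [← h3]
    have h4 : hasseDeriv (d' + 1) Q = C Q.leadingCoeff := by
      rw [← hQ]; exact hasseDeriv_natDegree_eq_C Q
    simp only [LinearMap.smul_apply, h4]
    rw [← C_mul']
    simp
  rw [hC, hs]
  have hsm : (b ^ (d' + 1)) • C ((d' + 1).factorial * Q.leadingCoeff) =
      C (b ^ (d' + 1) * ((d' + 1).factorial * Q.leadingCoeff)) := by
    rw [← C_mul', ← C_mul]
  rw [hsm, Phi_small _ _ (by omega) y L _ (by rw [natDegree_C]; omega)]
  have h7 : ∀ a : ℕ, ev y ((a ^ 2 ^ s) • derivative^[2 ^ s]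
      (C (b ^ (d' + 1) * ((d' + 1).factorial * Q.leadingCoeff)))) = 0 := by
    intro a
    rw [iterate_derivative_eq_zero (by rw [natDegree_C]; exact hp), smul_zero, ev_zero]
  simp only [h7, List.map_const', List.sum_replicate, smul_zero, add_zero]
  simp [ev]

end Pool.Agent.H625R3.TM
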