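import Mathlib
import Pool.Agent.H625R3.TM2

namespace Pool.Agent.H625R3.TM

open Polynomial Finset

theorem zmod2_cases (x : ZMod 2) : x = 0 ∨ x = 1 := by
  revert x; decide

theorem tm_rec' (u : ℕ) : tm (2 * u) = tm u := by
  rw [tm_rec]
  have h1 : (2 * u) % 2 = 0 := by omega
  have h2 : (2 * u) / 2 = u := by omega
  rw [h1, h2]; simp

theorem tm_odd (u : ℕ) : tm (2 * u + 1) = 1 + tm u := by
  rw [tm_rec]
  have h1 : (2 * u + 1) % 2 = 1 := by omega
  have h2 : (2 * u + 1) / 2 = u := by omega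
  rw [h1, h2]; simp

/-- Independence of `A ↦ t(A o)` for distinct odd `o`. -/
theorem star1 {k : ℕ} (o : Fin k → ℕ) (hodd : ∀ i, Odd (o i)) (hinj : Function.Injective o)
    (s : Fin k → ZMod 2) (hs : s ≠ 0) : ∃ A : ℕ, ∑ i, s i * tm (A * o i) ≠ 0 := by
  classical
  by_contra hcon
  push Not at hcon
  obtain ⟨i1, hi1⟩ : ∃ i, s i ≠ 0 := by
    by_contra h
    push Not at h
    exact hs (funext h)
  obtain ⟨i0, hi0, hmax⟩ := Finset.exists_max_image (univ.filter (fun i => s i ≠ 0)) o
    ⟨i1, by simp [hi1]⟩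
  simp only [mem_filter, mem_univ, true_and] at hi0 hmax
  set V := o i0 with hV
  have hVodd : Odd V := hodd i0
  have hVpos : 0 < V := hVodd.pos
  set N := V * V with hN
  have hN2 : V * V < 2 ^ N := Nat.lt_two_pow_self
  set A := (2 ^ N + V - 1) / V with hA
  have hA1 : 2 ^ N ≤ A * V := by
    have := Nat.div_add_mod (2 ^ N + V - 1) V
    have h2 := Nat.mod_lt (2 ^ N + V - 1) hVpos
    rw [← hA] at this
    rw [mul_comm A V]
    omega
  have hA2 : A * V < 2 ^ N + V := by
    have := Nat.div_mul_le_self (2 ^ N + V - 1) V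
    rw [← hA] at this
    omega
  have hA3 : V ≤ A := by
    by_contra h
    push Not at h
    have : A * V ≤ V * V := Nat.mul_le_mul_right V h.le
    omega
  -- the key computation
  have key : ∀ i, s i * (tm ((A + 2 ^ N * V) * o i) + tm (A * o i) + tm (V * o i)) =
      if i = i0 then 1 else 0 := by
    intro i
    by_cases hsi : s i = 0
    · have : i ≠ i0 := fun h => hi0 (h ▸ hsi)
      rw [hsi, if_neg this, zero_mul]
    have hs1 : s i = 1 := (zmod2_cases (s i)).resolve_left hsi
    rw [hs1, one_mul]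
    by_cases hi : i = i0
    · rw [if_pos hi, hi, ← hV]
      -- `A V = 2^N + R`
      obtain ⟨R, hR⟩ : ∃ R, A * V = R + 2 ^ N * 1 := ⟨A * V - 2 ^ N, by omega⟩
      have hVle : V ≤ V * V := Nat.le_mul_of_pos_left V hVpos
      have hRlt : R < 2 ^ N := by omega
      have e1 : (A + 2 ^ N * V) * V = R + 2 ^ N * (V * V + 1) := by
        rw [add_mul, hR]; ring
      rw [e1, hR, tm_add_mul_pow N R _ hRlt, tm_add_mul_pow N R _ hRlt]
      -- `V^2 = 4 w + 1`
      obtain ⟨w, hw⟩ : ∃ w, V * V = 2 * (2 * w) + 1 := by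
        obtain ⟨u, hu⟩ := hVodd
        exact ⟨u * u + u, by rw [hu]; ring⟩
      have e2 : V * V + 1 = 2 * (2 * w + 1) := by omega
      have e3 : tm 1 = 1 := by
        have := tm_odd 0
        simpa [tm_zero] using this
      rw [e2, tm_rec', tm_odd, hw, tm_odd, tm_rec', e3]
      have : ∀ a b : ZMod 2, a + (1 + b) + (a + 1) + (1 + b) = 1 := by decide
      exact this _ _
    · rw [if_neg hi]
      have hle : o i ≤ V := hmax i hsi
      have hlt : o i < V := lt_of_le_of_ne hle (fun h => hi (hinj h))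
      have h1 : A * o i < 2 ^ N := by
        have : A * o i ≤ A * (V - 1) := Nat.mul_le_mul_left A (by omega)
        have h3 : A * (V - 1) + A = A * V := by
          obtain ⟨V', hV'⟩ : ∃ V', V = V' + 1 := ⟨V - 1, by omega⟩
          rw [hV']; simp; ring
        omega
      have e1 : (A + 2 ^ N * V) * o i = A * o i + 2 ^ N * (V * o i) := by ring
      rw [e1, tm_add_mul_pow N _ _ h1]
      have : ∀ a b : ZMod 2, a + b + a + b = 0 := by decide
      exact this _ _
  have h1 := hcon (A + 2 ^ N * V)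
  have h2 := hcon A
  have h3 := hcon V
  have h4 : ∑ i, s i * (tm ((A + 2 ^ N * V) * o i) + tm (A * o i) + tm (V * o i)) = 0 := by
    simp only [mul_add, Finset.sum_add_distrib]
    rw [h1, h2, h3]; simp
  rw [Finset.sum_congr rfl (fun i _ => key i)] at h4
  simp at h4

/-- `E b = Δ_b + 1`. -/
noncomputable def Eop (d b : ℕ) (φ : Fn) : Fn := Del d b φ + φ

theorem Eop_apply (d b : ℕ) (φ : Fn) (Q : ℕ[X]) :
    Eop d b φ Q = ∑ j ∈ range d, φ (fop b (j + 1) Q) := by
  unfold Eop
  rw [Pi.add_apply, Del_apply, Finset.sum_range_succ', fop_zero_deriv, add_assoc,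
    CharTwo.add_self_eq_zero, add_zero]

theorem Eop_zero (d b : ℕ) (φ : Fn) (h : φ 0 = 0) : Eop d b φ 0 = 0 := by
  rw [Eop_apply]
  exact Finset.sum_eq_zero fun j _ => by rw [fop_zero_right, h]

theorem Eiter_zero (d b : ℕ) (r : ℕ) : ((Eop d b)^[r] (ev 0)) 0 = 0 := by
  induction r with
  | zero => exact ev_zero 0
  | succ r ih => rw [Function.iterate_succ_apply']; exact Eop_zero _ _ _ ih

theorem Eiter (d : ℕ) (hd : 1 ≤ d) : ∀ (r : ℕ) (Q : ℕ[X]), Q.natDegree ≤ r →
    ((Eop d 1)^[r] (ev 0)) Q = ev 0 (derivative^[r] Q) := by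
  intro r
  induction r with
  | zero => intro Q _; rfl
  | succ r ih =>
    intro Q hQ
    rw [Function.iterate_succ_apply', Eop_apply]
    obtain ⟨d', rfl⟩ : ∃ d', d = d' + 1 := ⟨d - 1, by omega⟩
    rw [Finset.sum_range_succ', Finset.sum_eq_zero, zero_add, zero_add, fop_one, one_smul,
      ih _ ((natDegree_derivative_le _).trans (by omega)), Function.iterate_succ_apply]
    intro j _
    have h1 := natDegree_fop_le 1 (j + 1 + 1) Q
    by_cases h0 : fop 1 (j + 1 + 1) Q = 0
    · rw [h0]; exact Eiter_zero _ _ _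
    by_cases hr : Q.natDegree < j + 1 + 1
    · exact absurd (fop_eq_zero _ _ _ hr) h0
    rw [ih _ (by omega), iterate_derivative_eq_zero (by omega), ev_zero]

theorem E_total (e : ℕ) (he : 1 ≤ e) (A : ℕ) (Q : ℕ[X]) (hQ : Q.natDegree ≤ e) :
    (Eop e A ((Eop e 1)^[e - 1] (ev 0))) Q = ev 0 (A • derivative^[e] Q) := by
  rw [Eop_apply]
  obtain ⟨d', rfl⟩ : ∃ d', e = d' + 1 := ⟨e - 1, by omega⟩
  rw [Finset.sum_range_succ', Finset.sum_eq_zero, zero_add, zero_add, fop_one, Nat.add_sub_cancel,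
    Eiter _ he, iterate_derivative_smul, ← Function.iterate_succ_apply derivative]
  · exact (natDegree_smul_le _ _).trans ((natDegree_derivative_le _).trans (by omega))
  intro j _
  have h1 := natDegree_fop_le A (j + 1 + 1) Q
  by_cases h0 : fop A (j + 1 + 1) Q = 0
  · rw [h0]; exact Eiter_zero _ _ _
  by_cases hr : Q.natDegree < j + 1 + 1
  · exact absurd (fop_eq_zero _ _ _ hr) h0
  rw [Nat.add_sub_cancel, Eiter _ he _ _ (by omega), iterate_derivative_eq_zero (by omega), ev_zero]

/-- The span of the realised functionals at `0`. -/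
noncomputable def Sub0 (d : ℕ) : Submodule (ZMod 2) Fn :=
  Submodule.span (ZMod 2) {φ | ∃ L : List ℕ, φ = (L.map (Del d)).prod (ev 0)}

theorem Sub0_Del (d b : ℕ) (φ : Fn) (h : φ ∈ Sub0 d) : Del d b φ ∈ Sub0 d := by
  unfold Sub0 at *
  induction h using Submodule.span_induction with
  | mem x hx =>
    obtain ⟨L, rfl⟩ := hx
    apply Submodule.subset_span
    exact ⟨b :: L, by simp⟩
  | zero => simp
  | add x y _ _ hx hy => rw [map_add]; exact Submodule.add_mem _ hx hy
  | smul c x _ hx => rw [map_smul]; exact Submodule.smul_mem _ c hx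

theorem Sub0_E (d b : ℕ) (φ : Fn) (h : φ ∈ Sub0 d) : Eop d b φ ∈ Sub0 d :=
  Submodule.add_mem _ (Sub0_Del d b φ h) h

theorem Sub0_ev (d : ℕ) : ev 0 ∈ Sub0 d :=
  Submodule.subset_span ⟨[], by simp⟩

theorem Sub0_iter (d b r : ℕ) : ((Eop d b)^[r] (ev 0)) ∈ Sub0 d := by
  induction r with
  | zero => exact Sub0_ev d
  | succ r ih => rw [Function.iterate_succ_apply']; exact Sub0_E _ _ _ ih

/-- If a combination of `a ↦ t(a^e v_i)` vanishes identically, so does the one of
`A ↦ t(A e! v_i)`. -/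
theorem polar {k : ℕ} (e : ℕ) (he : 1 ≤ e) (v : Fin k → ℕ) (s : Fin k → ZMod 2)
    (h : ∀ a : ℕ, ∑ i, s i * tm (a ^ e * v i) = 0) (A : ℕ) :
    ∑ i, s i * tm (A * (e.factorial * v i)) = 0 := by
  classical
  have hdeg : ∀ i, (C (v i) * X ^ e : ℕ[X]).natDegree ≤ e := fun i => natDegree_C_mul_X_pow_le _ _
  have h1 : ∀ φ ∈ Sub0 e, ∑ i, s i * φ (C (v i) * X ^ e) = 0 := by
    intro φ hφ
    unfold Sub0 at hφ
    induction hφ using Submodule.span_induction with
    | mem x hx =>
      obtain ⟨L, rfl⟩ := hx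
      obtain ⟨n, hn⟩ := achieve e 1 L (univ.image (fun i => (C (v i) * X ^ e : ℕ[X]))) (by
        intro Q hQ
        simp only [mem_image, mem_univ, true_and] at hQ
        obtain ⟨i, rfl⟩ := hQ
        exact hdeg i)
      rw [← h n]
      refine Finset.sum_congr rfl fun i _ => ?_
      rw [← hn (C (v i) * X ^ e) (by simp) 0 (by simp)]
      congr 2
      simp [mul_comm]
    | zero => simp
    | add x y _ _ hx hy =>
      simp only [Pi.add_apply, mul_add, Finset.sum_add_distrib, hx, hy, add_zero]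
    | smul c x _ hx =>
      have : ∀ i, s i * (c • x) (C (v i) * X ^ e) = c * (s i * x (C (v i) * X ^ e)) := by
        intro i; simp only [Pi.smul_apply, smul_eq_mul]; ring
      rw [Finset.sum_congr rfl (fun i _ => this i), ← Finset.mul_sum, hx, mul_zero]
  have h2 := h1 _ (Sub0_E e A _ (Sub0_iter e 1 (e - 1)))
  rw [← h2]
  refine Finset.sum_congr rfl fun i _ => ?_
  rw [E_total e he A _ (hdeg i)]
  congr 1
  have : derivative^[e] (C (v i) * X ^ e : ℕ[X]) = C (e.factorial * v i) := by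
    rw [iterate_derivative_C_mul, iterate_derivative_X_pow_eq_natCast_mul, Nat.sub_self, pow_zero,
      mul_one, Nat.descFactorial_self, C_mul, mul_comm]
    simp
  rw [this]
  simp [ev]

/-- Independence of `a ↦ t(a^e v_i)`. -/
theorem star2 {k : ℕ} (e : ℕ) (he : 1 ≤ e) (v : Fin k → ℕ) (hpos : ∀ i, 0 < v i)
    (hd : ∀ i j, v i < v j → v j < 2 * v i) (hinj : Function.Injective v)
    (s : Fin k → ZMod 2) (hs : s ≠ 0) : ∃ a : ℕ, ∑ i, s i * tm (a ^ e * v i) ≠ 0 := by
  by_contra hcon
  push Not at hcon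
  have hp := polar e he v s hcon
  have hne : ∀ i, e.factorial * v i ≠ 0 := fun i =>
    (Nat.mul_pos (Nat.factorial_pos e) (hpos i)).ne'
  choose u o ho using fun i => Nat.exists_eq_two_pow_mul_odd (hne i)
  have hoi : Function.Injective o := by
    -- distinct odd parts
    have key : ∀ i j, v i < v j → o i ≠ o j := by
      intro i j hij hoe
      have h1 := (ho i).2
      have h2 := (ho j).2
      have h3 := hd i j hij
      have h4 : e.factorial * v i < e.factorial * v j :=
        Nat.mul_lt_mul_of_pos_left hij (Nat.factorial_pos e)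
      have h5 : e.factorial * v j < 2 * (e.factorial * v i) := by
        have := Nat.mul_lt_mul_of_pos_left h3 (Nat.factorial_pos e)
        calc e.factorial * v j < e.factorial * (2 * v i) := this
          _ = _ := by ring
      rw [h1, h2, hoe] at h4 h5
      have hpo : 0 < o j := (ho j).1.pos
      have h6 : 2 ^ u i < 2 ^ u j := lt_of_mul_lt_mul_right h4 (Nat.zero_le _)
      have h7 : 2 ^ u j < 2 ^ (u i + 1) := by
        rw [pow_succ, mul_comm (2 ^ u i) 2]
        apply lt_of_mul_lt_mul_right (a := o j) _ (Nat.zero_le _)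
        rw [mul_assoc]; exact h5
      have h8 := (Nat.pow_lt_pow_iff_right (by norm_num : 1 < 2)).mp h6
      have h9 := (Nat.pow_lt_pow_iff_right (by norm_num : 1 < 2)).mp h7
      omega
    intro i j hij
    by_contra hne'
    have hv : v i ≠ v j := fun h => hne' (hinj h)
    rcases lt_or_gt_of_ne hv with h | h
    · exact key i j h hij
    · exact key j i h hij.symm
  obtain ⟨A, hA⟩ := star1 o (fun i => (ho i).1) hoi s hs
  apply hA
  rw [← hp A]
  refine Finset.sum_congr rfl fun i _ => ?_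
  rw [(ho i).2]
  congr 1
  rw [show A * (2 ^ u i * o i) = 2 ^ u i * (A * o i) by ring, tm_pow_mul]

/-- Every vector is a finite sum of the vectors `(t(a^e v_i))_i`. -/
theorem span_all {k : ℕ} (e : ℕ) (he : 1 ≤ e) (v : Fin k → ℕ) (hpos : ∀ i, 0 < v i)
    (hd : ∀ i j, v i < v j → v j < 2 * v i) (hinj : Function.Injective v)
    (g : Fin k → ZMod 2) : ∃ L : List ℕ, ∀ i, (L.map (fun a => tm (a ^ e * v i))).sum = g i := by
  classical
  let T : Submodule (ZMod 2) (Fin k → ZMod 2) :=
    { carrier := {g | ∃ L : List ℕ, ∀ i, (L.map (fun a => tm (a ^ e * v i))).sum = g i}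
      zero_mem' := ⟨[], fun i => rfl⟩
      add_mem' := by
        rintro x y ⟨L, hL⟩ ⟨M, hM⟩
        exact ⟨L ++ M, fun i => by rw [List.map_append, List.sum_append, hL, hM]; rfl⟩
      smul_mem' := by
        rintro c x ⟨L, hL⟩
        rcases zmod2_cases c with rfl | rfl
        · exact ⟨[], fun i => by simp⟩
        · exact ⟨L, fun i => by rw [hL]; simp⟩ }
  suffices hT : T = ⊤ by
    have : g ∈ T := by rw [hT]; trivial
    exact this
  by_contra hne
  obtain ⟨f, hf0, hf⟩ := Submodule.exists_le_ker_of_lt_top T (lt_top_iff_ne_top.mpr hne)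
  have hs : (fun i => f (Pi.single i 1)) ≠ 0 := by
    intro h0
    apply hf0
    ext i
    have := congrFun h0 i
    simpa using this
  obtain ⟨a, ha⟩ := star2 e he v hpos hd hinj _ hs
  apply ha
  have hu : (fun i => tm (a ^ e * v i)) ∈ T := ⟨[a], fun i => by simp⟩
  have h1 := hf hu
  rw [LinearMap.mem_ker] at h1
  rw [← h1]
  have h2 : (fun i => tm (a ^ e * v i)) = ∑ i, tm (a ^ e * v i) • (Pi.single i (1 : ZMod 2)) := by
    ext j
    simp [Finset.sum_apply, Pi.single_apply]
  conv_rhs => rw [h2]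
  rw [map_sum]
  refine Finset.sum_congr rfl fun i _ => ?_
  rw [map_smul, smul_eq_mul, mul_comm]

end Pool.Agent.H625R3.TM
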