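import Mathlib
import Pool.Agent.H625R3.TM3

namespace Pool.Agent.H625R3.TM

open Polynomial Finset

theorem pow_ratio (k D c j : ℕ) (hc : 2 * k * D < c) (hj : j ≤ D) :
    (c + k) ^ j < 2 * c ^ j := by
  have hc0 : 0 < c := by omega
  have hR : ((c + k : ℝ)) ^ j < 2 * (c : ℝ) ^ j := by
    have hck : (0 : ℝ) < c + k := by positivity
    have h1 : (1 : ℝ) + j * (-(k / (c + k))) ≤ (1 + -(k / (c + k))) ^ j := by
      apply one_add_mul_le_pow
      have : (k : ℝ) / (c + k) ≤ 1 := by
        rw [div_le_one hck]
        have : (0 : ℝ) < c := by exact_mod_cast hc0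
        linarith
      linarith
    have h2 : (1 : ℝ) + -(k / (c + k)) = c / (c + k) := by field_simp; ring
    rw [h2, div_pow] at h1
    have h3 : (j : ℝ) * (k / (c + k)) < 1 / 2 := by
      rw [← mul_div_assoc, div_lt_div_iff₀ hck (by norm_num)]
      have h4 : (2 * k * D : ℕ) < c := hc
      have h5 : ((2 * k * D : ℕ) : ℝ) < c := by exact_mod_cast h4
      push_cast at h5
      have h6 : (j : ℝ) ≤ D := by exact_mod_cast hj
      have h7 : (j : ℝ) * k ≤ D * k := mul_le_mul_of_nonneg_right h6 (Nat.cast_nonneg k)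
      have h8 : (0 : ℝ) ≤ k := Nat.cast_nonneg k
      nlinarith
    have h4 : (1 : ℝ) / 2 < (c : ℝ) ^ j / (c + k) ^ j := by
      have : (1 : ℝ) + j * (-(k / (c + k))) = 1 - j * (k / (c + k)) := by ring
      rw [this] at h1
      linarith
    rw [div_lt_div_iff₀ (by norm_num) (by positivity)] at h4
    linarith
  exact_mod_cast hR

theorem eval_mono_lt (G : ℕ[X]) (hG : 1 ≤ G.natDegree) (x : ℕ) : G.eval x < G.eval (x + 1) := by
  rw [eval_eq_sum_range, eval_eq_sum_range]
  apply Finset.sum_lt_sum
  · intro i _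
    exact Nat.mul_le_mul_left _ (Nat.pow_le_pow_left (Nat.le_succ x) i)
  · refine ⟨G.natDegree, by simp, ?_⟩
    apply Nat.mul_lt_mul_of_pos_left
    · exact Nat.pow_lt_pow_left (Nat.lt_succ_self x) (by omega)
    · have : G.coeff G.natDegree ≠ 0 := by
        rw [coeff_natDegree]
        intro h
        rw [leadingCoeff_eq_zero] at h
        rw [h] at hG; simp at hG
      omega

theorem eval_ratio (G : ℕ[X]) (hG : 1 ≤ G.natDegree) (k c : ℕ) (hc : 2 * k * G.natDegree < c) :
    G.eval (c + k) < 2 * G.eval c := by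
  rw [eval_eq_sum_range, eval_eq_sum_range, Finset.mul_sum]
  apply Finset.sum_lt_sum
  · intro i hi
    have hi' : i ≤ G.natDegree := by
      rw [Finset.mem_range] at hi; omega
    calc G.coeff i * (c + k) ^ i ≤ G.coeff i * (2 * c ^ i) :=
          Nat.mul_le_mul_left _ (pow_ratio k _ c i hc hi').le
      _ = _ := by ring
  · refine ⟨G.natDegree, by simp, ?_⟩
    have h1 : 0 < G.coeff G.natDegree := by
      have : G.coeff G.natDegree ≠ 0 := by
        rw [coeff_natDegree]
        intro h
        rw [leadingCoeff_eq_zero] at h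
        rw [h] at hG; simp at hG
      omega
    calc G.coeff G.natDegree * (c + k) ^ G.natDegree
        < G.coeff G.natDegree * (2 * c ^ G.natDegree) :=
          Nat.mul_lt_mul_of_pos_left (pow_ratio k _ c _ hc le_rfl) h1
      _ = _ := by ring

theorem prod_flat (d e : ℕ) (L : List ℕ) :
    ((L.flatMap (fun a => List.replicate e a)).map (Del d)).prod =
      (L.map (fun a => (Del d a) ^ e)).prod := by
  induction L with
  | nil => rfl
  | cons a L ih =>
    rw [List.flatMap_cons, List.map_append, List.prod_append, ih, List.map_replicate,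
      List.prod_replicate, List.map_cons, List.prod_cons]

/-- Every word occurs, for polynomials with non-negative coefficients. -/
theorem main_nat (R : ℕ[X]) (hd : 2 ≤ R.natDegree) (k : ℕ) (g : Fin k → ZMod 2) :
    ∃ n : ℕ, ∀ i : Fin k, tm (R.eval (n + i)) = g i := by
  set d := R.natDegree with hdd
  -- choose `s`
  obtain ⟨s, hs1, hs2⟩ : ∃ s, 2 ^ s < d ∧ d ≤ 2 * 2 ^ s := by
    refine ⟨Nat.log 2 (d - 1), ?_, ?_⟩
    · have := Nat.pow_log_le_self 2 (x := d - 1) (by omega)
      omega
    · have := Nat.lt_pow_succ_log_self (b := 2) (by norm_num) (d - 1)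
      rw [pow_succ] at this
      omega
  have hp : 0 < 2 ^ s := by positivity
  set G := derivative^[2 ^ s] R with hG
  have hGdeg : 1 ≤ G.natDegree := by
    have h1 : (hasseDeriv (2 ^ s) R).natDegree = R.natDegree - 2 ^ s := natDegree_hasseDeriv R _
    have h2 : ((2 ^ s).factorial • hasseDeriv (2 ^ s)) R = derivative^[2 ^ s] R :=
      congrFun (factorial_smul_hasseDeriv (R := ℕ) (k := 2 ^ s)) R
    rw [hG, ← h2, LinearMap.smul_apply, natDegree_smul_of_smul_regular, h1]
    · omega
    · intro x y hxy
      exact Nat.eq_of_mul_eq_mul_left (Nat.factorial_pos _) hxy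
  -- choose `c`
  obtain ⟨c, hc⟩ : ∃ c, 2 * k * G.natDegree < c := ⟨2 * k * G.natDegree + 1, by omega⟩
  have hmono : StrictMono (fun x => G.eval x) := strictMono_nat_of_lt_succ (eval_mono_lt G hGdeg)
  let v : Fin k → ℕ := fun i => G.eval (c + i)
  have hpos : ∀ i, 0 < v i := by
    intro i
    have h1 : G.eval 0 < G.eval (c + i) := hmono (by omega)
    show 0 < G.eval (c + i)
    omega
  have hv : ∀ i j, v i < v j → v j < 2 * v i := by
    intro i j _
    have h1 : G.eval (c + j) ≤ G.eval (c + k) := hmono.monotone (by have := j.2; omega)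
    have h2 : G.eval c ≤ G.eval (c + i) := hmono.monotone (by omega)
    have h3 := eval_ratio G hGdeg k c hc
    show G.eval (c + j) < 2 * G.eval (c + i)
    omega
  have hinj : Function.Injective v := by
    intro i j hij
    have := hmono.injective hij
    ext
    omega
  obtain ⟨L, hL⟩ := span_all (2 ^ s) (by omega) v hpos hv hinj
    (fun i => g i - tm (R.eval (c + i)))
  -- the value of the group operator at `c + i`
  set κ : ZMod 2 := ((L.map (fun a => (Del d a) ^ (2 ^ s))).prod (ev 0)) R -
      (ev 0 R + (L.map (fun a => ev 0 ((a ^ 2 ^ s) • derivative^[2 ^ s] R))).sum) with hκ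
  have hval : ∀ i : Fin k, ((L.map (fun a => (Del d a) ^ (2 ^ s))).prod (ev (c + i))) R =
      g i + κ := by
    intro i
    have h1 := Phi_big d s (by omega) hs2 (c + i) 0 L R le_rfl
    rw [← hκ] at h1
    have h2 : (L.map (fun a => ev (c + i) ((a ^ 2 ^ s) • derivative^[2 ^ s] R))).sum =
        g i - tm (R.eval (c + i)) := by
      rw [← hL i]
      congr 1
      apply List.map_congr_left
      intro a _
      simp only [ev, v, eval_smul, smul_eq_mul, ← hG]
    rw [h2] at h1
    have h3 : ev (c + i) R = tm (R.eval (c + i)) := rfl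
    rw [h3] at h1
    linear_combination h1
  rcases zmod2_cases κ with h0 | h0
  · obtain ⟨n, hn⟩ := achieve d (c + k) (L.flatMap (fun a => List.replicate (2 ^ s) a)) {R}
      (by intro Q hQ; rw [Finset.mem_singleton] at hQ; rw [hQ])
    refine ⟨c + n, fun i => ?_⟩
    have := hn R (Finset.mem_singleton_self R) (c + i) (by rw [Finset.mem_range]; omega)
    rw [prod_flat, hval i, h0, add_zero] at this
    rw [← this]
    congr 2
    ring
  · -- then `d = 2 * 2 ^ s`
    have hdeq : d = 2 * 2 ^ s := by
      by_contra hne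
      have h1 := Phi_small d s (by omega) 0 L R (by omega)
      rw [hκ, h1, sub_self] at h0
      exact zero_ne_one h0
    -- choose `b`
    obtain ⟨b, hb⟩ : ∃ b : ℕ, tm (b ^ d * (d.factorial * R.leadingCoeff)) = 1 := by
      have hlc : 0 < R.leadingCoeff := by
        have : R.leadingCoeff ≠ 0 := by
          intro h
          rw [leadingCoeff_eq_zero] at h
          rw [hdd, h] at hd; simp at hd
        omega
      obtain ⟨b, hb⟩ := star2 (k := 1) d (by omega) (fun _ => d.factorial * R.leadingCoeff)
        (fun _ => Nat.mul_pos (Nat.factorial_pos _) hlc) (fun _ _ h => absurd h (lt_irrefl _))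
        (fun i j _ => Subsingleton.elim i j) (fun _ => 1)
        (fun h => one_ne_zero (congrFun h 0))
      refine ⟨b, ?_⟩
      simp only [Finset.univ_unique, Finset.sum_singleton, one_mul] at hb
      exact (zmod2_cases _).resolve_left hb
    obtain ⟨n, hn⟩ := achieve d (c + k)
      (List.replicate (2 ^ (s + 1)) b ++ L.flatMap (fun a => List.replicate (2 ^ s) a)) {R}
      (by intro Q hQ; rw [Finset.mem_singleton] at hQ; rw [hQ])
    refine ⟨c + n, fun i => ?_⟩
    have := hn R (Finset.mem_singleton_self R) (c + i) (by rw [Finset.mem_range]; omega)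
    rw [List.map_append, List.prod_append, prod_flat, List.map_replicate, List.prod_replicate,
      flip d s hdeq (c + i) b L R rfl, hval i, hb, h0] at this
    have e : R.eval (c + n + i) = R.eval (c + i + n) := by congr 1; ring
    rw [e, this]
    have : ∀ x : ZMod 2, x + 1 + 1 = x := by decide
    exact this _

/-- An integer polynomial with positive leading coefficient is eventually non-negative. -/
theorem eventually_nonneg (Q : ℤ[X]) (h : 0 < Q.leadingCoeff) :
    ∃ c0 : ℕ, ∀ c : ℕ, c0 ≤ c → 0 ≤ Q.eval (c : ℤ) := by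
  rcases Nat.eq_zero_or_pos Q.natDegree with h0 | h0
  · refine ⟨0, fun c _ => ?_⟩
    rw [eq_C_of_natDegree_eq_zero h0, eval_C]
    rw [leadingCoeff, h0] at h
    exact h.le
  · have hR : Filter.Tendsto (fun x : ℝ => (Q.map (Int.castRingHom ℝ)).eval x) Filter.atTop
        Filter.atTop := by
      have hinj : Function.Injective (Int.castRingHom ℝ) := Int.cast_injective
      apply Polynomial.tendsto_atTop_of_leadingCoeff_nonneg
      · rw [degree_map_eq_of_injective hinj]
        exact natDegree_pos_iff_degree_pos.mp h0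
      · rw [leadingCoeff_map_of_injective hinj]
        have : (0 : ℝ) < ((Q.leadingCoeff : ℤ) : ℝ) := by exact_mod_cast h
        exact this.le
    have h1 := (hR.eventually_ge_atTop 0)
    rw [Filter.eventually_atTop] at h1
    obtain ⟨x0, hx0⟩ := h1
    obtain ⟨c0, hc0⟩ := exists_nat_ge x0
    refine ⟨c0, fun c hc => ?_⟩
    have h2 := hx0 (c : ℝ) (hc0.trans (by exact_mod_cast hc))
    have h3 : (Q.map (Int.castRingHom ℝ)).eval (c : ℝ) = ((Q.eval (c : ℤ) : ℤ) : ℝ) := by
      have := Polynomial.eval_map_apply (f := Int.castRingHom ℝ) (p := Q) (c : ℤ)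
      simpa using this
    rw [h3] at h2
    exact_mod_cast h2

/-- Translate an integer polynomial so that its coefficients become non-negative. -/
theorem to_nat (P : ℤ[X]) (hP : ∀ n : ℕ, 0 ≤ P.eval (n : ℤ)) (hd : 1 ≤ P.natDegree) :
    ∃ (c : ℕ) (R : ℕ[X]), R.natDegree = P.natDegree ∧
      ∀ n : ℕ, ((R.eval n : ℕ) : ℤ) = P.eval ((n + c : ℕ) : ℤ) := by
  -- the leading coefficient is positive
  have hlc : 0 < P.leadingCoeff := by
    by_contra hcon
    push Not at hcon
    have hne : P.leadingCoeff ≠ 0 := by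
      intro h
      rw [leadingCoeff_eq_zero] at h
      rw [h] at hd; simp at hd
    have hneg : 0 < (-P).leadingCoeff := by
      rw [leadingCoeff_neg]; omega
    -- consider `-P - 1`
    have hdeg1 : (-P - 1).natDegree = P.natDegree := by
      rw [sub_eq_add_neg, natDegree_add_eq_left_of_natDegree_lt, natDegree_neg]
      rw [natDegree_neg, natDegree_neg, natDegree_one]; omega
    have hlc1 : 0 < (-P - 1).leadingCoeff := by
      rw [leadingCoeff, hdeg1, coeff_sub, coeff_neg, coeff_one, if_neg (by omega), sub_zero]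
      rw [leadingCoeff_neg] at hneg
      exact hneg
    obtain ⟨c0, hc0⟩ := eventually_nonneg _ hlc1
    have h1 := hc0 c0 le_rfl
    have h2 := hP c0
    simp only [eval_sub, eval_neg, eval_one] at h1
    omega
  have hall : ∀ j, ∃ c0 : ℕ, ∀ c : ℕ, c0 ≤ c → 0 ≤ (hasseDeriv j P).eval (c : ℤ) := by
    intro j
    by_cases hj : P.natDegree < j
    · exact ⟨0, fun c _ => by rw [hasseDeriv_eq_zero_of_lt_natDegree P j hj]; simp⟩
    · push Not at hj
      apply eventually_nonneg
      rw [leadingCoeff, natDegree_hasseDeriv, hasseDeriv_coeff, Nat.sub_add_cancel hj]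
      have h1 : 0 < P.natDegree.choose j := Nat.choose_pos hj
      exact mul_pos (by exact_mod_cast h1) hlc
  choose c0 hc0 using hall
  set c := ∑ j ∈ range (P.natDegree + 1), c0 j with hc
  have hcj : ∀ j ≤ P.natDegree, c0 j ≤ c := fun j hj =>
    Finset.single_le_sum (f := c0) (fun _ _ => Nat.zero_le _) (by rw [mem_range]; omega)
  let R : ℕ[X] := ∑ j ∈ range (P.natDegree + 1), monomial j (((taylor (c : ℤ) P).coeff j).toNat)
  have hmap : R.map (Nat.castRingHom ℤ) = taylor (c : ℤ) P := by
    simp only [R, Polynomial.map_sum, map_monomial]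
    conv_rhs => rw [(taylor (c : ℤ) P).as_sum_range, natDegree_taylor]
    refine Finset.sum_congr rfl fun j hj => ?_
    congr 1
    rw [mem_range] at hj
    have h1 := hc0 j c (hcj j (by omega))
    rw [← taylor_coeff] at h1
    simp [h1]
  have hinj : Function.Injective (Nat.castRingHom ℤ) := Nat.cast_injective
  refine ⟨c, R, ?_, fun n => ?_⟩
  · rw [← natDegree_map_eq_of_injective hinj, hmap, natDegree_taylor]
  · have h1 := congrArg (fun Q => Q.eval (n : ℤ)) hmap
    simp only [taylor_eval] at h1
    have h2 : (R.map (Nat.castRingHom ℤ)).eval (n : ℤ) = ((R.eval n : ℕ) : ℤ) := by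
      have := Polynomial.eval_map_apply (f := Nat.castRingHom ℤ) (p := R) n
      simpa using this
    rw [← h2, h1]
    push_cast
    rfl

/-- Every word occurs. -/
theorem main_int (P : ℤ[X]) (hP : ∀ n : ℕ, 0 ≤ P.eval (n : ℤ)) (hd : 2 ≤ P.natDegree) (k : ℕ)
    (g : Fin k → ZMod 2) : ∃ n : ℕ, ∀ i : Fin k, tm (P.eval ((n + i : ℕ) : ℤ)).toNat = g i := by
  obtain ⟨c, R, hR, hRP⟩ := to_nat P hP (by omega)
  obtain ⟨n, hn⟩ := main_nat R (by omega) k g
  refine ⟨n + c, fun i => ?_⟩
  rw [← hn i]
  congr 1
  have h1 := hRP (n + i)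
  have h2 : (n + c + i : ℕ) = n + i + c := by ring
  rw [h2, ← h1]
  simp

end Pool.Agent.H625R3.TM
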